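import Mathlib

/-!
MP_009fd8_ag, general r: extracting p-th roots when an exponent prime to p occurs.
-/

namespace Pool.Agent.MP009fd8F

/-- If `z ^ r = w ^ p` and `r` is prime to `p`, then `z` is a `p`-th power. -/
theorem exists_pow_of_pow_coprime {k : Type*} [Field k] {p r : ℕ} (hrp : Nat.Coprime r p)
    {z w : k} (hz : z ≠ 0) (h : z ^ r = w ^ p) : ∃ c : k, c ≠ 0 ∧ z = c ^ p := by
  rcases Nat.eq_zero_or_pos p with hp | hp
  · subst hp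
    have hr : r = 1 := by simpa using hrp
    subst hr
    refine ⟨1, one_ne_zero, ?_⟩
    simpa using h
  have hw : w ≠ 0 := by
    rintro rfl
    rw [zero_pow hp.ne'] at h
    exact (pow_ne_zero _ hz) h
  have hb : (r : ℤ) * Nat.gcdA r p + (p : ℤ) * Nat.gcdB r p = 1 := by
    have := Nat.gcd_eq_gcd_ab r p
    rw [hrp.gcd_eq_one] at this
    exact_mod_cast this.symm
  refine ⟨w ^ (Nat.gcdA r p) * z ^ (Nat.gcdB r p),
    mul_ne_zero (zpow_ne_zero _ hw) (zpow_ne_zero _ hz), ?_⟩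
  calc z = z ^ (1 : ℤ) := (zpow_one z).symm
    _ = z ^ ((r : ℤ) * Nat.gcdA r p + (p : ℤ) * Nat.gcdB r p) := by rw [hb]
    _ = (z ^ r) ^ (Nat.gcdA r p) * (z ^ (Nat.gcdB r p)) ^ p := by
      rw [zpow_add₀ hz, zpow_mul, zpow_natCast, mul_comm (p : ℤ), zpow_mul, zpow_natCast]
    _ = (w ^ (Nat.gcdA r p) * z ^ (Nat.gcdB r p)) ^ p := by
      rw [h, mul_pow, ← zpow_natCast (w ^ Nat.gcdA r p) p, ← zpow_mul, mul_comm (Nat.gcdA r p),
        zpow_mul, zpow_natCast]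

/-- If `‖z‖ ^ r = ‖w‖ ^ p` and `r` is prime to `p`, then `‖z‖ = ‖c‖ ^ p` for some `c`. -/
theorem exists_norm_pow_of_pow_coprime {k : Type*} [NormedField k] {p r : ℕ}
    (hrp : Nat.Coprime r p) (hp : p ≠ 0) {z w : k} (hz : z ≠ 0) (h : ‖z‖ ^ r = ‖w‖ ^ p) :
    ∃ c : k, c ≠ 0 ∧ ‖z‖ = ‖c‖ ^ p := by
  have hw : w ≠ 0 := by
    rintro rfl
    rw [norm_zero, zero_pow hp] at h
    exact (pow_ne_zero _ (norm_ne_zero_iff.2 hz)) h
  have hz' : ‖z‖ ≠ 0 := norm_ne_zero_iff.2 hz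
  have hb : (r : ℤ) * Nat.gcdA r p + (p : ℤ) * Nat.gcdB r p = 1 := by
    have := Nat.gcd_eq_gcd_ab r p
    rw [hrp.gcd_eq_one] at this
    exact_mod_cast this.symm
  refine ⟨w ^ (Nat.gcdA r p) * z ^ (Nat.gcdB r p),
    mul_ne_zero (zpow_ne_zero _ hw) (zpow_ne_zero _ hz), ?_⟩
  calc ‖z‖ = ‖z‖ ^ (1 : ℤ) := (zpow_one _).symm
    _ = ‖z‖ ^ ((r : ℤ) * Nat.gcdA r p + (p : ℤ) * Nat.gcdB r p) := by rw [hb]
    _ = (‖z‖ ^ r) ^ (Nat.gcdA r p) * (‖z‖ ^ (Nat.gcdB r p)) ^ p := by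
      rw [zpow_add₀ hz', zpow_mul, zpow_natCast, mul_comm (p : ℤ), zpow_mul, zpow_natCast]
    _ = ‖w ^ (Nat.gcdA r p) * z ^ (Nat.gcdB r p)‖ ^ p := by
      rw [norm_mul, norm_zpow, norm_zpow, h, mul_pow, ← zpow_natCast (‖w‖ ^ Nat.gcdA r p) p,
        ← zpow_mul, mul_comm (Nat.gcdA r p), zpow_mul, zpow_natCast]

/-- Positive numbers smaller than a prime are prime to it. -/
theorem coprime_of_lt {p r : ℕ} (hp : p.Prime) (h1 : 1 ≤ r) (h2 : r < p) : Nat.Coprime r p :=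
  ((Nat.Prime.coprime_iff_not_dvd hp).2 (Nat.not_dvd_of_pos_of_lt h1 h2)).symm

end Pool.Agent.MP009fd8F
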