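import Pool.Agent.Lib.MP_009fd8_agF.Def
import Pool.Agent.Lib.MP_009fd8_agF.Cop
import Pool.Agent.Lib.MP_009fd8_agJ.NormTools
import Pool.Agent.Lib.MP_009fd8_agJ.AtN

/-!
MP_009fd8_ag, general r, the places where the valuation of `n` is prime to `p`: norms of the
points of `x ^ r (x + n) = y ^ p`.
-/

set_option autoImplicit false

namespace Pool.Agent.MP009fd8F

open Finset
open Pool.Agent.MP009fd8J (norm_algebra_norm norm_algebra_norm_one_add_sub_one
  exists_pow_eq_one_add)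

section atN

variable {k L : Type*} [NontriviallyNormedField k] [IsUltrametricDist k] [CompleteSpace k]
  [CharZero k] [Field L] [Algebra k L] [FiniteDimensional k L]

/-- The place above `n`. -/
theorem norm_at_n (p r : ℕ) (hp : p.Prime) (hr1 : 1 ≤ r) (hr2 : r + 2 ≤ p) (hpk : ‖(p : k)‖ = 1) (n : k)
    (hn0 : n ≠ 0)
    (hn : ∀ (c : k) (m : ℕ), ‖c‖ ^ p = ‖n‖ ^ m → p ∣ m) (hL : Module.finrank k L < p)
    (x y : L) (hx : x ≠ 0) (hxn : x + algebraMap k L n ≠ 0)
    (hxy : x ^ r * (x + algebraMap k L n) = y ^ p) :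
    ∃ (j : ℤ) (c : k), Algebra.norm k x = n ^ j * c ^ p := by
  classical
  have hodd : Odd p := hp.odd_of_ne_two (by omega)
  have hcop : Nat.Coprime r p := coprime_of_lt hp hr1 (by omega)
  have hcop1 : Nat.Coprime (r + 1) p := coprime_of_lt hp (by omega) (by omega)
  let i1 : NormedField L := spectralNorm.normedField k L
  let i2 : NormedAlgebra k L := spectralNorm.normedAlgebra k L
  have i3 : IsUltrametricDist L :=
    IsUltrametricDist.isUltrametricDist_of_isNonarchimedean_norm isNonarchimedean_spectralNorm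
  have hN : ∀ z : L, ‖Algebra.norm k z‖ = ‖z‖ ^ Module.finrank k L := norm_algebra_norm
  have hN1 : ∀ z : L, ‖z‖ < 1 → ∃ c : k, Algebra.norm k (1 + z) = c ^ p := by
    intro z hz
    have h1 : ‖Algebra.norm k (1 + z) - 1‖ ≤ ‖z‖ :=
      norm_algebra_norm_one_add_sub_one z hz.le
    obtain ⟨c, hc⟩ := exists_pow_eq_one_add p hpk _ (h1.trans_lt hz)
    exact ⟨c, by rw [hc]; ring⟩
  set N : L := algebraMap k L n with hNdef
  have hN0 : N ≠ 0 := by
    rw [hNdef]
    exact (map_ne_zero _).2 hn0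
  have hNn : ‖N‖ = ‖n‖ := norm_algebraMap' _ _
  have hNN : Algebra.norm k N = n ^ Module.finrank k L := Algebra.norm_algebraMap n
  have hNx : Algebra.norm k x ≠ 0 := by
    rw [Algebra.norm_ne_zero_iff]
    exact hx
  rcases lt_trichotomy ‖x‖ ‖N‖ with h | h | h
  · -- `‖x‖ < ‖n‖`
    have h1 : ‖x / N‖ < 1 := by
      rw [norm_div, div_lt_one (norm_pos_iff.2 hN0)]
      exact h
    obtain ⟨c, hc⟩ := hN1 _ h1
    have hc0 : c ≠ 0 := by
      rintro rfl
      rw [zero_pow hp.ne_zero, Algebra.norm_eq_zero_iff] at hc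
      apply hxn
      have : x + N = N * (1 + x / N) := by field_simp; ring
      rw [this, hc, mul_zero]
    have e : x ^ r * (N * (1 + x / N)) = y ^ p := by
      rw [← hxy]
      have e0 : N * (1 + x / N) = x + N := by
        field_simp
        ring
      rw [e0]
    have e2 := congrArg (Algebra.norm k) e
    rw [map_mul, map_mul, map_pow, map_pow, hc, hNN] at e2
    set d : ℕ := Module.finrank k L with hd
    have hb : (r : ℤ) * Nat.gcdA r p + (p : ℤ) * Nat.gcdB r p = 1 := by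
      have := Nat.gcd_eq_gcd_ab r p
      rw [hcop.gcd_eq_one] at this
      exact_mod_cast this.symm
    set A : ℤ := Nat.gcdA r p with hA
    set B : ℤ := Nat.gcdB r p with hB
    have h6 : c ^ p ≠ 0 := pow_ne_zero _ hc0
    have h7 : (Algebra.norm k x * n ^ ((d : ℤ) * A)) ^ r =
        (Algebra.norm k y / c * n ^ (-((d : ℤ) * B))) ^ p := by
      rw [mul_pow, mul_pow, div_pow, ← e2, ← zpow_natCast (n ^ ((d : ℤ) * A)) r,
        ← zpow_natCast (n ^ (-((d : ℤ) * B))) p, ← zpow_mul, ← zpow_mul]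
      have h8 : n ^ ((d : ℤ) * A * (r : ℤ)) = n ^ d * n ^ (-((d : ℤ) * B) * (p : ℤ)) := by
        rw [← zpow_natCast n d, ← zpow_add₀ hn0]
        congr 1
        linear_combination (d : ℤ) * hb
      rw [h8]
      field_simp
    have h9 : Algebra.norm k x * n ^ ((d : ℤ) * A) ≠ 0 := mul_ne_zero hNx (zpow_ne_zero _ hn0)
    obtain ⟨b, _, hbp⟩ := exists_pow_of_pow_coprime hcop h9 h7
    refine ⟨-((d : ℤ) * A), b, ?_⟩
    rw [← hbp, zpow_neg]
    have h10 : n ^ ((d : ℤ) * A) ≠ 0 := zpow_ne_zero _ hn0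
    field_simp
  · -- `‖x‖ = ‖n‖`
    have h2 : ‖x + N‖ ≤ ‖N‖ :=
      (IsUltrametricDist.norm_add_le_max _ _).trans (max_le h.le le_rfl)
    rcases h2.lt_or_eq with h3 | h3
    · have h1 : ‖-((x + N) / N)‖ < 1 := by
        rw [norm_neg, norm_div, div_lt_one (norm_pos_iff.2 hN0)]
        exact h3
      obtain ⟨c, hc⟩ := hN1 _ h1
      have e : x = algebraMap k L (-n) * (1 + -((x + N) / N)) := by
        rw [map_neg, ← hNdef]
        field_simp
        ring
      refine ⟨Module.finrank k L, (-1) ^ Module.finrank k L * c, ?_⟩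
      conv_lhs => rw [e]
      rw [map_mul, Algebra.norm_algebraMap, hc, zpow_natCast, neg_pow, mul_pow]
      rcases neg_one_pow_eq_or k (Module.finrank k L) with h7 | h7
      · rw [h7, one_pow]; ring
      · rw [h7, hodd.neg_one_pow]; ring
    · exfalso
      have h4 : ‖y‖ ^ p = ‖n‖ ^ (r + 1) := by
        rw [← norm_pow, ← hxy, norm_mul, norm_pow, h, h3, hNn]
        ring
      have h5 : ‖Algebra.norm k y‖ ^ p = ‖n‖ ^ ((r + 1) * Module.finrank k L) := by
        rw [hN, ← pow_mul, mul_comm, pow_mul, h4, ← pow_mul]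
      have h6 := hn _ _ h5
      rcases (Nat.Prime.dvd_mul hp).1 h6 with h7 | h7
      · have h8 := Nat.le_of_dvd (by omega) h7
        omega
      · have h8 := Nat.le_of_dvd Module.finrank_pos h7
        omega
  · -- `‖x‖ > ‖n‖`
    have h1 : ‖N / x‖ < 1 := by
      rw [norm_div, div_lt_one (norm_pos_iff.2 hx)]
      exact h
    obtain ⟨c, hc⟩ := hN1 _ h1
    have hc0 : c ≠ 0 := by
      rintro rfl
      rw [zero_pow hp.ne_zero, Algebra.norm_eq_zero_iff] at hc
      apply hxn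
      have : x + N = x * (1 + N / x) := by field_simp
      rw [this, hc, mul_zero]
    have e : x ^ r * (x * (1 + N / x)) = y ^ p := by
      rw [← hxy]
      have e0 : x * (1 + N / x) = x + N := by field_simp
      rw [e0]
    have e2 := congrArg (Algebra.norm k) e
    rw [map_mul, map_mul, map_pow, map_pow, hc] at e2
    have e3 : Algebra.norm k x ^ (r + 1) = (Algebra.norm k y / c) ^ p := by
      rw [div_pow, ← e2]
      have h6 : c ^ p ≠ 0 := pow_ne_zero _ hc0
      rw [eq_div_iff h6]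
      ring
    obtain ⟨b, _, hb⟩ := exists_pow_of_pow_coprime hcop1 hNx e3
    exact ⟨0, b, by rw [zpow_zero, one_mul, hb]⟩

end atN

universe u

/-- At a place not above `p` where the valuation of `n` is prime to `p`: the image of `J_(r,n)(k)` is
generated by `n`. -/
theorem image_at_n {k : Type u} [NontriviallyNormedField k] [IsUltrametricDist k]
    [CompleteSpace k] [CharZero k] (p r : ℕ) (hp : p.Prime) (hr1 : 1 ≤ r) (hr2 : r + 2 ≤ p)
    (h1 : ‖(p : k)‖ = 1) (n : k) (hn0 : n ≠ 0)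
    (hn : ∀ (c : k) (j : ℕ), 0 < j → j < p → ‖n‖ ^ j ≠ ‖c‖ ^ p)
    {a : k} (h : InImage p r n a) : ∃ (j : ℕ) (c : k), c ≠ 0 ∧ a = n ^ j * c ^ p := by
  have hn' : ∀ (c : k) (m : ℕ), ‖c‖ ^ p = ‖n‖ ^ m → p ∣ m := by
    intro c m hcm
    rcases Nat.eq_zero_or_pos (m % p) with h0 | h0
    · exact Nat.dvd_of_mod_eq_zero h0
    · exfalso
      refine hn (c / n ^ (m / p)) (m % p) h0 (Nat.mod_lt _ hp.pos) ?_
      have h2 : ‖n‖ ≠ 0 := norm_ne_zero_iff.2 hn0
      rw [norm_div, norm_pow, div_pow, eq_div_iff (pow_ne_zero _ (pow_ne_zero _ h2)), hcm,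
        ← pow_mul, ← pow_add, mul_comm (m / p) p, Nat.mod_add_div]
  have key : ∃ (j : ℤ) (c : k), c ≠ 0 ∧ a = n ^ j * c ^ p := by
    refine InImage.induction (P := fun a => ∃ (j : ℤ) (c : k), c ≠ 0 ∧ a = n ^ j * c ^ p)
      ?_ ?_ ?_ ?_ ?_ h
    · intro c hc
      exact ⟨0, c, hc, by rw [zpow_zero, one_mul]⟩
    · intro _
      exact ⟨1, 1, one_ne_zero, by rw [zpow_one, one_pow, mul_one]⟩
    · rintro b hb ⟨L, i1, i2, i3, hL, x, y, hx, hxn, hxy, rfl⟩
      obtain ⟨j, c, hc⟩ := norm_at_n p r hp hr1 hr2 h1 n hn0 hn' hL x y hx hxn hxy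
      refine ⟨j, c, ?_, hc⟩
      rintro rfl
      rw [zero_pow hp.ne_zero, mul_zero] at hc
      exact hb hc
    · rintro b c _ _ ⟨i, s, hs, rfl⟩ ⟨j, t, ht, rfl⟩
      exact ⟨i + j, s * t, mul_ne_zero hs ht, by rw [zpow_add₀ hn0, mul_pow]; ring⟩
    · rintro b _ ⟨i, s, hs, rfl⟩
      exact ⟨-i, s⁻¹, inv_ne_zero hs, by rw [zpow_neg, inv_pow, mul_inv]⟩
  obtain ⟨j, c, hc, rfl⟩ := key
  obtain ⟨m, hm⟩ : ∃ m : ℕ, (m : ℤ) = j + p * |j| := by
    apply Int.eq_ofNat_of_zero_le _ |>.imp fun m hm => hm.symm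
    have h3 : (1 : ℤ) ≤ p := by exact_mod_cast hp.one_lt.le
    have h4 := abs_nonneg j
    have h5 := neg_abs_le j
    nlinarith
  refine ⟨m, c * n ^ (-|j|), mul_ne_zero hc (zpow_ne_zero _ hn0), ?_⟩
  rw [← zpow_natCast n m, hm, zpow_add₀ hn0, mul_pow, ← zpow_natCast (n ^ (-|j|)) p, ← zpow_mul]
  have h6 : n ^ ((p : ℤ) * |j|) * n ^ (-|j| * (p : ℤ)) = 1 := by
    rw [← zpow_add₀ hn0]
    have : (p : ℤ) * |j| + -|j| * (p : ℤ) = 0 := by ring
    rw [this, zpow_zero]
  linear_combination (-(n ^ j * c ^ p)) * h6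

end Pool.Agent.MP009fd8F
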