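import Pool.Agent.Lib.MP_009fd8_agF.Omega
import Pool.Agent.Lib.MP_009fd8_agJ.NormTools
import Pool.Agent.Lib.MP_009fd8_agJ.AtP

/-!
MP_009fd8_ag, general r: the local step above `p`, in norm form.
-/

namespace Pool.Agent.MP009fd8F

open Pool.Agent.MP009fd8J (Near Near.mul Near.inv norm_one_add_eq_one norm_algebraNorm
  norm_algebraNorm_one_add_sub_one spectralNorm_algHom)
open Polynomial

theorem near_of_mul_eq {k : Type*} [NormedField k] [IsUltrametricDist k] {p : ℕ} {β : ℝ}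
    (hβ : β < 1) {a c z : k} (hc : c ≠ 0) (hz : ‖z‖ ≤ β) (h : a * (1 + z) = c ^ p) :
    Near p β a := by
  have h1z : ‖1 + z‖ = 1 := norm_one_add_eq_one (hz.trans_lt hβ)
  have h1z0 : 1 + z ≠ 0 := by
    intro h0; rw [h0, norm_zero] at h1z; exact zero_ne_one h1z
  refine ⟨c, -z / (1 + z), hc, ?_, ?_⟩
  · rw [norm_div, norm_neg, h1z, div_one]; exact hz
  · have e2 : 1 + -z / (1 + z) = (1 + z)⁻¹ := by
      field_simp; ring
    rw [e2, ← h, mul_assoc, mul_inv_cancel₀ h1z0, mul_one]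

theorem Near.pow {k : Type*} [NormedField k] [IsUltrametricDist k] {p : ℕ} {β : ℝ}
    (hβ0 : 0 ≤ β) (hβ : β < 1) {a : k} (ha : Near p β a) (m : ℕ) : Near p β (a ^ m) := by
  induction m with
  | zero => exact ⟨1, 0, one_ne_zero, by rw [norm_zero]; exact hβ0, by simp⟩
  | succ m ih => rw [pow_succ]; exact Near.mul hβ ih ha

theorem near_pow_p {k : Type*} [NormedField k] {p : ℕ} {β : ℝ} (hβ0 : 0 ≤ β) {c : k}
    (hc : c ≠ 0) : Near p β (c ^ p) :=
  ⟨c, 0, hc, by rw [norm_zero]; exact hβ0, by ring⟩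

/-- An element is near a `p`-th power if a power of it with exponent prime to `p` is. -/
theorem near_of_pow {k : Type*} [NormedField k] [IsUltrametricDist k] {p : ℕ} (hp : p.Prime)
    {β : ℝ} (hβ0 : 0 ≤ β) (hβ : β < 1) {a : k} (ha0 : a ≠ 0) {d : ℕ} (hd : Nat.Coprime d p)
    (ha : Near p β (a ^ d)) : Near p β a := by
  obtain ⟨A, _, hA⟩ := Nat.exists_mul_mod_eq_one_of_coprime hd hp.one_lt
  obtain ⟨B, h1⟩ : ∃ B, d * A = 1 + p * B := by
    refine ⟨d * A / p, ?_⟩
    have := Nat.mod_add_div (d * A) p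
    rw [hA] at this
    exact this.symm
  have h2 : Near p β ((a ^ d) ^ A) := Near.pow hβ0 hβ ha A
  have h3 : Near p β ((a ^ B) ^ p)⁻¹ := Near.inv hβ (near_pow_p hβ0 (pow_ne_zero _ ha0))
  have h4 := Near.mul hβ h2 h3
  have e : (a ^ d) ^ A * ((a ^ B) ^ p)⁻¹ = a := by
    have h5 : (a ^ B) ^ p ≠ 0 := pow_ne_zero _ (pow_ne_zero _ ha0)
    rw [← pow_mul a d A, h1, pow_add, pow_one, mul_comm p B, pow_mul, mul_assoc,
      mul_inv_cancel₀ h5, mul_one]
  rwa [e] at h4

/-- From the algebraic closure to a finite extension: if `ρ` is a root of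
`X ^ r ((r + 1) - r X) = ζ Y` over `L` and `U (1 + δ) = ρ ^ p`, then a power of the norm of `U` with
exponent prime to `p` is near a `p`-th power. -/
theorem descent {k : Type*} [NontriviallyNormedField k] [IsUltrametricDist k]
    [CompleteSpace k] [CharZero k] {L : Type*} [Field L] [Algebra k L] [FiniteDimensional k L]
    {p r : ℕ} (hp : p.Prime) (hr1 : 1 ≤ r) (hr2 : r + 2 ≤ p) {β : ℝ} (hβ1 : β < 1)
    {ζ₀ : k} (hζ₀ : IsPrimitiveRoot ζ₀ p) {U Y : L} (hU : U ≠ 0)
    {ζ ρ δ : AlgebraicClosure L} (h1 : ζ ^ p = 1) (h2 : ρ ≠ 0)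
    (h3 : ρ ^ r * ((r + 1 : AlgebraicClosure L) - r * ρ) =
      ζ * algebraMap L (AlgebraicClosure L) Y)
    (h4 : algebraMap L (AlgebraicClosure L) U * (1 + δ) = ρ ^ p)
    (h5 : spectralNorm k (AlgebraicClosure L) δ ≤ β) :
    ∃ d : ℕ, 1 ≤ d ∧ d < p ∧ Near p β ((Algebra.norm k U) ^ d) := by
  have : CharZero L := charZero_of_injective_algebraMap (algebraMap k L).injective
  let Ω := AlgebraicClosure L
  haveI halgΩ : Algebra.IsAlgebraic k Ω := Algebra.IsAlgebraic.trans k L Ω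
  have hζΩ : IsPrimitiveRoot (algebraMap k Ω ζ₀) p :=
    hζ₀.map_of_injective (algebraMap k Ω).injective
  haveI : NeZero p := ⟨hp.ne_zero⟩
  obtain ⟨i, _, hi⟩ := hζΩ.eq_pow_of_pow_eq_one h1
  have hρint : IsIntegral L ρ := (Algebra.IsAlgebraic.isAlgebraic (R := L) ρ).isIntegral
  set M := IntermediateField.adjoin L {ρ} with hM
  haveI hfdM : FiniteDimensional L M := IntermediateField.adjoin.finiteDimensional hρint
  haveI hfdkM : FiniteDimensional k M := FiniteDimensional.trans k L M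
  haveI : IsScalarTower k M Ω := IsScalarTower.of_algebraMap_eq fun x => by
    rw [IsScalarTower.algebraMap_apply k L Ω, IsScalarTower.algebraMap_apply k L M,
      ← IsScalarTower.algebraMap_apply L M Ω]
  -- the degree
  set Q : Polynomial L := X ^ r * (C (r + 1 : L) - C (r : L) * X) -
    C ((algebraMap k L ζ₀) ^ i * Y) with hQ
  have hQdeg : Q.natDegree ≤ r + 1 := by
    rw [hQ]
    compute_degree
  have hQcoeff : Q.coeff (r + 1) = -(r : L) := by
    rw [hQ, coeff_sub, coeff_C_of_ne_zero (by omega), sub_zero, mul_comm, add_comm r 1,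
      coeff_mul_X_pow, coeff_sub, coeff_C_mul, coeff_X_one, mul_one,
      coeff_C_of_ne_zero one_ne_zero, zero_sub]
  have hQ0 : Q ≠ 0 := by
    intro h0
    rw [h0, coeff_zero] at hQcoeff
    have h6 : (r : L) = 0 := by linear_combination hQcoeff
    rw [Nat.cast_eq_zero] at h6
    omega
  have hQρ : aeval ρ Q = 0 := by
    have e1 : algebraMap L Ω (algebraMap k L ζ₀ ^ i * Y) = ζ * algebraMap L Ω Y := by
      rw [map_mul, map_pow, ← IsScalarTower.algebraMap_apply k L Ω, hi]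
    rw [hQ]
    simp only [map_sub, map_mul, map_pow, aeval_X, aeval_C]
    rw [← map_pow, ← map_mul, e1, ← h3]
    simp
  have hdeg : (minpoly L ρ).natDegree ≤ r + 1 :=
    (Polynomial.natDegree_le_of_dvd (minpoly.dvd L ρ hQρ) hQ0).trans hQdeg
  have hfr : Module.finrank L M = (minpoly L ρ).natDegree :=
    IntermediateField.adjoin.finrank hρint
  refine ⟨Module.finrank L M, Module.finrank_pos, by rw [hfr]; omega, ?_⟩
  -- the elements
  set ρM : M := IntermediateField.AdjoinSimple.gen L ρ with hρM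
  have hρM' : algebraMap M Ω ρM = ρ := IntermediateField.AdjoinSimple.algebraMap_gen L ρ
  set UM : M := algebraMap L M U with hUM
  have hUM' : algebraMap M Ω UM = algebraMap L Ω U := by
    rw [hUM, ← IsScalarTower.algebraMap_apply L M Ω]
  have hU' : algebraMap L Ω U ≠ 0 := (map_ne_zero (algebraMap L Ω)).2 hU
  have hUM0 : UM ≠ 0 := by rw [hUM]; exact (map_ne_zero (algebraMap L M)).2 hU
  have hρM0 : ρM ≠ 0 := by
    intro h0
    rw [h0, map_zero] at hρM'
    exact h2 hρM'.symm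
  set δM : M := ρM ^ p / UM - 1 with hδM
  have hδM' : algebraMap M Ω δM = δ := by
    rw [hδM, map_sub, map_div₀, map_pow, hρM', hUM', map_one, ← h4]
    exact (congrArg (fun t : Ω => t - 1) (mul_div_cancel_left₀ (1 + δ) hU')).trans
      (add_sub_cancel_left 1 δ)
  have heq : UM * (1 + δM) = ρM ^ p := by
    rw [hδM, add_sub_cancel]
    field_simp
  have hδn : spectralNorm k M δM ≤ β := by
    have h6 : spectralNorm k M δM = spectralNorm k Ω δ := by
      rw [← hδM', ← spectralNorm_algHom (IsScalarTower.toAlgHom k M Ω) δM]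
      rfl
    rw [h6]
    exact h5
  have h7 := norm_algebraNorm_one_add_sub_one (k := k) δM (hδn.trans hβ1.le)
  have h8 := congrArg (Algebra.norm k) heq
  rw [map_mul, map_pow] at h8
  have h9 : Algebra.norm k UM = Algebra.norm k U ^ Module.finrank L M := by
    rw [hUM, ← Algebra.norm_norm (S := L), Algebra.norm_algebraMap, map_pow]
  rw [h9] at h8
  refine near_of_mul_eq hβ1 (c := Algebra.norm k ρM) (z := Algebra.norm k (1 + δM) - 1)
    (Algebra.norm_ne_zero_iff.2 hρM0) (h7.trans hδn) ?_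
  rw [add_sub_cancel]
  exact h8

theorem local_step {k : Type*} [NontriviallyNormedField k] [IsUltrametricDist k]
    [CompleteSpace k] [CharZero k] {L : Type*} [Field L] [Algebra k L] [FiniteDimensional k L]
    {p r : ℕ} (hp : p.Prime) (hodd : Odd p) (hr1 : 1 ≤ r) (hr2 : r + 2 ≤ p)
    {α β : ℝ} (hα0 : 0 < α) (hα1 : α < 1) (hα : ‖(p : k)‖ = α ^ (p - 1))
    (hβ0 : 0 ≤ β) (hβ : β ^ 2 = α ^ p)
    {ζ₀ : k} (hζ₀ : IsPrimitiveRoot ζ₀ p) {κ : k} (hκ : ‖κ‖ ≤ α) {U Y : L}
    (hU : U ≠ 0) (h : U ^ r * ((r + 1 : L) - r * U) * (1 + p * algebraMap k L κ) = Y ^ p) :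
    ∃ d : ℕ, 1 ≤ d ∧ d < p ∧ Near p β ((Algebra.norm k U) ^ d) := by
  have hβ1 : β < 1 := by
    have h1 : α ^ p < 1 := pow_lt_one₀ hα0.le hα1 hp.ne_zero
    rw [← hβ] at h1
    by_contra hcon
    push Not at hcon
    have h2 : 1 ≤ β ^ 2 := one_le_pow₀ hcon
    linarith
  have hconv : ∀ x : ℝ, 0 ≤ x → (x ^ 2 ≤ α ^ p) → x ≤ β := by
    intro x hx h1
    rw [← hβ] at h1
    exact (pow_le_pow_iff_left₀ hx hβ0 (by norm_num)).1 h1
  have : CharZero L := charZero_of_injective_algebraMap (algebraMap k L).injective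
  let Ω := AlgebraicClosure L
  haveI halgΩ : Algebra.IsAlgebraic k Ω := Algebra.IsAlgebraic.trans k L Ω
  let i1 : NormedField Ω := spectralNorm.normedField k Ω
  let i2 : NormedAlgebra k Ω := spectralNorm.normedAlgebra k Ω
  haveI i3 : IsUltrametricDist Ω :=
    IsUltrametricDist.isUltrametricDist_of_isNonarchimedean_norm isNonarchimedean_spectralNorm
  have hnorm : ∀ t : Ω, ‖t‖ = spectralNorm k Ω t := fun t => rfl
  have hpΩ : ‖(p : Ω)‖ = α ^ (p - 1) := by
    rw [← hα, ← map_natCast (algebraMap k Ω) p]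
    exact norm_algebraMap' Ω (p : k)
  have hζΩ : IsPrimitiveRoot (algebraMap k Ω ζ₀) p :=
    hζ₀.map_of_injective (algebraMap k Ω).injective
  set U' : Ω := algebraMap L Ω U with hU'
  set Y' : Ω := algebraMap L Ω Y with hY'
  have hU'0 : U' ≠ 0 := by rw [hU']; exact (map_ne_zero (algebraMap L Ω)).2 hU
  have hκ' : ‖algebraMap k Ω κ‖ ≤ α := by
    rw [norm_algebraMap' Ω κ]
    exact hκ
  have h' : U' ^ r * ((r + 1 : Ω) - r * U') * (1 + p * algebraMap k Ω κ) = Y' ^ p := by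
    have := congrArg (algebraMap L Ω) h
    rw [IsScalarTower.algebraMap_apply k L Ω κ]
    simpa using this
  rcases omega_step hp hodd hr1 hr2 hα0 hα1 hpΩ hζΩ hκ' hU'0 h' with h1 | ⟨ζ, ρ, δ, h1, h2, h3, h4, h5⟩
  · refine ⟨1, le_rfl, hp.one_lt, ?_⟩
    rw [pow_one]
    have h2 : ‖U' - 1‖ = spectralNorm k L (U - 1) := by
      rw [hnorm, ← spectralNorm_algHom (IsScalarTower.toAlgHom k L Ω) (U - 1)]
      congr 1
      rw [map_sub, map_one]
      rfl
    have h3 : spectralNorm k L (U - 1) ≤ β := by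
      rw [← h2]
      exact hconv _ (norm_nonneg _) h1
    have h4 := norm_algebraNorm_one_add_sub_one (k := k) (U - 1) (h3.trans hβ1.le)
    rw [add_sub_cancel] at h4
    exact ⟨1, Algebra.norm k U - 1, one_ne_zero, h4.trans h3, by ring⟩
  · exact descent (k := k) hp hr1 hr2 hβ1 hζ₀ hU h1 h2 h3 h4 (hconv _ (spectralNorm_nonneg _) h5)

end Pool.Agent.MP009fd8F
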