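import Pool.Agent.Lib.MP_009fd8_agF.Def
import Pool.Agent.Lib.MP_009fd8_agF.Loc

/-!
MP_009fd8_ag, general r: the places above p.
-/

namespace Pool.Agent.MP009fd8F

open Pool.Agent.MP009fd8J (Near Near.mul Near.inv)

universe u

theorem near_nat {k : Type*} [NormedField k] [IsUltrametricDist k] {p m : ℕ} (hp : p.Prime)
    (hm : Nat.Coprime m p) {β : ℝ} (hplt : ‖(p : k)‖ < 1) (hpβ : ‖(p : k)‖ ≤ β) :
    Near p β (m : k) := by
  have h1 : ‖(m : k)‖ = 1 := norm_natCast_eq_one hm hplt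
  have h0 : (m : k) ≠ 0 := by
    rw [← norm_ne_zero_iff, h1]; exact one_ne_zero
  refine ⟨m, (m - (m : k) ^ p) / (m : k) ^ p, h0, ?_, ?_⟩
  · rw [norm_div, norm_pow, h1, one_pow, div_one, norm_sub_rev]
    exact (norm_pow_sub_self_le hp m).trans hpβ
  · field_simp
    ring

theorem near_neg {k : Type*} [NormedField k] {p : ℕ} (hodd : Odd p) {β : ℝ} {a : k}
    (h : Near p β a) : Near p β (-a) := by
  obtain ⟨c, z, hc, hz, rfl⟩ := h
  exact ⟨-c, z, neg_ne_zero.2 hc, hz, by rw [hodd.neg_pow]; ring⟩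

/-- At a place above `p` where `n ^ (r + 1) r ^ r / (r + 1) ^ (r + 1) = g ^ p (1 + p κ)`, `π ∣ κ`, the
image of `J_(r,n)(k)` consists of elements `c ^ p * (1 + z)` with `‖z‖ ^ 2 ≤ ‖π‖ ^ p`, `π = 1 - ζ`,
`α = ‖π‖`. -/
theorem image_at_p_sq {k : Type u} [NontriviallyNormedField k] [IsUltrametricDist k]
    [CompleteSpace k] [CharZero k] (p r : ℕ) (hp : p.Prime) (hr1 : 1 ≤ r) (hr2 : r + 2 ≤ p)
    (α : ℝ) (hα0 : 0 < α) (hα1 : α < 1) (hα : ‖(p : k)‖ = α ^ (p - 1))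
    {ζ₀ : k} (hζ₀ : IsPrimitiveRoot ζ₀ p)
    (n g κ : k) (hn : n ≠ 0) (hg0 : g ≠ 0) (hκ : ‖κ‖ ≤ α)
    (hg : n ^ (r + 1) * (r : k) ^ r = ((r : k) + 1) ^ (r + 1) * (g ^ p * (1 + p * κ)))
    {a : k} (h : InImage p r n a) :
    ∃ c z : k, c ≠ 0 ∧ ‖z‖ ^ 2 ≤ α ^ p ∧ a = c ^ p * (1 + z) := by
  have hodd : Odd p := hp.odd_of_ne_two (by omega)
  set β : ℝ := Real.sqrt (α ^ p) with hβ
  have hαp : 0 < α ^ p := pow_pos hα0 _
  have hβ0 : 0 < β := Real.sqrt_pos.2 hαp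
  have hsq : β ^ 2 = α ^ p := Real.sq_sqrt hαp.le
  have hβ1 : β < 1 := by
    have h1 : α ^ p < 1 := pow_lt_one₀ hα0.le hα1 (by omega)
    rw [← hsq] at h1
    by_contra hcon
    push Not at hcon
    have h2 : 1 ≤ β ^ 2 := one_le_pow₀ hcon
    linarith
  have hconv : ∀ z : k, ‖z‖ ^ 2 ≤ α ^ p ↔ ‖z‖ ≤ β := by
    intro z
    rw [← hsq]
    exact pow_le_pow_iff_left₀ (norm_nonneg _) hβ0.le (by norm_num)
  suffices hmain : Near p β a by
    obtain ⟨c, z, hc, hz, e⟩ := hmain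
    exact ⟨c, z, hc, (hconv z).2 hz, e⟩
  have hplt : ‖(p : k)‖ < 1 := by
    rw [hα]
    exact pow_lt_one₀ hα0.le hα1 (by omega)
  have hpβ : ‖(p : k)‖ ≤ β := by
    rw [← hconv, hα, ← pow_mul]
    exact pow_le_pow_of_le_one hα0.le hα1.le (by omega)
  have hnearr : Near p β (r : k) := near_nat hp (coprime_of_lt hp hr1 (by omega)) hplt hpβ
  have hnearr1 : Near p β ((r : k) + 1) := by
    have := near_nat (k := k) hp (coprime_of_lt hp (r := r + 1) (by omega) (by omega)) hplt hpβ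
    rwa [Nat.cast_add, Nat.cast_one] at this
  have hr0 : (r : k) ≠ 0 := by
    rw [Nat.cast_ne_zero]; omega
  have hr10 : (r : k) + 1 ≠ 0 := by
    have : ((r + 1 : ℕ) : k) ≠ 0 := by rw [Nat.cast_ne_zero]; omega
    rwa [Nat.cast_add, Nat.cast_one] at this
  -- the critical point
  set u₀ : k := -(r * n / (r + 1)) with hu₀
  have hu₀0 : u₀ ≠ 0 := neg_ne_zero.2 (div_ne_zero (mul_ne_zero hr0 hn) hr10)
  obtain ⟨γ, hγ⟩ : ∃ γ : k, γ = (-1) ^ r * g := ⟨_, rfl⟩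
  have hγ0 : γ ≠ 0 := by rw [hγ]; exact mul_ne_zero (pow_ne_zero _ (by simp)) hg0
  have hγp : γ ^ p = (-1) ^ r * g ^ p := by
    rw [hγ, mul_pow, ← pow_mul, mul_comm r p, pow_mul, hodd.neg_one_pow]
  have hcrit : u₀ ^ r * (n / (r + 1)) = γ ^ p * (1 + p * κ) := by
    rw [hγp, hu₀, neg_pow, div_pow, mul_pow]
    have e : n ^ (r + 1) = n ^ r * n := pow_succ n r
    have e2 : ((r : k) + 1) ^ (r + 1) = ((r : k) + 1) ^ r * (r + 1) := pow_succ _ r
    rw [e, e2] at hg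
    have h3 : ((r : k) + 1) ^ r ≠ 0 := pow_ne_zero _ hr10
    rw [mul_assoc, mul_assoc]
    congr 1
    rw [div_mul_div_comm, div_eq_iff (mul_ne_zero h3 hr10)]
    linear_combination hg
  have hnearu : Near p β u₀ := by
    refine near_of_pow hp hβ0.le hβ1 hu₀0 (d := r + 1)
      (coprime_of_lt hp (by omega) (by omega)) ?_
    have e : u₀ ^ (r + 1) = -(r : k) * (γ ^ p * (1 + p * κ)) := by
      rw [← hcrit, pow_succ, hu₀]
      ring
    rw [e]
    refine Near.mul hβ1 (near_neg hodd hnearr) ⟨γ, p * κ, hγ0, ?_, rfl⟩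
    rw [norm_mul]
    exact (mul_le_of_le_one_right (norm_nonneg _) (hκ.trans hα1.le)).trans hpβ
  have hnearn : Near p β n := by
    have e : n = -(((r : k) + 1) * (r : k)⁻¹ * u₀) := by
      rw [hu₀]; field_simp
    rw [e]
    exact near_neg hodd (Near.mul hβ1 (Near.mul hβ1 hnearr1 (Near.inv hβ1 hnearr)) hnearu)
  refine InImage.induction (P := Near p β) ?_ ?_ ?_ ?_ ?_ h
  · intro c hc
    exact near_pow_p hβ0.le hc
  · intro _
    exact hnearn
  · intro b hb0 hb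
    obtain ⟨L, i1, i2, hfd, hlt, x, y, hx, hx2, hxy, rfl⟩ := hb
    letI := i1
    letI := i2
    haveI := hfd
    set A : k →+* L := algebraMap k L with hA
    have hAu : A u₀ ≠ 0 := (map_ne_zero A).2 hu₀0
    have hAr : A (r : k) = (r : L) := map_natCast A r
    have hAr1 : (r : L) + 1 ≠ 0 := by
      have := (map_ne_zero A).2 hr10
      rwa [map_add, hAr, map_one] at this
    obtain ⟨u, hu⟩ : ∃ u : L, u = x / A u₀ := ⟨_, rfl⟩
    have hxu : x = A u₀ * u := by rw [hu]; field_simp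
    have hu0 : u ≠ 0 := by rw [hu]; exact div_ne_zero hx hAu
    have hAu₀ : A u₀ = -((r : L) * A n / (r + 1)) := by
      rw [hu₀, map_neg, map_div₀, map_mul, map_add, map_one, hAr]
    have hxn : x + A n = A n / (r + 1) * ((r + 1 : L) - r * u) := by
      rw [hxu, hAu₀]
      field_simp
      ring
    have hcritL : (A u₀) ^ r * (A n / (r + 1)) = (A γ) ^ p * (1 + p * A κ) := by
      have := congrArg A hcrit
      rwa [map_mul, map_pow, map_div₀, map_add, map_one, hAr, map_mul, map_pow, map_add, map_one,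
        map_mul, map_natCast] at this
    have hAγ : A γ ≠ 0 := (map_ne_zero A).2 hγ0
    have hequ : u ^ r * ((r + 1 : L) - r * u) * (1 + p * A κ) = (y / A γ) ^ p := by
      rw [div_pow, ← hxy, hxn, eq_div_iff (pow_ne_zero _ hAγ)]
      conv_rhs => rw [hxu]
      rw [mul_pow]
      linear_combination (-(u ^ r * ((r + 1 : L) - r * u))) * hcritL
    obtain ⟨d, hd1, hdp, hd⟩ := local_step hp hodd hr1 hr2 hα0 hα1 hα hβ0.le hsq hζ₀
      hκ hu0 hequ
    have hNu : Algebra.norm k u ≠ 0 := Algebra.norm_ne_zero_iff.2 hu0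
    have h7 : Near p β (Algebra.norm k u) :=
      near_of_pow hp hβ0.le hβ1 hNu (coprime_of_lt hp hd1 hdp) hd
    rw [hxu, map_mul, hA, Algebra.norm_algebraMap]
    exact Near.mul hβ1 (Near.pow hβ0.le hβ1 hnearu _) h7
  · intro a b _ _ ha hb
    exact Near.mul hβ1 ha hb
  · intro a _ ha
    exact Near.inv hβ1 ha

end Pool.Agent.MP009fd8F
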