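import Pool.Agent.Lib.MP_009fd8_agF.Def
import Pool.Agent.Lib.MP_009fd8_agF.Cop
import Pool.Agent.Lib.MP_009fd8_agJ.NormTools

/-!
MP_009fd8_ag, all odd p, general r: the places where n is a unit.
-/

namespace Pool.Agent.MP009fd8F

open Pool.Agent.MP009fd8J (norm_algebraNorm)

universe u

/-- At a place where `n` is a unit all elements of the image of `J_(r,n)(k)` have valuation divisible
by `p`. -/
theorem image_away {k : Type u} [NontriviallyNormedField k] [IsUltrametricDist k]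
    [CompleteSpace k] [CharZero k] (p r : ℕ) (hp : p.Prime) (hr1 : 1 ≤ r) (hr2 : r + 2 ≤ p)
    (n : k) (hn : ‖n‖ = 1)
    {a : k} (h : InImage p r n a) : ∃ c : k, c ≠ 0 ∧ ‖a‖ = ‖c‖ ^ p := by
  have hcop : Nat.Coprime r p := coprime_of_lt hp hr1 (by omega)
  have hcop1 : Nat.Coprime (r + 1) p := coprime_of_lt hp (by omega) (by omega)
  refine InImage.induction (P := fun a => ∃ c : k, c ≠ 0 ∧ ‖a‖ = ‖c‖ ^ p)
    (fun c hc => ⟨c, hc, norm_pow _ _⟩) (fun _ => ⟨1, one_ne_zero, by simp [hn]⟩) ?_ ?_ ?_ h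
  · rintro a ha ⟨L, _, _, hfd, -, x, y, hx, hxn, hxy, rfl⟩
    let _i1 : NormedField L := spectralNorm.normedField k L
    let _i2 : NormedAlgebra k L := spectralNorm.normedAlgebra k L
    have _i3 : IsUltrametricDist L :=
      IsUltrametricDist.isUltrametricDist_of_isNonarchimedean_norm isNonarchimedean_spectralNorm
    have hN : ∀ z : L, ‖Algebra.norm k z‖ = ‖z‖ ^ Module.finrank k L := fun z => norm_algebraNorm z
    have hn' : ‖algebraMap k L n‖ = 1 := by rw [norm_algebraMap', hn]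
    have hNx : Algebra.norm k x ≠ 0 := Algebra.norm_ne_zero_iff.2 hx
    have hxy' : ‖x‖ ^ r * ‖x + algebraMap k L n‖ = ‖y‖ ^ p := by
      rw [← norm_pow, ← norm_mul, hxy, norm_pow]
    rcases lt_trichotomy ‖x‖ 1 with hlt | heq | hgt
    · have h1 : ‖x + algebraMap k L n‖ = 1 := by
        rw [IsUltrametricDist.norm_add_eq_max_of_norm_ne_norm (by rw [hn']; exact hlt.ne), hn',
          max_eq_right hlt.le]
      refine exists_norm_pow_of_pow_coprime (w := Algebra.norm k y) hcop hp.ne_zero hNx ?_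
      rw [hN, hN, ← pow_mul, ← pow_mul, mul_comm _ r, mul_comm _ p, pow_mul, pow_mul, ← hxy', h1,
        mul_one]
    · exact ⟨1, one_ne_zero, by rw [hN, heq]; simp⟩
    · have h1 : ‖x + algebraMap k L n‖ = ‖x‖ := by
        rw [IsUltrametricDist.norm_add_eq_max_of_norm_ne_norm (by rw [hn']; exact hgt.ne'), hn',
          max_eq_left hgt.le]
      rw [h1, ← pow_succ] at hxy'
      refine exists_norm_pow_of_pow_coprime (w := Algebra.norm k y) hcop1 hp.ne_zero hNx ?_
      rw [hN, hN, ← pow_mul, ← pow_mul, mul_comm _ (r + 1), mul_comm _ p, pow_mul, pow_mul, ← hxy']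
  · rintro a b _ _ ⟨c, hc, h1⟩ ⟨e, he, h2⟩
    exact ⟨c * e, mul_ne_zero hc he, by rw [norm_mul, norm_mul, h1, h2, mul_pow]⟩
  · rintro a _ ⟨c, hc, h1⟩
    exact ⟨c⁻¹, inv_ne_zero hc, by rw [norm_inv, norm_inv, h1, inv_pow]⟩

end Pool.Agent.MP009fd8F
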