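import Pool.Agent.Lib.MP_009fd8_agF.Def

/-!
MP_009fd8_ag, Fermat quotients `C_(r,n) : y ^ p = x ^ r (x + n)`: the conditions on `n` and the
explicit group `G_n`. Definitions.
-/

namespace Pool.Agent.MP009fd8F

open IsDedekindDomain NumberField

universe u

/-- `a = c ^ p (1 + z)` in the completion at `v`, with `c ≠ 0` and `z ^ 2 ∈ π ^ p O_v`. -/
def NearPow (p : ℕ) {K : Type u} [Field K] [NumberField K] (π : K) (v : HeightOneSpectrum (𝓞 K))
    (a : K) : Prop :=
  ∃ c z : v.adicCompletion K, c ≠ 0 ∧ (Valued.v z) ^ 2 ≤ (v.valuation K π) ^ p ∧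
    algebraMap K (v.adicCompletion K) a = c ^ p * (1 + z)

/-- The group `G_n`, `π = 1 - ζ`: the valuation of `a` is divisible by `p` where that of `n` is; at
the other places `a` is `n ^ j` times a `p`-th power for some `j`; `a` is near a `p`-th power at the
places above `p`. It does not depend on `r`. -/
structure StrictSelmer (p : ℕ) (K : Type u) [Field K] [NumberField K] (π n a : K) : Prop where
  away : ∀ v : HeightOneSpectrum (𝓞 K), (∃ w, v.valuation K n = w ^ p) →
    ∃ w, v.valuation K a = w ^ p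
  at_n : ∀ v : HeightOneSpectrum (𝓞 K), (¬ ∃ w, v.valuation K n = w ^ p) →
    ∃ (j : ℕ) (c : v.adicCompletion K), c ≠ 0 ∧
      algebraMap K (v.adicCompletion K) a = algebraMap K (v.adicCompletion K) n ^ j * c ^ p
  at_p : ∀ v : HeightOneSpectrum (𝓞 K), v.valuation K (p : K) < 1 → NearPow p π v a

/-- The condition on `n` at a place `v` above `p`, `π = 1 - ζ`: for the value
`c = n ^ (r + 1) r ^ r / (r + 1) ^ (r + 1)` of `(-x) ^ r (x + n)` at its critical point one has
`c = g ^ p (1 + p κ)` in `K_v`, where either `π` divides `κ`, or `κ` is integral, `v(π) = 1` and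
`-2 κ / (r (r + 1))` is not a square modulo `v`. -/
def GoodAt (p r : ℕ) {K : Type u} [Field K] [NumberField K] (π n : K)
    (v : HeightOneSpectrum (𝓞 K)) : Prop :=
  ∃ g κ : v.adicCompletion K, g ≠ 0 ∧
    algebraMap K (v.adicCompletion K) n ^ (r + 1) * (r : v.adicCompletion K) ^ r =
      ((r : v.adicCompletion K) + 1) ^ (r + 1) * (g ^ p * (1 + p * κ)) ∧
    (Valued.v κ ≤ v.valuation K π ∨
      (Valued.v κ ≤ 1 ∧ v.valuation K π = WithZero.exp (-1 : ℤ) ∧
        ∀ t : v.adicCompletion K,
          ¬ Valued.v ((r : v.adicCompletion K) * (r + 1) * t ^ 2 + 2 * κ) < 1))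

/-- The class number is prime to `p`; if `B` is the set of places at which the valuation of `n` is
prime to `p`, then every unit that is near a `p`-th power at the places above `p` and a `p`-th power
at the places of `B` is a `p`-th power; and the subgroup `P` of `Kˣ` has at least `p ^ |B|` classes
modulo `p`-th powers. -/
def EnoughPoints (p : ℕ) (K : Type u) [Field K] [NumberField K] (π n : K) (P : Subgroup Kˣ) :
    Prop :=
  ¬ p ∣ NumberField.classNumber K ∧
  ∃ B : Finset (HeightOneSpectrum (𝓞 K)), (∀ v, v ∈ B ↔ ¬ ∃ w, v.valuation K n = w ^ p) ∧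
    (∀ u : (𝓞 K)ˣ, (∀ v : HeightOneSpectrum (𝓞 K), v.valuation K (p : K) < 1 →
        NearPow p π v (u : K)) →
      (∀ v ∈ B, ∃ c : v.adicCompletion K, algebraMap K (v.adicCompletion K) (u : K) = c ^ p) →
      ∃ η : (𝓞 K)ˣ, u = η ^ p) ∧
    p ^ B.card ≤ (powMonoidHom p : Kˣ →* Kˣ).range.relIndex P

end Pool.Agent.MP009fd8F
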