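import Pool.Agent.Lib.MP_009fd8_agF.Def

/-!
MP_009fd8_ag, Fermat quotients `C_(r,n) : y ^ p = x ^ r (x + n)`: the condition on `n` above `p` and
the explicit group `G_n`. Definitions.
-/

namespace Pool.Agent.MP009fd8F.Crit

open IsDedekindDomain NumberField

universe u

/-- `a = c ^ p (1 + z)` in the completion at `v`, `c ≠ 0`, and for some integer `m` the square of
`z - m τ π ^ ((p - 1) / 2)` lies in `π ^ p O_v`. For `τ = 0` this says that `a` is near a `p`-th
power; in general it is near the line spanned by `1 + τ π ^ ((p - 1) / 2)`. -/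
def Near (p : ℕ) {K : Type u} [Field K] [NumberField K] (π : K) (τ : 𝓞 K)
    (v : HeightOneSpectrum (𝓞 K)) (a : K) : Prop :=
  ∃ (c z : v.adicCompletion K) (m : ℤ), c ≠ 0 ∧
    (Valued.v (z - algebraMap K (v.adicCompletion K) (m * (τ : K) * π ^ ((p - 1) / 2)))) ^ 2 ≤
      (v.valuation K π) ^ p ∧
    algebraMap K (v.adicCompletion K) a = c ^ p * (1 + z)

/-- The group `G_n` (`π = 1 - ζ`, `τ v` as in `CritAt`): the valuation of `a` is divisible by `p`
where that of `n` is; at the other places `a` is `n ^ j` times a `p`-th power for some `j`; at the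
places above `p` it satisfies `Near`. -/
structure StrictSelmer (p : ℕ) (K : Type u) [Field K] [NumberField K] (π n : K)
    (τ : HeightOneSpectrum (𝓞 K) → 𝓞 K) (a : K) : Prop where
  away : ∀ v : HeightOneSpectrum (𝓞 K), (∃ w, v.valuation K n = w ^ p) →
    ∃ w, v.valuation K a = w ^ p
  at_n : ∀ v : HeightOneSpectrum (𝓞 K), (¬ ∃ w, v.valuation K n = w ^ p) →
    ∃ (j : ℕ) (c : v.adicCompletion K), c ≠ 0 ∧
      algebraMap K (v.adicCompletion K) a = algebraMap K (v.adicCompletion K) n ^ j * c ^ p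
  at_p : ∀ v : HeightOneSpectrum (𝓞 K), v.valuation K (p : K) < 1 → Near p π (τ v) v a

/-- The condition on `n` at a place `v` above `p`, `π = 1 - ζ`: for the value
`n ^ (r + 1) r ^ r / (r + 1) ^ (r + 1)` of `(-x) ^ r (x + n)` at its critical point is
`g ^ p (1 + p κ)` in `K_v`, where either `π` divides `κ`, or `κ` is integral and `v(π) = 1`; and in
this second case either `-2 κ / (r (r + 1))` is no square modulo `v` or it is `τ ^ 2` modulo `v`. -/
def CritAt (p r : ℕ) {K : Type u} [Field K] [NumberField K] (π n : K) (τ : 𝓞 K)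
    (v : HeightOneSpectrum (𝓞 K)) : Prop :=
  ∃ g κ : v.adicCompletion K, g ≠ 0 ∧
    algebraMap K (v.adicCompletion K) n ^ (r + 1) * (r : v.adicCompletion K) ^ r =
      ((r : v.adicCompletion K) + 1) ^ (r + 1) * (g ^ p * (1 + p * κ)) ∧
    (Valued.v κ ≤ v.valuation K π ∨
      (Valued.v κ ≤ 1 ∧ v.valuation K π = WithZero.exp (-1 : ℤ) ∧
        ((∀ t : v.adicCompletion K,
          ¬ Valued.v ((r : v.adicCompletion K) * (r + 1) * t ^ 2 + 2 * κ) < 1) ∨
        Valued.v ((r : v.adicCompletion K) * (r + 1) *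
          (algebraMap K (v.adicCompletion K) (τ : K)) ^ 2 + 2 * κ) < 1)))

/-- The class number is prime to `p`; `B` is the set of places at which the valuation of `n` is
prime to `p`; `A` contains the places with `τ v ≠ 0`; every unit that is near a `p`-th power at all
places above `p` is a `p`-th power; and the subgroup `P` of `Kˣ` has at least `p ^ (|A| + |B|)`
classes modulo `p`-th powers. -/
def EnoughPoints (p : ℕ) (K : Type u) [Field K] [NumberField K] (π n : K)
    (τ : HeightOneSpectrum (𝓞 K) → 𝓞 K) (P : Subgroup Kˣ) : Prop :=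
  ¬ p ∣ NumberField.classNumber K ∧
  ∃ A B : Finset (HeightOneSpectrum (𝓞 K)), (∀ v, v ∉ A → τ v = 0) ∧
    (∀ v, v ∈ B ↔ ¬ ∃ w, v.valuation K n = w ^ p) ∧
    (∀ u : (𝓞 K)ˣ, (∀ v : HeightOneSpectrum (𝓞 K), v.valuation K (p : K) < 1 →
        Near p π 0 v (u : K)) → ∃ η : (𝓞 K)ˣ, u = η ^ p) ∧
    p ^ (A.card + B.card) ≤ (powMonoidHom p : Kˣ →* Kˣ).range.relIndex P

end Pool.Agent.MP009fd8F.Crit
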