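import Mathlib

/-!
MP_009fd8_ag, general r: estimates for `h(X) = X ^ r * ((r + 1) - r X)` above `p`.
-/

namespace Pool.Agent.MP009fd8F

open Finset

section est

variable {L : Type*} [NormedField L] [IsUltrametricDist L]

theorem nadd (a b : L) : ‖a + b‖ ≤ max ‖a‖ ‖b‖ := IsUltrametricDist.norm_add_le_max a b

theorem nsub (a b : L) : ‖a - b‖ ≤ max ‖a‖ ‖b‖ := by
  rw [sub_eq_add_neg, ← norm_neg b]
  exact IsUltrametricDist.norm_add_le_max a (-b)

/-- Integers prime to `p` have norm one. -/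
theorem norm_natCast_eq_one {p m : ℕ} (hcop : Nat.Coprime m p) (hp : ‖(p : L)‖ < 1) :
    ‖(m : L)‖ = 1 := by
  have hb : (m : ℤ) * Nat.gcdA m p + (p : ℤ) * Nat.gcdB m p = 1 := by
    have := Nat.gcd_eq_gcd_ab m p
    rw [hcop.gcd_eq_one] at this
    exact_mod_cast this.symm
  have hb' : (m : L) * (Nat.gcdA m p : L) + (p : L) * (Nat.gcdB m p : L) = 1 := by
    have := congrArg (fun z : ℤ => (z : L)) hb
    push_cast at this
    exact this
  have h1 : ‖((Nat.gcdA m p : ℤ) : L)‖ ≤ 1 := IsUltrametricDist.norm_intCast_le_one L _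
  have h2 : ‖((Nat.gcdB m p : ℤ) : L)‖ ≤ 1 := IsUltrametricDist.norm_intCast_le_one L _
  have h3 : ‖(m : L)‖ ≤ 1 := IsUltrametricDist.norm_natCast_le_one L _
  have h4 : (1 : ℝ) ≤ max ‖(m : L) * (Nat.gcdA m p : L)‖ ‖(p : L) * (Nat.gcdB m p : L)‖ := by
    rw [← norm_one (α := L), ← hb']
    exact nadd _ _
  rw [norm_mul, norm_mul] at h4
  have h5 : ‖(p : L)‖ * ‖((Nat.gcdB m p : ℤ) : L)‖ < 1 := by
    calc ‖(p : L)‖ * ‖((Nat.gcdB m p : ℤ) : L)‖ ≤ ‖(p : L)‖ * 1 :=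
          mul_le_mul_of_nonneg_left h2 (norm_nonneg _)
      _ < 1 := by rwa [mul_one]
  rcases le_max_iff.1 h4 with h | h
  · have h6 : ‖(m : L)‖ * ‖((Nat.gcdA m p : ℤ) : L)‖ ≤ ‖(m : L)‖ * 1 :=
      mul_le_mul_of_nonneg_left h1 (norm_nonneg _)
    linarith
  · exact absurd h (not_le.2 h5)

/-- Fermat's little theorem in norm form. -/
theorem norm_pow_sub_self_le {p : ℕ} (hp : p.Prime) (m : ℕ) :
    ‖(m : L) ^ p - m‖ ≤ ‖(p : L)‖ := by
  haveI := Fact.mk hp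
  have h1 : ((m ^ p - m : ℤ) : ZMod p) = 0 := by
    push_cast
    rw [ZMod.pow_card, sub_self]
  obtain ⟨t, ht⟩ := (ZMod.intCast_zmod_eq_zero_iff_dvd (m ^ p - m) p).1 h1
  have h2 : (m : L) ^ p - m = (p : L) * (t : L) := by
    have := congrArg (fun z : ℤ => (z : L)) ht
    push_cast at this
    exact this
  rw [h2, norm_mul]
  exact mul_le_of_le_one_right (norm_nonneg _) (IsUltrametricDist.norm_intCast_le_one L t)

/-- The sum in the binomial formula. -/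
noncomputable def S (p : ℕ) (a b : L) : L :=
  ∑ k ∈ Ioo 0 p, a ^ (k - 1) * b ^ (p - k - 1) * ((p.choose k / p : ℕ) : L)

omit [IsUltrametricDist L] in
theorem add_pow_eq {p : ℕ} (hp : p.Prime) (a b : L) :
    (a + b) ^ p = a ^ p + b ^ p + (p : L) * a * b * S p a b := add_pow_prime_eq hp a b

theorem norm_S_le {p : ℕ} (hp : p.Prime) {a b : L} (ha : ‖a‖ ≤ 1) {M : ℝ} (hM : 1 ≤ M)
    (hb : ‖b‖ ≤ M) : ‖S p a b‖ ≤ M ^ (p - 2) := by
  have hM0 : 0 ≤ M := zero_le_one.trans hM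
  refine IsUltrametricDist.norm_sum_le_of_forall_le_of_nonneg (pow_nonneg hM0 _) ?_
  intro k hk
  rw [Finset.mem_Ioo] at hk
  rw [norm_mul, norm_mul, norm_pow, norm_pow]
  have h1 : ‖((p.choose k / p : ℕ) : L)‖ ≤ 1 := IsUltrametricDist.norm_natCast_le_one L _
  have h2 : ‖b‖ ^ (p - k - 1) ≤ M ^ (p - 2) :=
    (pow_le_pow_left₀ (norm_nonneg _) hb _).trans (pow_le_pow_right₀ hM (by omega))
  have h3 : ‖a‖ ^ (k - 1) ≤ 1 := pow_le_one₀ (norm_nonneg _) ha
  calc ‖a‖ ^ (k - 1) * ‖b‖ ^ (p - k - 1) * ‖((p.choose k / p : ℕ) : L)‖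
      ≤ 1 * M ^ (p - 2) * 1 := by
        refine mul_le_mul (mul_le_mul h3 h2 (pow_nonneg (norm_nonneg _) _) zero_le_one) h1
          (norm_nonneg _) ?_
        rw [one_mul]
        exact pow_nonneg hM0 _
    _ = M ^ (p - 2) := by ring

theorem norm_S_one_sub_le {p : ℕ} {a b : L} {t : ℝ} (ha : ‖a‖ ≤ t) (hb : ‖b‖ ≤ t)
    (ht : t ≤ 1) : ‖S p 1 a - S p 1 b‖ ≤ t := by
  have ht0 : 0 ≤ t := (norm_nonneg _).trans ha
  unfold S
  rw [← Finset.sum_sub_distrib]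
  refine IsUltrametricDist.norm_sum_le_of_forall_le_of_nonneg ht0 ?_
  intro k _
  rw [one_pow, one_mul, one_mul, ← sub_mul, norm_mul]
  have h1 : ‖((p.choose k / p : ℕ) : L)‖ ≤ 1 := IsUltrametricDist.norm_natCast_le_one L _
  have h2 : ‖a ^ (p - k - 1) - b ^ (p - k - 1)‖ ≤ t := by
    rcases Nat.eq_zero_or_pos (p - k - 1) with h | h
    · rw [h, pow_zero, pow_zero, sub_self, norm_zero]
      exact ht0
    · have h3 : ∀ c : L, ‖c‖ ≤ t → ‖c ^ (p - k - 1)‖ ≤ t := by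
        intro c hc
        rw [norm_pow]
        calc ‖c‖ ^ (p - k - 1) ≤ ‖c‖ ^ 1 :=
              pow_le_pow_of_le_one (norm_nonneg _) (hc.trans ht) h
          _ ≤ t := by rwa [pow_one]
      exact (nsub _ _).trans (max_le (h3 a ha) (h3 b hb))
  calc ‖a ^ (p - k - 1) - b ^ (p - k - 1)‖ * ‖((p.choose k / p : ℕ) : L)‖ ≤ t * 1 :=
        mul_le_mul h2 h1 (norm_nonneg _) ht0
    _ = t := mul_one _

/-- (E5) -/
theorem norm_one_add_pow_sub_one {p : ℕ} (hp : p.Prime) {s : L} (hs : ‖s‖ ≤ 1) :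
    ‖(1 + s) ^ p - 1‖ ≤ max (‖s‖ ^ p) (‖(p : L)‖ * ‖s‖) := by
  have e : (1 + s) ^ p - 1 = s ^ p + (p : L) * s * S p 1 s := by
    rw [add_pow_eq hp, one_pow, mul_one]
    ring
  rw [e]
  refine (nadd _ _).trans (max_le_max (by rw [norm_pow]) ?_)
  have h1 : ‖S p 1 s‖ ≤ 1 := by
    have := norm_S_le hp (a := (1 : L)) (b := s) (by rw [norm_one]) le_rfl hs
    rwa [one_pow] at this
  rw [norm_mul, norm_mul]
  exact mul_le_of_le_one_right (mul_nonneg (norm_nonneg _) (norm_nonneg _)) h1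

/-- (E1) -/
theorem norm_D_le {p : ℕ} (hp : p.Prime) (hodd : Odd p) (r : ℕ) (X : L) :
    ‖((r + 1 : L) - r * X ^ p) - ((r + 1 : L) - r * X) ^ p‖ ≤ ‖(p : L)‖ * (max 1 ‖X‖) ^ p := by
  set M := max 1 ‖X‖ with hM
  have hM1 : 1 ≤ M := le_max_left _ _
  have hXM : ‖X‖ ≤ M := le_max_right _ _
  have hM0 : 0 ≤ M := zero_le_one.trans hM1
  have hr : ‖(r : L)‖ ≤ 1 := IsUltrametricDist.norm_natCast_le_one L _
  have hr1 : ‖((r : L) + 1)‖ ≤ 1 := by
    have := IsUltrametricDist.norm_natCast_le_one L (r + 1)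
    rwa [Nat.cast_add, Nat.cast_one] at this
  have hMp : (1 : ℝ) ≤ M ^ p := one_le_pow₀ hM1
  have e : ((r + 1 : L) - r * X ^ p) - ((r + 1 : L) - r * X) ^ p =
      -((r + 1 : L) ^ p - (r + 1)) + (((r : L) ^ p - r) * X ^ p +
        (p : L) * ((r + 1 : L) * (r * X) * S p (r + 1 : L) (-(r * X)))) := by
    have h1 := add_pow_eq hp ((r : L) + 1) (-(r * X))
    have h2 : (-((r : L) * X)) ^ p = -((r : L) ^ p * X ^ p) := by
      rw [hodd.neg_pow, mul_pow]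
    rw [h2] at h1
    rw [show (r + 1 : L) - r * X = (r + 1 : L) + -(r * X) from sub_eq_add_neg _ _, h1]
    ring
  rw [e]
  refine (nadd _ _).trans (max_le ?_ ((nadd _ _).trans (max_le ?_ ?_)))
  · rw [norm_neg]
    have h1 : ‖((r : L) + 1) ^ p - (r + 1)‖ ≤ ‖(p : L)‖ := by
      have := norm_pow_sub_self_le (L := L) hp (r + 1)
      rwa [Nat.cast_add, Nat.cast_one] at this
    exact h1.trans (le_mul_of_one_le_right (norm_nonneg _) hMp)
  · rw [norm_mul, norm_pow]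
    exact mul_le_mul (norm_pow_sub_self_le hp r) (pow_le_pow_left₀ (norm_nonneg _) hXM p)
      (pow_nonneg (norm_nonneg _) _) (norm_nonneg _)
  · rw [norm_mul]
    refine mul_le_mul_of_nonneg_left ?_ (norm_nonneg _)
    have hrX : ‖(r : L) * X‖ ≤ M := by
      rw [norm_mul]
      calc ‖(r : L)‖ * ‖X‖ ≤ 1 * M := mul_le_mul hr hXM (norm_nonneg _) zero_le_one
        _ = M := one_mul _
    have hS : ‖S p (r + 1 : L) (-(r * X))‖ ≤ M ^ (p - 2) :=
      norm_S_le hp hr1 hM1 (by rw [norm_neg]; exact hrX)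
    rw [norm_mul, norm_mul]
    calc ‖((r : L) + 1)‖ * ‖(r : L) * X‖ * ‖S p (r + 1 : L) (-(r * X))‖
        ≤ 1 * M * M ^ (p - 2) := by
          refine mul_le_mul (mul_le_mul hr1 hrX (norm_nonneg _) zero_le_one) hS (norm_nonneg _) ?_
          rw [one_mul]; exact hM0
      _ = M ^ (p - 1) := by
          rw [one_mul, ← pow_succ']
          congr 1
          have := hp.two_le
          omega
      _ ≤ M ^ p := pow_le_pow_right₀ hM1 (by omega)

/-- (E2) -/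
theorem norm_D_le_sq {p : ℕ} (hp : p.Prime) (hodd : Odd p) (r : ℕ) (X : L) (hX : ‖X - 1‖ ≤ 1) :
    ‖((r + 1 : L) - r * X ^ p) - ((r + 1 : L) - r * X) ^ p‖ ≤ ‖(p : L)‖ * ‖X - 1‖ ^ 2 := by
  set A : L := X - 1 with hA
  have hXA : X = 1 + A := by rw [hA]; ring
  have hr : ‖(r : L)‖ ≤ 1 := IsUltrametricDist.norm_natCast_le_one L _
  have hrA : ‖-((r : L) * A)‖ ≤ ‖A‖ := by
    rw [norm_neg, norm_mul]
    exact mul_le_of_le_one_left (norm_nonneg _) hr
  have e : ((r + 1 : L) - r * X ^ p) - ((r + 1 : L) - r * X) ^ p =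
      ((r : L) ^ p - r) * A ^ p +
        (p : L) * (-(r * A) * (S p 1 A - S p 1 (-(r * A)))) := by
    have h1 := add_pow_eq hp (1 : L) A
    have h2 := add_pow_eq hp (1 : L) (-(r * A))
    have h3 : (-((r : L) * A)) ^ p = -((r : L) ^ p * A ^ p) := by
      rw [hodd.neg_pow, mul_pow]
    rw [h3, one_pow] at h2
    rw [one_pow] at h1
    have h4 : (r + 1 : L) - r * X = 1 + -(r * A) := by rw [hXA]; ring
    rw [h4, h2, hXA, h1]
    ring
  rw [e]
  refine (nadd _ _).trans (max_le ?_ ?_)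
  · rw [norm_mul, norm_pow]
    refine mul_le_mul (norm_pow_sub_self_le hp r) ?_ (pow_nonneg (norm_nonneg _) _) (norm_nonneg _)
    exact pow_le_pow_of_le_one (norm_nonneg _) hX hp.two_le
  · rw [norm_mul]
    refine mul_le_mul_of_nonneg_left ?_ (norm_nonneg _)
    rw [norm_mul, sq]
    exact mul_le_mul hrA (norm_S_one_sub_le le_rfl hrA hX) (norm_nonneg _) (norm_nonneg _)

/-- (E3) -/
theorem exists_root_of_unity {p : ℕ} (hp : 0 < p) {ζ₀ : L} (hζ₀ : IsPrimitiveRoot ζ₀ p) (x y : L) :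
    ∃ ζ : L, ζ ^ p = 1 ∧ ‖x - ζ * y‖ ^ p ≤ ‖x ^ p - y ^ p‖ := by
  classical
  have h1 := hζ₀.pow_sub_pow_eq_prod_sub_mul x y hp
  have hne : (Polynomial.nthRootsFinset p (1 : L)).Nonempty :=
    ⟨ζ₀, (Polynomial.mem_nthRootsFinset hp _).2 hζ₀.pow_eq_one⟩
  obtain ⟨ζ, hζ, hmin⟩ := Finset.exists_min_image _ (fun ζ : L => ‖x - ζ * y‖) hne
  refine ⟨ζ, (Polynomial.mem_nthRootsFinset hp _).1 hζ, ?_⟩
  rw [h1, norm_prod]
  calc ‖x - ζ * y‖ ^ p = ∏ _i ∈ Polynomial.nthRootsFinset p (1 : L), ‖x - ζ * y‖ := by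
        rw [Finset.prod_const, hζ₀.card_nthRootsFinset]
    _ ≤ _ := Finset.prod_le_prod (fun _ _ => norm_nonneg _) (fun i hi => hmin i hi)

/-- (E4) -/
theorem exists_small_root [IsAlgClosed L] (P : Polynomial L) (hP : P.derivative.eval 0 ≠ 0) :
    ∃ T : L, P.eval T = 0 ∧ ‖T‖ * ‖P.derivative.eval 0‖ ≤ ‖P.eval 0‖ := by
  classical
  by_cases h0 : P.eval 0 = 0
  · exact ⟨0, h0, by simp⟩
  have hP0 : P ≠ 0 := by
    rintro rfl
    simp at hP
  have h1 := (IsAlgClosed.splits P).eval_derivative_div_eval_of_ne_zero (x := 0) h0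
  by_contra hcon
  push Not at hcon
  have hpos : 0 < ‖P.derivative.eval 0‖ := norm_pos_iff.2 hP
  have hpos0 : 0 < ‖P.eval 0‖ := norm_pos_iff.2 h0
  have hbd : ∀ z ∈ P.roots, ‖1 / (0 - z)‖ < ‖P.derivative.eval 0‖ / ‖P.eval 0‖ := by
    intro z hz
    have hz1 : P.eval z = 0 := (Polynomial.mem_roots hP0).1 hz
    have hz2 := hcon z hz1
    have hz0 : 0 < ‖z‖ := by
      by_contra hc
      have : ‖z‖ = 0 := le_antisymm (not_lt.1 hc) (norm_nonneg _)
      rw [this, zero_mul] at hz2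
      exact absurd hz2 (not_lt.2 (norm_nonneg _))
    rw [zero_sub, norm_div, norm_one, norm_neg, div_lt_div_iff₀ hz0 hpos0, one_mul, mul_comm]
    exact hz2
  have hsum : ∀ s : Multiset L, (∀ z ∈ s, ‖1 / (0 - z)‖ < ‖P.derivative.eval 0‖ / ‖P.eval 0‖) →
      ‖(s.map fun z => 1 / (0 - z)).sum‖ < ‖P.derivative.eval 0‖ / ‖P.eval 0‖ := by
    intro s
    induction s using Multiset.induction_on with
    | empty =>
      intro _
      simpa using div_pos hpos hpos0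
    | cons a s ih =>
      intro h
      rw [Multiset.map_cons, Multiset.sum_cons]
      refine (nadd _ _).trans_lt (max_lt (h a (Multiset.mem_cons_self a s)) ?_)
      exact ih fun z hz => h z (Multiset.mem_cons_of_mem hz)
  have h2 := hsum P.roots hbd
  rw [← h1, norm_div] at h2
  exact lt_irrefl _ h2

end est

end Pool.Agent.MP009fd8F
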