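import Pool.Agent.Lib.MP_009fd8_agF.Main
import Pool.Agent.Lib.MP_009fd8_agF.BaseChange
import Pool.Agent.Lib.MP_009fd8_agJ.ClassP

/-!
MP_009fd8_ag, Fermat quotients: the Selmer group of `1 - ζ` is the image of `J_(r,n)(K)`.
-/

namespace Pool.Agent.MP009fd8F

open IsDedekindDomain NumberField
open Pool.Agent.MP009fd8J (valued_algebraMap exists_unit_mul_pow)

universe u

theorem Selmer.mul {p r : ℕ} {K : Type u} [Field K] [NumberField K] {n a b : K}
    (ha : Selmer p r K n a) (hb : Selmer p r K n b) : Selmer p r K n (a * b) := by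
  intro v
  rw [map_mul]
  exact (ha v).mul (hb v)

theorem Selmer.inv {p r : ℕ} {K : Type u} [Field K] [NumberField K] {n a : K}
    (ha : Selmer p r K n a) : Selmer p r K n a⁻¹ := by
  intro v
  rw [map_inv₀]
  exact (ha v).inv

theorem Selmer.pow_mul {p r : ℕ} {K : Type u} [Field K] [NumberField K] {n c : K}
    (hn : n ≠ 0) (hc : c ≠ 0) (j : ℕ) : Selmer p r K n (n ^ j * c ^ p) := by
  intro v
  rw [map_mul, map_pow, map_pow]
  exact InImage.pow_mul (by rwa [Ne, map_eq_zero]) (by rwa [Ne, map_eq_zero]) j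

theorem InImage.selmer {p r : ℕ} {K : Type u} [Field K] [NumberField K] {n a : K}
    (h : InImage p r n a) : Selmer p r K n a := fun _ => h.map

/-- The Selmer group as a subgroup of `Kˣ`. -/
def selmerGroup (p r : ℕ) (K : Type u) [Field K] [NumberField K] (n : Kˣ) : Subgroup Kˣ where
  carrier := {a : Kˣ | Selmer p r K (n : K) (a : K)}
  mul_mem' {a b} ha hb := by
    change Selmer p r K (n : K) ((a * b : Kˣ) : K)
    rw [Units.val_mul]
    exact Selmer.mul ha hb
  one_mem' := by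
    change Selmer p r K (n : K) ((1 : Kˣ) : K)
    have := Selmer.pow_mul (p := p) (r := r) n.ne_zero (one_ne_zero (α := K)) 0
    simpa using this
  inv_mem' {a} ha := by
    change Selmer p r K (n : K) ((a⁻¹ : Kˣ) : K)
    rw [Units.val_inv_eq_inv_val]
    exact Selmer.inv ha

theorem mem_selmerGroup {p r : ℕ} {K : Type u} [Field K] [NumberField K] {n a : Kˣ} :
    a ∈ selmerGroup p r K n ↔ Selmer p r K (n : K) (a : K) := Iff.rfl

/-- The valuation at `v` modulo `p`, as a homomorphism. -/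
noncomputable def ordMod (p : ℕ) {K : Type u} [Field K] [NumberField K]
    (v : HeightOneSpectrum (𝓞 K)) : Kˣ →* Multiplicative (ZMod p) where
  toFun a := Multiplicative.ofAdd ((WithZero.log (v.valuation K (a : K)) : ℤ) : ZMod p)
  map_one' := by simp
  map_mul' a b := by
    have ha : v.valuation K (a : K) ≠ 0 := (Valuation.ne_zero_iff _).2 a.ne_zero
    have hb : v.valuation K (b : K) ≠ 0 := (Valuation.ne_zero_iff _).2 b.ne_zero
    rw [Units.val_mul, map_mul, WithZero.log_mul ha hb, Int.cast_add, ofAdd_add]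

theorem ordMod_eq_one_iff {p : ℕ} {K : Type u} [Field K] [NumberField K]
    (v : HeightOneSpectrum (𝓞 K)) (a : Kˣ) :
    ordMod p v a = 1 ↔ ∃ w, v.valuation K (a : K) = w ^ p := by
  have ha : v.valuation K (a : K) ≠ 0 := (Valuation.ne_zero_iff _).2 a.ne_zero
  have h1 : ordMod p v a = 1 ↔ (p : ℤ) ∣ WithZero.log (v.valuation K (a : K)) := by
    rw [← ZMod.intCast_zmod_eq_zero_iff_dvd]
    exact ofAdd_eq_one
  rw [h1]
  constructor
  · rintro ⟨t, ht⟩
    refine ⟨WithZero.exp t, ?_⟩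
    rw [← WithZero.exp_log ha, ht, ← WithZero.exp_nsmul, nsmul_eq_mul]
  · rintro ⟨w, hw⟩
    rw [hw, WithZero.log_pow, nsmul_eq_mul]
    exact dvd_mul_right _ _

/-- An element of the Selmer group whose valuations at the bad places are divisible by `p` is a
`p`-th power. -/
theorem eq_pow_of_selmer {p r : ℕ} (hp : p.Prime) (hr1 : 1 ≤ r) (hr2 : r + 2 ≤ p)
    {K : Type u} [Field K] [NumberField K]
    {ζ : K} (hζ : IsPrimitiveRoot ζ p) (n : K) (hn0 : n ≠ 0)
    (hnp : ∀ v : HeightOneSpectrum (𝓞 K), v.valuation K (p : K) < 1 → GoodAt p r (1 - ζ) n v)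
    (hcl : ¬ p ∣ NumberField.classNumber K)
    (hU : ∀ u : (𝓞 K)ˣ, (∀ v : HeightOneSpectrum (𝓞 K), v.valuation K (p : K) < 1 →
        NearPow p (1 - ζ) v (u : K)) →
      (∀ v : HeightOneSpectrum (𝓞 K), (¬ ∃ w, v.valuation K n = w ^ p) →
        ∃ c : v.adicCompletion K, algebraMap K (v.adicCompletion K) (u : K) = c ^ p) →
      ∃ η : (𝓞 K)ˣ, u = η ^ p) {a : K} (ha : Selmer p r K n a)
    (hv : ∀ v : HeightOneSpectrum (𝓞 K), (¬ ∃ w, v.valuation K n = w ^ p) →
      ∃ w, v.valuation K a = w ^ p) : ∃ c : K, c ≠ 0 ∧ a = c ^ p := by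
  have hG := selmer_strict hp hr1 hr2 hζ n hn0 hnp ha
  have ha0 : a ≠ 0 := by
    rintro rfl
    by_cases h : Nonempty (HeightOneSpectrum (𝓞 K))
    · obtain ⟨v⟩ := h
      exact (ha v).ne_zero (map_zero _)
    · -- there is a place: a number field has a maximal ideal above `p`
      exfalso
      apply h
      obtain ⟨M, hM, hpM⟩ := Ideal.exists_le_maximal (Ideal.span {((p : ℕ) : 𝓞 K)}) (by
        intro htop
        rw [Ideal.span_singleton_eq_top] at htop
        have h2 : IsUnit ((p : ℕ) : ℤ) := by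
          have h3 : IsUnit (Algebra.norm ℤ ((p : ℕ) : 𝓞 K)) := htop.map _
          have h4 : Algebra.norm ℤ ((p : ℕ) : 𝓞 K) = ((p : ℕ) : ℤ) ^ Module.finrank ℤ (𝓞 K) := by
            have := Algebra.norm_algebraMap_of_basis (R := ℤ) (RingOfIntegers.basis K) ((p : ℕ) : ℤ)
            rw [Module.finrank_eq_card_basis (RingOfIntegers.basis K)]
            simpa using this
          rw [h4] at h3
          exact (isUnit_pow_iff Module.finrank_pos.ne').1 h3
        rw [Int.ofNat_isUnit, Nat.isUnit_iff] at h2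
        exact hp.one_lt.ne' h2)
      refine ⟨⟨M, hM.isPrime, ?_⟩⟩
      rintro rfl
      have h5 : ((p : ℕ) : 𝓞 K) ∈ (⊥ : Ideal (𝓞 K)) := hpM (Ideal.mem_span_singleton_self _)
      rw [Ideal.mem_bot, Nat.cast_eq_zero] at h5
      exact hp.ne_zero h5
  -- local p-th power at the bad places
  have hloc : ∀ v : HeightOneSpectrum (𝓞 K), (¬ ∃ w, v.valuation K n = w ^ p) →
      ∃ c : v.adicCompletion K, algebraMap K (v.adicCompletion K) a = c ^ p := by
    intro v hvn
    obtain ⟨j, c, hc0, hc⟩ := hG.at_n v hvn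
    obtain ⟨w, hw⟩ := hv v hvn
    have hpj : p ∣ j := by
      by_contra hnd
      have hj0 : 0 < j % p := Nat.pos_of_ne_zero fun h0 => hnd (Nat.dvd_of_mod_eq_zero h0)
      have hx : v.valuation K n ≠ 0 := (Valuation.ne_zero_iff _).2 hn0
      have hvc : Valued.v c ≠ 0 := (Valuation.ne_zero_iff _).2 hc0
      refine not_pow_of_not_pow hp hx hvn (j % p) hj0 (Nat.mod_lt _ hp.pos)
        (w / (Valued.v c * (v.valuation K n) ^ (j / p))) ?_
      have h1 := congrArg Valued.v hc
      rw [valued_algebraMap, map_mul, map_pow, map_pow, valued_algebraMap, hw] at h1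
      have h2 : (v.valuation K n) ^ j =
          (v.valuation K n) ^ (j % p) * ((v.valuation K n) ^ (j / p)) ^ p := by
        rw [← pow_mul, ← pow_add, mul_comm (j / p) p, Nat.mod_add_div]
      rw [h2] at h1
      have h3 : (Valued.v c * (v.valuation K n) ^ (j / p)) ^ p ≠ 0 :=
        pow_ne_zero _ (mul_ne_zero hvc (pow_ne_zero _ hx))
      rw [div_pow, h1, eq_div_iff h3, mul_pow, mul_comm (Valued.v c ^ p), mul_assoc]
    obtain ⟨i, rfl⟩ := hpj
    exact ⟨algebraMap K (v.adicCompletion K) n ^ i * c, by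
      rw [hc, mul_pow, ← pow_mul, mul_comm i p]⟩
  obtain ⟨u, s, hs0, hus⟩ := exists_unit_mul_pow p hp hcl a ha0 (by
    intro v
    by_cases hvn : ∃ w, v.valuation K n = w ^ p
    · exact hG.away v hvn
    · exact hv v hvn)
  have hsp : s ^ p ≠ 0 := pow_ne_zero _ hs0
  have hu : (u : K) = a * (s ^ p)⁻¹ := by
    rw [hus]
    field_simp
  have hSs : Selmer p r K n (s ^ p) := by
    have := Selmer.pow_mul (p := p) (r := r) hn0 hs0 0
    simpa using this
  have hSu : Selmer p r K n (u : K) := by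
    rw [hu]; exact ha.mul hSs.inv
  have hGu := selmer_strict hp hr1 hr2 hζ n hn0 hnp hSu
  obtain ⟨η, hη⟩ := hU u hGu.at_p (by
    intro v hvn
    obtain ⟨c, hc⟩ := hloc v hvn
    refine ⟨c / algebraMap K (v.adicCompletion K) s, ?_⟩
    rw [hu, map_mul, hc, map_inv₀, map_pow, div_pow, div_eq_mul_inv])
  refine ⟨(η : K) * s, mul_ne_zero (by simp) hs0, ?_⟩
  have e1 : (u : K) = (η : K) ^ p := by
    rw [hη]; push_cast; rfl
  rw [hus, mul_pow]
  congr 1

/-- If there are enough points, the Selmer group is contained in `P`. -/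
theorem mem_of_selmer_of_enoughPoints {p r : ℕ} (hp : p.Prime) (hr1 : 1 ≤ r) (hr2 : r + 2 ≤ p)
    {K : Type u} [Field K] [NumberField K]
    {ζ : K} (hζ : IsPrimitiveRoot ζ p) (n : Kˣ)
    (hnp : ∀ v : HeightOneSpectrum (𝓞 K), v.valuation K (p : K) < 1 →
      GoodAt p r (1 - ζ) (n : K) v)
    (P : Subgroup Kˣ) (hPp : ∀ c : Kˣ, c ^ p ∈ P)
    (hPJ : ∀ a ∈ P, InImage p r (n : K) (a : K))
    (h : EnoughPoints p K (1 - ζ) (n : K) P) {a : Kˣ} (ha : Selmer p r K (n : K) (a : K)) :
    a ∈ P := by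
  classical
  obtain ⟨hcl, B, hB, hU, hcard⟩ := h
  set Q : Subgroup Kˣ := (powMonoidHom p : Kˣ →* Kˣ).range with hQ
  set S : Subgroup Kˣ := selmerGroup p r K n with hS
  have hQP : Q ≤ P := by
    rintro _ ⟨c, rfl⟩
    exact hPp c
  have hPS : P ≤ S := fun b hb => (hPJ b hb).selmer
  -- the valuations at the bad places
  haveI : Fact p.Prime := ⟨hp⟩
  let φ : S →* (B → Multiplicative (ZMod p)) :=
    MonoidHom.pi fun v => (ordMod p (v : HeightOneSpectrum (𝓞 K))).comp S.subtype
  have hker : φ.ker ≤ Q.subgroupOf S := by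
    intro b hb
    rw [MonoidHom.mem_ker] at hb
    rw [Subgroup.mem_subgroupOf]
    have hb' : Selmer p r K (n : K) ((b : Kˣ) : K) := b.2
    obtain ⟨c, hc0, hc⟩ := eq_pow_of_selmer hp hr1 hr2 hζ (n : K) n.ne_zero hnp hcl
      (fun u h1 h2 => hU u h1 fun v hv => h2 v ((hB v).1 hv)) hb' (by
        intro v hv
        have hvB : v ∈ B := (hB v).2 hv
        have h3 := congrFun hb ⟨v, hvB⟩
        exact (ordMod_eq_one_iff v (b : Kˣ)).1 h3)
    exact ⟨Units.mk0 c hc0, by
      ext
      rw [powMonoidHom_apply, Units.val_pow_eq_pow_val, Units.val_mk0, hc]⟩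
  have h1 : Q.relIndex S ∣ Nat.card φ.range := by
    rw [← Subgroup.index_ker]
    exact Subgroup.index_dvd_of_le hker
  have h2 : Nat.card φ.range ≤ p ^ B.card := by
    have h3 : Nat.card (B → Multiplicative (ZMod p)) = p ^ B.card := by
      rw [Nat.card_eq_fintype_card, Fintype.card_fun, Fintype.card_coe]
      have h0 : Fintype.card (Multiplicative (ZMod p)) = p :=
        (Fintype.card_multiplicative _).trans (ZMod.card p)
      rw [h0]
    rw [← h3]
    exact Nat.card_le_card_of_injective _ Subtype.val_injective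
  have h3 : 0 < Nat.card φ.range := Nat.card_pos
  have h4 : Q.relIndex S ≤ p ^ B.card := (Nat.le_of_dvd h3 h1).trans h2
  have h5 : Q.relIndex P * P.relIndex S = Q.relIndex S := Subgroup.relIndex_mul_relIndex Q P S hQP hPS
  have h6 : 0 < Q.relIndex S := Nat.pos_of_dvd_of_pos h1 h3
  have h7 : P.relIndex S = 1 := by
    have h8 : 0 < P.relIndex S := by
      rcases Nat.eq_zero_or_pos (P.relIndex S) with h | h
      · rw [h, mul_zero] at h5
        omega
      · exact h
    by_contra hne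
    have h9 : 2 ≤ P.relIndex S := by omega
    have h10 : 0 < p ^ B.card := pow_pos hp.pos _
    nlinarith
  exact (Subgroup.relIndex_eq_one.1 h7) ha

/-- **Main theorem.** Let `P` be a subgroup of `Kˣ` containing the `p`-th powers, all of whose
elements lie in the image of `J_(r,n)(K)`. If there are enough points (`EnoughPoints`) or `G_n`
is contained in `P`, then the Selmer group of `1 - ζ`, the image of `J_(r,n)(K)` and `P` coincide. -/
theorem selmer_eq_image {p r : ℕ} (hp : p.Prime) (hr1 : 1 ≤ r) (hr2 : r + 2 ≤ p)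
    {K : Type u} [Field K] [NumberField K]
    {ζ : K} (hζ : IsPrimitiveRoot ζ p) (n : Kˣ)
    (hnp : ∀ v : HeightOneSpectrum (𝓞 K), v.valuation K (p : K) < 1 →
      GoodAt p r (1 - ζ) (n : K) v)
    (P : Subgroup Kˣ) (hPp : ∀ c : Kˣ, c ^ p ∈ P)
    (hPJ : ∀ a ∈ P, InImage p r (n : K) (a : K))
    (h : EnoughPoints p K (1 - ζ) (n : K) P ∨
      ∀ a : Kˣ, StrictSelmer p K (1 - ζ) (n : K) (a : K) → a ∈ P) (a : Kˣ) :
    (Selmer p r K (n : K) (a : K) ↔ a ∈ P) ∧ (InImage p r (n : K) (a : K) ↔ a ∈ P) := by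
  have key : Selmer p r K (n : K) (a : K) → a ∈ P := by
    intro ha
    rcases h with h | h
    · exact mem_of_selmer_of_enoughPoints hp hr1 hr2 hζ n hnp P hPp hPJ h ha
    · exact h a (selmer_strict hp hr1 hr2 hζ (n : K) n.ne_zero hnp ha)
  exact ⟨⟨key, fun h1 => (hPJ a h1).selmer⟩, ⟨fun h1 => key h1.selmer, hPJ a⟩⟩

end Pool.Agent.MP009fd8F
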