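import Pool.Agent.Lib.MP_009fd8_agF.MainL
import Pool.Agent.Lib.MP_009fd8_agF.Final

/-!
MP_009fd8_ag, Fermat quotients: the Selmer group of `1 - ζ` is the image of `J_(r,n)(K)`, all
critical values that are `p`-th powers modulo `p`.
-/

namespace Pool.Agent.MP009fd8F.Crit

open IsDedekindDomain NumberField
open Pool.Agent.MP009fd8J (valued_algebraMap exists_unit_mul_pow norm_one_add_eq_one
  norm_le_iff_valued)
open Pool.Agent.MP009fd8F (above_p selmerGroup mem_selmerGroup ordMod ordMod_eq_one_iff nadd nsub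
  InImage.selmer norm_le_one_iff)

universe u

theorem Near.norm {p : ℕ} {K : Type u} [Field K] [NumberField K] {π : K} {τ : 𝓞 K}
    {v : HeightOneSpectrum (𝓞 K)} {a : K} (h : Near p π τ v a) :
    ∃ (c z : v.adicCompletion K) (m : ℤ), c ≠ 0 ∧
      ‖z - algebraMap K (v.adicCompletion K) (m * (τ : K) * π ^ ((p - 1) / 2))‖ ^ 2 ≤
        ‖algebraMap K (v.adicCompletion K) π‖ ^ p ∧
      algebraMap K (v.adicCompletion K) a = c ^ p * (1 + z) := by
  obtain ⟨c, z, m, hc, hz, e⟩ := h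
  refine ⟨c, z, m, hc, ?_, e⟩
  rw [← norm_pow, ← norm_pow, norm_le_iff_valued, map_pow, map_pow, valued_algebraMap]
  exact hz

section quot

variable {p : ℕ} {K : Type u} [Field K] [NumberField K] {v : HeightOneSpectrum (𝓞 K)}

/-- The quotient of two elements near the same point of the line is near a `p`-th power. -/
theorem near_div (hp : p.Prime) (hodd : Odd p) {ζ : K} (hζ : IsPrimitiveRoot ζ p)
    (hv : v.valuation K (p : K) < 1) {τ : 𝓞 K} {a b : K}
    {c z c' z' : v.adicCompletion K} {m m' : ℤ} (hc : c ≠ 0)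
    (hz : ‖z - algebraMap K (v.adicCompletion K) (m * (τ : K) * (1 - ζ) ^ ((p - 1) / 2))‖ ^ 2 ≤
      ‖algebraMap K (v.adicCompletion K) (1 - ζ)‖ ^ p)
    (e : algebraMap K (v.adicCompletion K) a = c ^ p * (1 + z)) (hc' : c' ≠ 0)
    (hz' : ‖z' - algebraMap K (v.adicCompletion K) (m' * (τ : K) * (1 - ζ) ^ ((p - 1) / 2))‖ ^ 2 ≤
      ‖algebraMap K (v.adicCompletion K) (1 - ζ)‖ ^ p)
    (e' : algebraMap K (v.adicCompletion K) b = c' ^ p * (1 + z'))
    (hm : τ = 0 ∨ (p : ℤ) ∣ m - m') : Near p (1 - ζ) 0 v (a * b⁻¹) := by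
  obtain ⟨hα0, hα1, hα⟩ := above_p v hp hζ hv
  set A : K →+* v.adicCompletion K := algebraMap K (v.adicCompletion K) with hA
  set π : v.adicCompletion K := A (1 - ζ) with hπ
  have hp3 : 3 ≤ p := by
    obtain ⟨q, hq⟩ := hodd
    have := hp.two_le
    omega
  have hτ : ‖A (τ : K)‖ ≤ 1 := by
    rw [norm_le_one_iff, hA, valued_algebraMap]
    exact v.valuation_le_one τ
  have hint : ∀ i : ℤ, ‖(i : v.adicCompletion K)‖ ≤ 1 := fun i =>
    IsUltrametricDist.norm_intCast_le_one _ i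
  have hε : ∀ i : ℤ, A (i * (τ : K) * (1 - ζ) ^ ((p - 1) / 2)) =
      (i : v.adicCompletion K) * A (τ : K) * π ^ ((p - 1) / 2) := by
    intro i
    rw [map_mul, map_mul, map_intCast, map_pow]
  rw [hε] at hz hz'
  have hq1 : 1 ≤ (p - 1) / 2 := by omega
  have hπq : ‖π‖ ^ ((p - 1) / 2) < 1 := pow_lt_one₀ hα0.le hα1 (by omega)
  have hsmall : ∀ x : v.adicCompletion K, ‖x‖ ^ 2 ≤ ‖π‖ ^ p → ‖x‖ < 1 := by
    intro x hx
    have h1 : ‖π‖ ^ p < 1 := pow_lt_one₀ hα0.le hα1 hp.ne_zero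
    exact (sq_lt_one_iff₀ (norm_nonneg _)).1 (hx.trans_lt h1)
  have hline : ∀ i : ℤ, ‖(i : v.adicCompletion K) * A (τ : K) * π ^ ((p - 1) / 2)‖ < 1 := by
    intro i
    rw [norm_mul, norm_mul, norm_pow]
    calc ‖(i : v.adicCompletion K)‖ * ‖A (τ : K)‖ * ‖π‖ ^ ((p - 1) / 2)
        ≤ 1 * 1 * ‖π‖ ^ ((p - 1) / 2) := by
          refine mul_le_mul_of_nonneg_right ?_ (pow_nonneg hα0.le _)
          exact mul_le_mul (hint i) hτ (norm_nonneg _) zero_le_one
      _ < 1 := by rw [one_mul, one_mul]; exact hπq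
  have hz1 : ‖z'‖ < 1 := by
    have e1 : z' = (z' - m' * A (τ : K) * π ^ ((p - 1) / 2)) + m' * A (τ : K) * π ^ ((p - 1) / 2) := by
      ring
    rw [e1]
    exact (nadd _ _).trans_lt (max_lt (hsmall _ hz') (hline m'))
  have h1z : ‖1 + z'‖ = 1 := norm_one_add_eq_one hz1
  have h1z0 : 1 + z' ≠ 0 := by
    rw [← norm_ne_zero_iff, h1z]; exact one_ne_zero
  have hdiff : ‖z - z'‖ ^ 2 ≤ ‖π‖ ^ p := by
    have hle : ‖((m - m' : ℤ) : v.adicCompletion K) * A (τ : K) * π ^ ((p - 1) / 2)‖ ^ 2 ≤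
        ‖π‖ ^ p := by
      rcases hm with hm | ⟨t, ht⟩
      · rw [hm]
        simp only [map_zero, mul_zero, zero_mul, norm_zero]
        rw [zero_pow two_ne_zero]
        exact pow_nonneg hα0.le _
      · rw [ht, Int.cast_mul, norm_mul, norm_mul, norm_mul, norm_pow, Int.cast_natCast, hα]
        calc (‖π‖ ^ (p - 1) * ‖(t : v.adicCompletion K)‖ * ‖A (τ : K)‖ *
              ‖π‖ ^ ((p - 1) / 2)) ^ 2
            ≤ (‖π‖ ^ (p - 1) * 1 * 1 * 1) ^ 2 := by
              refine pow_le_pow_left₀ (by positivity) ?_ 2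
              gcongr
              exact hint t
          _ = ‖π‖ ^ ((p - 1) * 2) := by rw [mul_one, mul_one, mul_one, ← pow_mul]
          _ ≤ ‖π‖ ^ p := pow_le_pow_of_le_one hα0.le hα1.le (by omega)
    have e2 : z - z' = (z - m * A (τ : K) * π ^ ((p - 1) / 2)) -
        (z' - m' * A (τ : K) * π ^ ((p - 1) / 2)) +
        ((m - m' : ℤ) : v.adicCompletion K) * A (τ : K) * π ^ ((p - 1) / 2) := by
      push_cast
      ring
    have h5 : ‖z - z'‖ ≤ max (max ‖z - m * A (τ : K) * π ^ ((p - 1) / 2)‖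
        ‖z' - m' * A (τ : K) * π ^ ((p - 1) / 2)‖)
        ‖((m - m' : ℤ) : v.adicCompletion K) * A (τ : K) * π ^ ((p - 1) / 2)‖ := by
      conv_lhs => rw [e2]
      exact (nadd _ _).trans (max_le_max (nsub _ _) le_rfl)
    have h6 : ∀ x y : ℝ, 0 ≤ x → 0 ≤ y → x ^ 2 ≤ ‖π‖ ^ p → y ^ 2 ≤ ‖π‖ ^ p →
        (max x y) ^ 2 ≤ ‖π‖ ^ p := by
      intro x y _ _ hx hy
      rcases max_cases x y with ⟨h, _⟩ | ⟨h, _⟩
      · rw [h]; exact hx
      · rw [h]; exact hy
    refine (pow_le_pow_left₀ (norm_nonneg _) h5 2).trans ?_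
    exact h6 _ _ (le_max_of_le_left (norm_nonneg _)) (norm_nonneg _)
      (h6 _ _ (norm_nonneg _) (norm_nonneg _) hz hz') hle
  refine near_of_norm (c * c'⁻¹) ((z - z') * (1 + z')⁻¹) 0 (mul_ne_zero hc (inv_ne_zero hc')) ?_ ?_
  · rw [show (((0 : ℤ) : K) * ((0 : 𝓞 K) : K) * (1 - ζ) ^ ((p - 1) / 2)) = 0 by simp, map_zero,
      sub_zero, norm_mul, norm_inv, h1z, inv_one, mul_one]
    exact hdiff
  · have e3 : 1 + (z - z') * (1 + z')⁻¹ = (1 + z) * (1 + z')⁻¹ := by
      field_simp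
      ring
    rw [← hA, map_mul, map_inv₀, e, e', e3, mul_pow, inv_pow, mul_inv]
    ring

end quot

/-- A non-zero element all of whose valuations are divisible by `p` and which is near a `p`-th power
at the places above `p` is a `p`-th power. -/
theorem eq_pow_of_near {p : ℕ} (hp : p.Prime) {K : Type u} [Field K] [NumberField K] {π : K}
    (hcl : ¬ p ∣ NumberField.classNumber K)
    (hU : ∀ u : (𝓞 K)ˣ, (∀ v : HeightOneSpectrum (𝓞 K), v.valuation K (p : K) < 1 →
        Near p π 0 v (u : K)) → ∃ η : (𝓞 K)ˣ, u = η ^ p) {d : K} (hd : d ≠ 0)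
    (hval : ∀ v : HeightOneSpectrum (𝓞 K), ∃ w, v.valuation K d = w ^ p)
    (hnear : ∀ v : HeightOneSpectrum (𝓞 K), v.valuation K (p : K) < 1 → Near p π 0 v d) :
    ∃ c : K, c ≠ 0 ∧ d = c ^ p := by
  obtain ⟨u, s, hs0, hus⟩ := exists_unit_mul_pow p hp hcl d hd hval
  have hsp : s ^ p ≠ 0 := pow_ne_zero _ hs0
  have hu : (u : K) = d * (s ^ p)⁻¹ := by
    rw [hus]
    field_simp
  obtain ⟨η, hη⟩ := hU u (by
    intro v hv
    obtain ⟨c, z, m, hc, hz, e⟩ := hnear v hv
    refine ⟨c * (algebraMap K (v.adicCompletion K) s)⁻¹, z, m,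
      mul_ne_zero hc (inv_ne_zero (by rwa [Ne, map_eq_zero])), hz, ?_⟩
    rw [hu, map_mul, e, map_inv₀, map_pow, mul_pow, inv_pow]
    ring)
  refine ⟨(η : K) * s, mul_ne_zero (by simp) hs0, ?_⟩
  have e1 : (u : K) = (η : K) ^ p := by
    rw [hη]; push_cast; rfl
  rw [hus, mul_pow]
  congr 1

/-- If there are enough points, the Selmer group is contained in `P`. -/
theorem mem_of_selmer_of_enoughPoints {p r : ℕ} (hp : p.Prime) (hr1 : 1 ≤ r) (hr2 : r + 2 ≤ p)
    {K : Type u} [Field K] [NumberField K]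
    {ζ : K} (hζ : IsPrimitiveRoot ζ p) (n : Kˣ) (τ : HeightOneSpectrum (𝓞 K) → 𝓞 K)
    (hnp : ∀ v : HeightOneSpectrum (𝓞 K), v.valuation K (p : K) < 1 →
      CritAt p r (1 - ζ) (n : K) (τ v) v)
    (P : Subgroup Kˣ) (hPp : ∀ c : Kˣ, c ^ p ∈ P)
    (hPJ : ∀ a ∈ P, InImage p r (n : K) (a : K))
    (h : EnoughPoints p K (1 - ζ) (n : K) τ P) {a : Kˣ} (ha : Selmer p r K (n : K) (a : K)) :
    a ∈ P := by
  classical
  have hodd : Odd p := hp.odd_of_ne_two (by omega)
  obtain ⟨hcl, A, B, hA, hB, hU, hcard⟩ := h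
  set Q : Subgroup Kˣ := (powMonoidHom p : Kˣ →* Kˣ).range with hQ
  set S : Subgroup Kˣ := selmerGroup p r K n with hS
  have hQP : Q ≤ P := by
    rintro _ ⟨c, rfl⟩
    exact hPp c
  have hPS : P ≤ S := fun b hb => (hPJ b hb).selmer
  haveI : Fact p.Prime := ⟨hp⟩
  have hstrict : ∀ b : S, StrictSelmer p K (1 - ζ) (n : K) τ ((b : Kˣ) : K) := fun b =>
    selmer_strict hp hr1 hr2 hζ (n : K) n.ne_zero τ hnp b.2
  -- the integers `m` at the places above `p`
  have hex : ∀ (b : S) (v : HeightOneSpectrum (𝓞 K)), ∃ m : ℤ, v.valuation K (p : K) < 1 →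
      ∃ c z : v.adicCompletion K, c ≠ 0 ∧
        ‖z - algebraMap K (v.adicCompletion K) (m * (τ v : K) * (1 - ζ) ^ ((p - 1) / 2))‖ ^ 2 ≤
          ‖algebraMap K (v.adicCompletion K) (1 - ζ)‖ ^ p ∧
        algebraMap K (v.adicCompletion K) ((b : Kˣ) : K) = c ^ p * (1 + z) := by
    intro b v
    by_cases hv : v.valuation K (p : K) < 1
    · obtain ⟨c, z, m, h1, h2, h3⟩ := ((hstrict b).at_p v hv).norm
      exact ⟨m, fun _ => ⟨c, z, h1, h2, h3⟩⟩
    · exact ⟨0, fun h => absurd h hv⟩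
  choose M hM using hex
  let F : S ⧸ Q.subgroupOf S → (B → Multiplicative (ZMod p)) × (A → ZMod p) := fun x =>
    (fun v => ordMod p (v : HeightOneSpectrum (𝓞 K)) ((Quotient.out x : S) : Kˣ),
      fun v => (M (Quotient.out x : S) v : ZMod p))
  have hF : Function.Injective F := by
    intro x y hxy
    set b : S := (Quotient.out x : S) with hb
    set b' : S := (Quotient.out y : S) with hb'
    have hxy1 : ∀ v : B, ordMod p (v : HeightOneSpectrum (𝓞 K)) (b : Kˣ) =
        ordMod p (v : HeightOneSpectrum (𝓞 K)) (b' : Kˣ) := fun v =>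
      congrFun (congrArg Prod.fst hxy) v
    have hxy2 : ∀ v : A, (M b v : ZMod p) = (M b' v : ZMod p) := fun v =>
      congrFun (congrArg Prod.snd hxy) v
    have hmem : b * b'⁻¹ ∈ Q.subgroupOf S := by
      rw [Subgroup.mem_subgroupOf]
      have hval : ∀ v : HeightOneSpectrum (𝓞 K),
          ∃ w, v.valuation K (((b : Kˣ) : K) * ((b' : Kˣ) : K)⁻¹) = w ^ p := by
        intro v
        by_cases hvB : v ∈ B
        · have h1 := hxy1 ⟨v, hvB⟩
          have h2 : ordMod p v ((b : Kˣ) * (b' : Kˣ)⁻¹) = 1 := by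
            rw [map_mul, map_inv, h1, mul_inv_cancel]
          have h3 := (ordMod_eq_one_iff v ((b : Kˣ) * (b' : Kˣ)⁻¹)).1 h2
          rw [Units.val_mul, Units.val_inv_eq_inv_val] at h3
          exact h3
        · have hvn : ∃ w, v.valuation K (n : K) = w ^ p := by
            by_contra hcon
            exact hvB ((hB v).2 hcon)
          obtain ⟨w, hw⟩ := (hstrict b).away v hvn
          obtain ⟨w', hw'⟩ := (hstrict b').away v hvn
          exact ⟨w * w'⁻¹, by rw [map_mul, map_inv₀, hw, hw', mul_pow, inv_pow]⟩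
      have hnear : ∀ v : HeightOneSpectrum (𝓞 K), v.valuation K (p : K) < 1 →
          Near p (1 - ζ) 0 v (((b : Kˣ) : K) * ((b' : Kˣ) : K)⁻¹) := by
        intro v hv
        obtain ⟨c, z, hc, hz, e⟩ := hM b v hv
        obtain ⟨c', z', hc', hz', e'⟩ := hM b' v hv
        refine near_div hp hodd hζ hv hc hz e hc' hz' e' ?_
        by_cases hvA : v ∈ A
        · right
          have h1 := hxy2 ⟨v, hvA⟩
          rw [← ZMod.intCast_eq_intCast_iff_dvd_sub]
          exact h1.symm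
        · left
          exact hA v hvA
      obtain ⟨c, hc0, hc⟩ := eq_pow_of_near hp hcl hU
        (mul_ne_zero (b : Kˣ).ne_zero (inv_ne_zero (b' : Kˣ).ne_zero)) hval hnear
      exact ⟨Units.mk0 c hc0, by
        ext
        rw [powMonoidHom_apply, Units.val_pow_eq_pow_val, Units.val_mk0, ← hc]
        simp⟩
    have hx : (QuotientGroup.mk b : S ⧸ Q.subgroupOf S) = x := Quotient.out_eq' x
    have hy : (QuotientGroup.mk b' : S ⧸ Q.subgroupOf S) = y := Quotient.out_eq' y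
    rw [← hx, ← hy, QuotientGroup.eq]
    have h9 : b⁻¹ * b' = (b * b'⁻¹)⁻¹ := by
      rw [mul_inv_rev, inv_inv, mul_comm]
    rw [h9]
    exact (Q.subgroupOf S).inv_mem hmem
  have hcardT : Nat.card ((B → Multiplicative (ZMod p)) × (A → ZMod p)) =
      p ^ (A.card + B.card) := by
    have h0 : Fintype.card (Multiplicative (ZMod p)) = p :=
      (Fintype.card_multiplicative _).trans (ZMod.card p)
    rw [Nat.card_eq_fintype_card, Fintype.card_prod, Fintype.card_fun, Fintype.card_fun,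
      Fintype.card_coe, Fintype.card_coe, h0, ZMod.card, ← pow_add, add_comm]
  haveI : Finite (S ⧸ Q.subgroupOf S) := Finite.of_injective F hF
  have h4 : Q.relIndex S ≤ p ^ (A.card + B.card) := by
    rw [← hcardT]
    exact Nat.card_le_card_of_injective F hF
  have h6 : 0 < Q.relIndex S := Nat.card_pos
  have h5 : Q.relIndex P * P.relIndex S = Q.relIndex S := Subgroup.relIndex_mul_relIndex Q P S hQP hPS
  have h7 : P.relIndex S = 1 := by
    have h8 : 0 < P.relIndex S := by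
      rcases Nat.eq_zero_or_pos (P.relIndex S) with h | h
      · rw [h, mul_zero] at h5
        omega
      · exact h
    by_contra hne
    have h9 : 2 ≤ P.relIndex S := by omega
    have h10 : 0 < p ^ (A.card + B.card) := pow_pos hp.pos _
    nlinarith
  exact (Subgroup.relIndex_eq_one.1 h7) ha

/-- **Main theorem.** Let `P` be a subgroup of `Kˣ` containing the `p`-th powers, all of whose
elements lie in the image of `J_(r,n)(K)`. If there are enough points (`EnoughPoints`) or `G_n`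
is contained in `P`, then the Selmer group of `1 - ζ`, the image of `J_(r,n)(K)` and `P` coincide. -/
theorem selmer_eq_image {p r : ℕ} (hp : p.Prime) (hr1 : 1 ≤ r) (hr2 : r + 2 ≤ p)
    {K : Type u} [Field K] [NumberField K]
    {ζ : K} (hζ : IsPrimitiveRoot ζ p) (n : Kˣ) (τ : HeightOneSpectrum (𝓞 K) → 𝓞 K)
    (hnp : ∀ v : HeightOneSpectrum (𝓞 K), v.valuation K (p : K) < 1 →
      CritAt p r (1 - ζ) (n : K) (τ v) v)
    (P : Subgroup Kˣ) (hPp : ∀ c : Kˣ, c ^ p ∈ P)
    (hPJ : ∀ a ∈ P, InImage p r (n : K) (a : K))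
    (h : EnoughPoints p K (1 - ζ) (n : K) τ P ∨
      ∀ a : Kˣ, StrictSelmer p K (1 - ζ) (n : K) τ (a : K) → a ∈ P) (a : Kˣ) :
    (Selmer p r K (n : K) (a : K) ↔ a ∈ P) ∧ (InImage p r (n : K) (a : K) ↔ a ∈ P) := by
  have key : Selmer p r K (n : K) (a : K) → a ∈ P := by
    intro ha
    rcases h with h | h
    · exact mem_of_selmer_of_enoughPoints hp hr1 hr2 hζ n τ hnp P hPp hPJ h ha
    · exact h a (selmer_strict hp hr1 hr2 hζ (n : K) n.ne_zero τ hnp ha)
  exact ⟨⟨key, fun h1 => (hPJ a h1).selmer⟩, ⟨fun h1 => key h1.selmer, hPJ a⟩⟩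

end Pool.Agent.MP009fd8F.Crit
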