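import Pool.Agent.Lib.MP_009fd8_agF.ImageP
import Pool.Agent.Lib.MP_009fd8_agF.SplitSmall

/-!
MP_009fd8_ag, general r: the image at the places above `p`, split case: an element of the image is a
`p`-th power times `1 + z` with `z` close to an integer multiple of `τ π ^ ((p - 1) / 2)`.
-/

set_option autoImplicit false

namespace Pool.Agent.MP009fd8F

open Pool.Agent.MP009fd8J (Near Near.mul Near.inv norm_one_add_eq_one spectralNorm_algHom)

universe u

/-- `a` is a `p`-th power times `1 + z` with `z` close to an integer multiple of `P`. -/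
def Line {k : Type*} [NormedField k] (p : ℕ) (β : ℝ) (P : k) (a : k) : Prop :=
  ∃ (c z : k) (m : ℤ), c ≠ 0 ∧ ‖z - m * P‖ ≤ β ∧ a = c ^ p * (1 + z)

section line

variable {k : Type*} [NormedField k] [IsUltrametricDist k] {p : ℕ} {β : ℝ} {P : k}

omit [IsUltrametricDist k] in
theorem Near.line {a : k} (h : Near p β a) : Line p β P a := by
  obtain ⟨c, z, hc, hz, rfl⟩ := h
  exact ⟨c, z, 0, hc, by simpa using hz, rfl⟩

theorem line_z_le {M : ℝ} (hβM : β ≤ M) (hPM : ‖P‖ ≤ M) {z : k} {m : ℤ}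
    (hz : ‖z - m * P‖ ≤ β) : ‖z‖ ≤ M := by
  have e : z = (z - m * P) + m * P := by ring
  rw [e]
  refine (IsUltrametricDist.norm_add_le_max _ _).trans (max_le (hz.trans hβM) ?_)
  rw [norm_mul]
  exact (mul_le_of_le_one_left (norm_nonneg _) (IsUltrametricDist.norm_intCast_le_one k m)).trans
    hPM

theorem Line.mul (hβ : β < 1) (hP : ‖P‖ ^ 2 ≤ β) {a b : k} (ha : Line p β P a)
    (hb : Line p β P b) : Line p β P (a * b) := by
  obtain ⟨c, z, m, hc, hz, rfl⟩ := ha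
  obtain ⟨c', z', m', hc', hz', rfl⟩ := hb
  have hβ0 : 0 ≤ β := (norm_nonneg _).trans hz
  set M : ℝ := max β ‖P‖ with hM
  have hM0 : 0 ≤ M := hβ0.trans (le_max_left _ _)
  have hM2 : M ^ 2 ≤ β := by
    rcases le_total β ‖P‖ with h | h
    · rw [hM, max_eq_right h]
      exact hP
    · rw [hM, max_eq_left h, sq]
      exact mul_le_of_le_one_right hβ0 hβ.le
  have h1 := line_z_le (le_max_left β ‖P‖) (le_max_right β ‖P‖) hz
  have h2 := line_z_le (le_max_left β ‖P‖) (le_max_right β ‖P‖) hz'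
  refine ⟨c * c', z + z' + z * z', m + m', mul_ne_zero hc hc', ?_, by ring⟩
  have e : z + z' + z * z' - ((m + m' : ℤ) : k) * P =
      ((z - m * P) + (z' - m' * P)) + z * z' := by
    push_cast
    ring
  rw [e]
  refine (IsUltrametricDist.norm_add_le_max _ _).trans
    (max_le ((IsUltrametricDist.norm_add_le_max _ _).trans (max_le hz hz')) ?_)
  rw [norm_mul]
  calc ‖z‖ * ‖z'‖ ≤ M * M := mul_le_mul h1 h2 (norm_nonneg _) hM0
    _ = M ^ 2 := (sq M).symm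
    _ ≤ β := hM2

theorem Line.inv (hβ : β < 1) (hP : ‖P‖ ^ 2 ≤ β) {a : k} (ha : Line p β P a) :
    Line p β P a⁻¹ := by
  obtain ⟨c, z, m, hc, hz, rfl⟩ := ha
  have hβ0 : 0 ≤ β := (norm_nonneg _).trans hz
  have hP1 : ‖P‖ < 1 := (sq_lt_one_iff₀ (norm_nonneg _)).1 (hP.trans_lt hβ)
  set M : ℝ := max β ‖P‖ with hM
  have hM0 : 0 ≤ M := hβ0.trans (le_max_left _ _)
  have hM1 : M < 1 := max_lt hβ hP1
  have hM2 : M ^ 2 ≤ β := by
    rcases le_total β ‖P‖ with h | h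
    · rw [hM, max_eq_right h]
      exact hP
    · rw [hM, max_eq_left h, sq]
      exact mul_le_of_le_one_right hβ0 hβ.le
  have h1 := line_z_le (le_max_left β ‖P‖) (le_max_right β ‖P‖) hz
  have h1z : ‖1 + z‖ = 1 := norm_one_add_eq_one (h1.trans_lt hM1)
  have h1z0 : 1 + z ≠ 0 := by
    intro h0
    rw [h0, norm_zero] at h1z
    exact zero_ne_one h1z
  refine ⟨c⁻¹, -z / (1 + z), -m, inv_ne_zero hc, ?_, ?_⟩
  · have e : -z / (1 + z) - ((-m : ℤ) : k) * P = (-(z - m * P) + m * P * z) / (1 + z) := by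
      push_cast
      field_simp
      ring
    rw [e, norm_div, h1z, div_one]
    refine (IsUltrametricDist.norm_add_le_max _ _).trans (max_le (by rwa [norm_neg]) ?_)
    rw [norm_mul, norm_mul]
    calc ‖(m : k)‖ * ‖P‖ * ‖z‖ ≤ M * M := by
          refine mul_le_mul ?_ h1 (norm_nonneg _) hM0
          exact (mul_le_of_le_one_left (norm_nonneg _)
            (IsUltrametricDist.norm_intCast_le_one k m)).trans (le_max_right _ _)
      _ = M ^ 2 := (sq M).symm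
      _ ≤ β := hM2
  · have e : 1 + -z / (1 + z) = (1 + z)⁻¹ := by
      field_simp
      ring
    rw [e, mul_inv, inv_pow]

omit [IsUltrametricDist k] in
/-- A group `Q` of elements that contains the elements near `p`-th powers contains `a` if it contains
a power of `a` with exponent prime to `p`. -/
theorem root_gen (hp : p.Prime) (hβ0 : 0 ≤ β) {Q : k → Prop}
    (hQmul : ∀ a b, Q a → Q b → Q (a * b)) (hQinv : ∀ a, Q a → Q a⁻¹)
    (hQ : ∀ a, Near p β a → Q a) {a : k} (ha0 : a ≠ 0) {d : ℕ} (hd : Nat.Coprime d p)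
    (ha : Q (a ^ d)) : Q a := by
  obtain ⟨A, _, hA⟩ := Nat.exists_mul_mod_eq_one_of_coprime hd hp.one_lt
  obtain ⟨B, h1⟩ : ∃ B, d * A = 1 + p * B := by
    refine ⟨d * A / p, ?_⟩
    have := Nat.mod_add_div (d * A) p
    rw [hA] at this
    exact this.symm
  have hpow : ∀ (b : k) (m : ℕ), Q b → Q (b ^ m) := by
    intro b m hb
    induction m with
    | zero =>
      rw [pow_zero]
      exact hQ _ ⟨1, 0, one_ne_zero, by rw [norm_zero]; exact hβ0, by simp⟩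
    | succ m ih => rw [pow_succ]; exact hQmul _ _ ih hb
  have h2 : Q ((a ^ d) ^ A) := hpow _ _ ha
  have h3 : Q ((a ^ B) ^ p)⁻¹ := hQinv _ (hQ _ (near_pow_p hβ0 (pow_ne_zero _ ha0)))
  have h4 := hQmul _ _ h2 h3
  have e : (a ^ d) ^ A * ((a ^ B) ^ p)⁻¹ = a := by
    have h5 : (a ^ B) ^ p ≠ 0 := pow_ne_zero _ (pow_ne_zero _ ha0)
    rw [← pow_mul a d A, h1, pow_add, pow_one, mul_comm p B, pow_mul, mul_assoc,
      mul_inv_cancel₀ h5, mul_one]
  rwa [e] at h4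

end line

/-- The image at a place above `p`, from the local step, for a group `Q` of elements that contains
the elements near `p`-th powers. -/
theorem image_of_local_gen {k : Type u} [NormedField k] [IsUltrametricDist k] [CharZero k]
    {p r : ℕ} (hp : p.Prime) (hr1 : 1 ≤ r) (hr2 : r + 2 ≤ p) {β : ℝ} (hβ1 : β < 1)
    (hpβ : ‖(p : k)‖ ≤ β) {Q : k → Prop} (hQmul : ∀ a b, Q a → Q b → Q (a * b))
    (hQinv : ∀ a, Q a → Q a⁻¹) (hQ : ∀ a, Near p β a → Q a) (κ : k) (hκ : ‖κ‖ ≤ 1)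
    (hloc : ∀ (L : Type u) (_ : Field L) (_ : Algebra k L), FiniteDimensional k L →
      Module.finrank k L < p → ∀ U Y : L, U ≠ 0 →
        U ^ r * ((r + 1 : L) - r * U) * (1 + p * algebraMap k L κ) = Y ^ p →
        ∃ d : ℕ, 1 ≤ d ∧ d < p ∧ Q ((Algebra.norm k U) ^ d))
    {n g : k} (hn : n ≠ 0) (hg : g ≠ 0)
    (hc : n ^ (r + 1) * r ^ r = (r + 1) ^ (r + 1) * (g ^ p * (1 + p * κ)))
    {a : k} (h : InImage p r n a) : Q a := by
  have hodd : Odd p := hp.odd_of_ne_two (by omega)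
  have hβ0 : 0 ≤ β := (norm_nonneg _).trans hpβ
  have hplt : ‖(p : k)‖ < 1 := hpβ.trans_lt hβ1
  have hcr : Nat.Coprime r p := coprime_of_lt hp hr1 (by omega)
  have hcr1 : Nat.Coprime (r + 1) p := coprime_of_lt hp (by omega) (by omega)
  have hNr : Near p β (r : k) := near_natCast hp hplt hpβ hcr
  have hNr1 : Near p β ((r : k) + 1) := by
    have := near_natCast (k := k) hp hplt hpβ hcr1
    rwa [Nat.cast_add, Nat.cast_one] at this
  have hr0 : (r : k) ≠ 0 := by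
    rw [Nat.cast_ne_zero]
    omega
  have hr10 : (r : k) + 1 ≠ 0 := by
    have : ((r + 1 : ℕ) : k) ≠ 0 := Nat.cast_ne_zero.2 (by omega)
    rwa [Nat.cast_add, Nat.cast_one] at this
  have hNm1 : Near p β (-1 : k) :=
    ⟨-1, 0, by simp, by rw [norm_zero]; exact hβ0, by rw [hodd.neg_one_pow]; ring⟩
  have hNκ : Near p β (1 + (p : k) * κ) := by
    refine ⟨1, p * κ, one_ne_zero, ?_, by ring⟩
    rw [norm_mul]
    exact (mul_le_of_le_one_right (norm_nonneg _) hκ).trans hpβ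
  -- `n` is near
  have hNn : Near p β n := by
    refine near_of_pow hp hβ0 hβ1 hn hcr1 ?_
    have e : n ^ (r + 1) = ((r : k) + 1) ^ (r + 1) * (g ^ p * (1 + p * κ)) * ((r : k) ^ r)⁻¹ := by
      rw [← hc]
      field_simp
    rw [e]
    exact Near.mul hβ1 (Near.mul hβ1 (Near.pow hβ0 hβ1 hNr1 _)
      (Near.mul hβ1 (near_pow_p hβ0 hg) hNκ)) (Near.inv hβ1 (Near.pow hβ0 hβ1 hNr _))
  refine InImage.induction (P := Q) (fun c hc => hQ _ (near_pow_p hβ0 hc)) (fun _ => hQ _ hNn) ?_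
    (fun a b _ _ ha hb => hQmul _ _ ha hb) (fun a _ ha => hQinv _ ha) h
  rintro b hb ⟨L, i1, i2, hfd, hlt, x, y, hx, hxn, hxy, rfl⟩
  obtain ⟨c, hcdef⟩ : ∃ c : k, c = -(r * n / (r + 1)) := ⟨_, rfl⟩
  have hc0 : c ≠ 0 := by
    rw [hcdef]
    exact neg_ne_zero.2 (div_ne_zero (mul_ne_zero hr0 hn) hr10)
  have hNc : Near p β c := by
    have e : c = (-1) * ((r : k) * n * ((r : k) + 1)⁻¹) := by
      rw [hcdef]
      field_simp
    rw [e]
    exact Near.mul hβ1 hNm1 (Near.mul hβ1 (Near.mul hβ1 hNr hNn) (Near.inv hβ1 hNr1))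
  obtain ⟨C, hCdef⟩ : ∃ C : L, C = algebraMap k L c := ⟨_, rfl⟩
  have hC0 : C ≠ 0 := by
    rw [hCdef]
    exact (map_ne_zero _).2 hc0
  obtain ⟨U, hUdef⟩ : ∃ U : L, U = x / C := ⟨_, rfl⟩
  have hU0 : U ≠ 0 := by
    rw [hUdef]
    exact div_ne_zero hx hC0
  have hxU : x = C * U := by
    rw [hUdef]
    field_simp
  obtain ⟨G, hGdef⟩ : ∃ G : L, G = algebraMap k L g := ⟨_, rfl⟩
  have hG0 : G ≠ 0 := by
    rw [hGdef]
    exact (map_ne_zero _).2 hg
  obtain ⟨N, hNdef⟩ : ∃ N : L, N = algebraMap k L n := ⟨_, rfl⟩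
  rw [← hNdef] at hxn hxy
  have hrL : (r : L) ≠ 0 := by
    rw [← map_natCast (algebraMap k L) r]
    exact (map_ne_zero _).2 hr0
  have hrL1 : (r : L) + 1 ≠ 0 := by
    have e : (r : L) + 1 = algebraMap k L ((r : k) + 1) := by
      rw [map_add, map_natCast, map_one]
    rw [e]
    exact (map_ne_zero _).2 hr10
  have hC : C * (r + 1) = -(r * N) := by
    have e : algebraMap k L (c * ((r : k) + 1)) = algebraMap k L (-(r * n)) := by
      congr 1
      rw [hcdef]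
      field_simp
    rw [map_mul, map_add, map_natCast, map_one, map_neg, map_mul, map_natCast, ← hCdef,
      ← hNdef] at e
    exact e
  have hcL : N ^ (r + 1) * (r : L) ^ r =
      ((r : L) + 1) ^ (r + 1) * (G ^ p * (1 + p * algebraMap k L κ)) := by
    have := congrArg (algebraMap k L) hc
    rw [hNdef, hGdef]
    simpa using this
  have hUY : U ^ r * ((r + 1 : L) - r * U) * (1 + p * algebraMap k L κ) =
      ((-1) ^ r * y / G) ^ p := by
    have e1 : ((-1 : L) ^ r) ^ p = (-1) ^ r := by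
      rw [← pow_mul, mul_comm, pow_mul, hodd.neg_one_pow]
    rw [div_pow, mul_pow, e1, ← hxy, eq_div_iff (pow_ne_zero _ hG0)]
    have e2 : x + N = -(C * ((r + 1 : L) - r * U)) / r := by
      rw [eq_div_iff hrL, hxU]
      linear_combination hC
    have e3 : ((r : L) + 1) ^ (r + 1) * (U ^ r * ((r + 1 : L) - r * U) *
        (1 + p * algebraMap k L κ) * G ^ p) =
        ((r : L) + 1) ^ (r + 1) * ((-1) ^ r * (x ^ r * (x + N))) := by
      have e4 : ((r : L) + 1) ^ (r + 1) * (U ^ r * ((r + 1 : L) - r * U) *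
        (1 + p * algebraMap k L κ) * G ^ p) = U ^ r * ((r + 1 : L) - r * U) *
          (N ^ (r + 1) * (r : L) ^ r) := by
        rw [hcL]
        ring
      have e5 : ((r : L) + 1) ^ (r + 1) * C ^ (r + 1) =
          (-1) ^ (r + 1) * (r ^ (r + 1) * N ^ (r + 1)) := by
        rw [← mul_pow, mul_comm ((r : L) + 1) C, hC, neg_pow, mul_pow]
      rw [e4, e2, hxU, mul_pow]
      have e6 : ((r : L) + 1) ^ (r + 1) * ((-1) ^ r * (C ^ r * U ^ r *
          (-(C * ((r + 1 : L) - r * U)) / r))) =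
          (((r : L) + 1) ^ (r + 1) * C ^ (r + 1)) * ((-1) ^ (r + 1) * (U ^ r *
            ((r + 1 : L) - r * U)) / r) := by
        ring
      rw [e6, e5]
      have e7 : ((-1 : L) ^ (r + 1)) * (-1) ^ (r + 1) = 1 := by
        rw [← mul_pow]
        simp
      have e8 : (-1 : L) ^ (r + 1) * ((r : L) ^ (r + 1) * N ^ (r + 1)) *
          ((-1) ^ (r + 1) * (U ^ r * ((r + 1 : L) - r * U)) / r) =
          ((-1 : L) ^ (r + 1) * (-1) ^ (r + 1)) * (((r : L) ^ (r + 1) / r) * N ^ (r + 1) *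
            (U ^ r * ((r + 1 : L) - r * U))) := by
        ring
      rw [e8, e7, one_mul, pow_succ (r : L) r, mul_div_cancel_right₀ _ hrL]
      ring
    exact mul_left_cancel₀ (pow_ne_zero _ hrL1) e3
  obtain ⟨d, hd1, hd2, hd⟩ := hloc L i1 i2 hfd hlt U _ hU0 hUY
  have hNU : Q (Algebra.norm k U) :=
    root_gen hp hβ0 hQmul hQinv hQ (Algebra.norm_ne_zero_iff.2 hU0) (coprime_of_lt hp hd1 hd2) hd
  rw [hxU, map_mul, hCdef, Algebra.norm_algebraMap]
  exact hQmul _ _ (hQ _ (Near.pow hβ0 hβ1 hNc _)) hNU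

/-- The local step at a place above `p`, split case. -/
theorem local_step_line {k : Type*} [NontriviallyNormedField k] [IsUltrametricDist k]
    [CompleteSpace k] [CharZero k] {L : Type*} [Field L] [Algebra k L] [FiniteDimensional k L]
    {p r : ℕ} (hp : p.Prime) (hr1 : 1 ≤ r) (hr2 : r + 2 ≤ p)
    (π : k) (hπ0 : 0 < ‖π‖) (hπ1 : ‖π‖ < 1) (hA : ‖(p : k)‖ = ‖π‖ ^ (p - 1))
    (hπp : ‖(p : k) + π ^ (p - 1)‖ < ‖(p : k)‖)
    (hval : ∀ a : k, a ≠ 0 → ∃ j : ℤ, ‖a‖ = ‖π‖ ^ j)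
    {β : ℝ} (hβ0 : 0 ≤ β) (hβ : β ^ 2 = ‖π‖ ^ (p + 1))
    {ζ₀ : k} (hζ₀ : IsPrimitiveRoot ζ₀ p) (κ τ : k) (hκ : ‖κ‖ ≤ 1)
    (hτ : ‖r * (r + 1) * τ ^ 2 + 2 * κ‖ < 1) (hL : Module.finrank k L < p)
    {U Y : L} (hU : U ≠ 0)
    (h : U ^ r * ((r + 1 : L) - r * U) * (1 + p * algebraMap k L κ) = Y ^ p) :
    ∃ d : ℕ, 1 ≤ d ∧ d < p ∧ Line p β (τ * π ^ ((p - 1) / 2)) ((Algebra.norm k U) ^ d) := by
  have hodd : Odd p := hp.odd_of_ne_two (by omega)
  have hconv : ∀ x : ℝ, 0 ≤ x → x ^ 2 ≤ ‖π‖ ^ (p + 1) → x ≤ β := by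
    intro x hx h1
    rw [← hβ] at h1
    exact (pow_le_pow_iff_left₀ hx hβ0 (by norm_num)).1 h1
  have hA1 : ‖(p : k)‖ < 1 := by
    rw [hA]
    exact pow_lt_one₀ hπ0.le hπ1 (by omega)
  have hA0 : 0 < ‖(p : k)‖ := by
    rw [hA]
    exact pow_pos hπ0 _
  -- discreteness
  have hdisc : ∀ z : k, ‖z‖ ^ 2 < ‖(p : k)‖ → ‖z‖ ≤ β := by
    intro z hz
    apply hconv _ (norm_nonneg _)
    rcases eq_or_ne z 0 with rfl | hz0
    · rw [norm_zero, zero_pow two_ne_zero]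
      exact (pow_pos hπ0 _).le
    · obtain ⟨j, hj⟩ := hval z hz0
      rw [hj, ← zpow_natCast, ← zpow_mul, ← zpow_natCast ‖π‖ (p + 1)]
      rw [hj, hA, ← zpow_natCast, ← zpow_mul, ← zpow_natCast ‖π‖ (p - 1)] at hz
      have h1 : ((p - 1 : ℕ) : ℤ) < j * ((2 : ℕ) : ℤ) :=
        (zpow_lt_zpow_iff_right_of_lt_one₀ hπ0 hπ1).1 hz
      apply (zpow_le_zpow_iff_right_of_lt_one₀ hπ0 hπ1).2
      obtain ⟨q, hq⟩ := hodd
      push_cast at h1 ⊢
      omega
  have : CharZero L := charZero_of_injective_algebraMap (algebraMap k L).injective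
  let Ω := AlgebraicClosure L
  have halgΩ : Algebra.IsAlgebraic k Ω := Algebra.IsAlgebraic.trans k L Ω
  let i1 : NormedField Ω := spectralNorm.normedField k Ω
  let i2 : NormedAlgebra k Ω := spectralNorm.normedAlgebra k Ω
  have i3 : IsUltrametricDist Ω :=
    IsUltrametricDist.isUltrametricDist_of_isNonarchimedean_norm isNonarchimedean_spectralNorm
  have hnorm : ∀ t : Ω, ‖t‖ = spectralNorm k Ω t := fun t => rfl
  have hpΩ : ‖(p : Ω)‖ = ‖(p : k)‖ := by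
    rw [← map_natCast (algebraMap k Ω) p]
    exact norm_algebraMap' Ω (p : k)
  have hζΩ : IsPrimitiveRoot (algebraMap k Ω ζ₀) p :=
    hζ₀.map_of_injective (algebraMap k Ω).injective
  set U' : Ω := algebraMap L Ω U with hU'
  set Y' : Ω := algebraMap L Ω Y with hY'
  have hU'0 : U' ≠ 0 := by rw [hU']; exact (map_ne_zero (algebraMap L Ω)).2 hU
  have hκΩ : ‖algebraMap k Ω κ‖ ≤ 1 := by
    rw [show ‖algebraMap k Ω κ‖ = ‖κ‖ from norm_algebraMap' Ω κ]
    exact hκ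
  have h' : U' ^ r * ((r + 1 : Ω) - r * U') * (1 + p * algebraMap k Ω κ) = Y' ^ p := by
    have e1 : algebraMap k Ω κ = algebraMap L Ω (algebraMap k L κ) :=
      IsScalarTower.algebraMap_apply k L Ω κ
    have := congrArg (algebraMap L Ω) h
    rw [e1]
    simpa using this
  rcases omega_step_ns hp hodd hr1 hr2 (hpΩ.trans_lt hA1) (hA0.trans_eq hpΩ.symm) hζΩ hκΩ hU'0 h'
    with h1 | ⟨ζ, ρ, δ, h1, h2, h3, h4, h5⟩
  · refine ⟨1, le_rfl, hp.one_lt, ?_⟩
    rw [pow_one]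
    rw [hpΩ] at h1
    have h2 : ‖U' - 1‖ = spectralNorm k L (U - 1) := by
      rw [hnorm, ← spectralNorm_algHom (IsScalarTower.toAlgHom k L Ω) (U - 1)]
      congr 1
      rw [map_sub, map_one]
      rfl
    rw [h2] at h1
    obtain ⟨m, h4⟩ := split_small p r hp hr1 hr2 π hπ0 hπ1 hA hπp hval κ τ hκ hτ hL U Y h1 h
    refine ⟨1, Algebra.norm k U - 1, m, one_ne_zero, ?_, by ring⟩
    rw [← mul_assoc]
    exact hconv _ (norm_nonneg _) h4
  · rw [hpΩ] at h5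
    have hδ1 : ‖δ‖ < 1 := (sq_lt_one_iff₀ (norm_nonneg _)).1 (h5.trans hA1)
    obtain ⟨d, hd1, hd2, c, z, hc, hz, e⟩ := descent (k := k) hp hr1 hr2 hδ1 hζ₀ hU h1 h2 h3 h4
      le_rfl
    refine ⟨d, hd1, hd2, Near.line ⟨c, z, hc, ?_, e⟩⟩
    exact hdisc z ((pow_le_pow_left₀ (norm_nonneg _) hz 2).trans_lt h5)

/-- The image at a place above `p`, split case. -/
theorem image_at_p_line {k : Type u} [NontriviallyNormedField k] [IsUltrametricDist k]
    [CompleteSpace k] [CharZero k] (p r : ℕ) (hp : p.Prime) (hr1 : 1 ≤ r) (hr2 : r + 2 ≤ p)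
    (π : k) (hπ0 : 0 < ‖π‖) (hπ1 : ‖π‖ < 1) (hA : ‖(p : k)‖ = ‖π‖ ^ (p - 1))
    (hπp : ‖(p : k) + π ^ (p - 1)‖ < ‖(p : k)‖)
    (hval : ∀ a : k, a ≠ 0 → ∃ j : ℤ, ‖a‖ = ‖π‖ ^ j)
    {ζ₀ : k} (hζ₀ : IsPrimitiveRoot ζ₀ p) (κ τ : k) (hκ : ‖κ‖ ≤ 1)
    (hτ : ‖r * (r + 1) * τ ^ 2 + 2 * κ‖ < 1)
    (n g : k) (hn : n ≠ 0) (hg : g ≠ 0)
    (hc : n ^ (r + 1) * r ^ r = (r + 1) ^ (r + 1) * (g ^ p * (1 + p * κ)))
    {a : k} (h : InImage p r n a) :
    ∃ (c z : k) (m : ℤ), c ≠ 0 ∧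
      ‖z - m * τ * π ^ ((p - 1) / 2)‖ ^ 2 ≤ ‖π‖ ^ (p + 1) ∧ a = c ^ p * (1 + z) := by
  have hodd : Odd p := hp.odd_of_ne_two (by omega)
  have hπp0 : 0 < ‖π‖ ^ (p + 1) := pow_pos hπ0 _
  obtain ⟨β, hβdef⟩ : ∃ β : ℝ, β = Real.sqrt (‖π‖ ^ (p + 1)) := ⟨_, rfl⟩
  have hβ0 : 0 ≤ β := by
    rw [hβdef]
    exact Real.sqrt_nonneg _
  have hβ : β ^ 2 = ‖π‖ ^ (p + 1) := by
    rw [hβdef]
    exact Real.sq_sqrt hπp0.le
  have hβ1 : β < 1 := by
    have h1 : ‖π‖ ^ (p + 1) < 1 := pow_lt_one₀ hπ0.le hπ1 (by omega)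
    rw [← hβ] at h1
    by_contra hcon
    push Not at hcon
    have h2 : 1 ≤ β ^ 2 := one_le_pow₀ hcon
    linarith
  have hpβ : ‖(p : k)‖ ≤ β := by
    have h1 : ‖(p : k)‖ ^ 2 ≤ β ^ 2 := by
      rw [hβ, hA, ← pow_mul]
      exact pow_le_pow_of_le_one hπ0.le hπ1.le (by omega)
    exact (pow_le_pow_iff_left₀ (norm_nonneg _) hβ0 (by norm_num)).1 h1
  -- `τ` is integral
  have hA1 : ‖(p : k)‖ < 1 := hpβ.trans_lt hβ1
  have hr : ‖(r : k)‖ = 1 := norm_natCast_eq_one (coprime_of_lt hp hr1 (by omega)) hA1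
  have hr' : ‖((r : k) + 1)‖ = 1 := by
    have := norm_natCast_eq_one (L := k) (coprime_of_lt hp (r := r + 1) (by omega) (by omega)) hA1
    rwa [Nat.cast_add, Nat.cast_one] at this
  have hτ1 : ‖τ‖ ≤ 1 := by
    have h1 : ‖τ‖ ^ 2 ≤ 1 := by
      have e : (r : k) * (r + 1) * τ ^ 2 = (r * (r + 1) * τ ^ 2 + 2 * κ) + -(2 * κ) := by ring
      have h2 : ‖(r : k) * (r + 1) * τ ^ 2‖ ≤ 1 := by
        rw [e]
        refine (IsUltrametricDist.norm_add_le_max _ _).trans (max_le hτ.le ?_)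
        rw [norm_neg, norm_mul]
        have h3 : ‖(2 : k)‖ ≤ 1 := by
          have := IsUltrametricDist.norm_natCast_le_one k 2
          simpa using this
        calc ‖(2 : k)‖ * ‖κ‖ ≤ 1 * 1 := mul_le_mul h3 hκ (norm_nonneg _) zero_le_one
          _ = 1 := one_mul 1
      rwa [norm_mul, norm_mul, hr, hr', one_mul, one_mul, norm_pow] at h2
    exact (sq_le_one_iff₀ (norm_nonneg _)).1 h1
  have hP : ‖τ * π ^ ((p - 1) / 2)‖ ^ 2 ≤ β := by
    refine le_trans ?_ hpβ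
    rw [norm_mul, norm_pow, hA, mul_pow, ← pow_mul]
    have e : (p - 1) / 2 * 2 = p - 1 := by
      obtain ⟨q, hq⟩ := hodd
      omega
    rw [e]
    exact mul_le_of_le_one_left (pow_nonneg hπ0.le _) (pow_le_one₀ (norm_nonneg _) hτ1)
  have hline : Line p β (τ * π ^ ((p - 1) / 2)) a := by
    refine image_of_local_gen hp hr1 hr2 hβ1 hpβ (Q := Line p β (τ * π ^ ((p - 1) / 2)))
      (fun a b ha hb => Line.mul hβ1 hP ha hb) (fun a ha => Line.inv hβ1 hP ha)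
      (fun a ha => Near.line ha) κ hκ ?_ hn hg hc h
    intro L _ _ _ hL U Y hU hUY
    exact local_step_line hp hr1 hr2 π hπ0 hπ1 hA hπp hval hβ0 hβ hζ₀ κ τ hκ hτ hL hU hUY
  obtain ⟨c, z, m, hc0, hz, e⟩ := hline
  refine ⟨c, z, m, hc0, ?_, e⟩
  rw [← hβ, mul_assoc]
  exact pow_le_pow_left₀ (norm_nonneg _) hz 2

end Pool.Agent.MP009fd8F
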