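import Pool.Agent.Lib.MP_009fd8_agJ.AtPK

/-!
MP_009fd8_ag, general r, places above `p`, non-square case: points close to the critical point.
-/

set_option autoImplicit false

namespace Pool.Agent.MP009fd8F

open Finset
open Pool.Agent.MP009fd8J

/-- The polynomial `X ^ r ((r + 1) - r X)` near `X = 1`, first factor. -/
theorem norm_expand_aux {F : Type*} [NormedField F] [IsUltrametricDist F] (B : F) (hB : ‖B‖ ≤ 1)
    (r : ℕ) :
    ‖2 * ((1 + B) ^ r - 1 - r * B) - r * (r - 1) * B ^ 2‖ ≤ ‖B‖ ^ 3 := by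
  induction r with
  | zero => simp
  | succ r ih =>
    have e : 2 * ((1 + B) ^ (r + 1) - 1 - ((r + 1 : ℕ) : F) * B) -
        ((r + 1 : ℕ) : F) * (((r + 1 : ℕ) : F) - 1) * B ^ 2 =
        (1 + B) * (2 * ((1 + B) ^ r - 1 - r * B) - r * (r - 1) * B ^ 2) +
          (((r : ℤ) * ((r : ℤ) - 1) : ℤ) : F) * B ^ 3 := by
      push_cast
      ring
    rw [e]
    refine (IsUltrametricDist.norm_add_le_max _ _).trans (max_le ?_ ?_)
    · rw [norm_mul]
      have h1 : ‖1 + B‖ ≤ 1 := by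
        refine (IsUltrametricDist.norm_add_le_max _ _).trans (max_le ?_ hB)
        rw [norm_one]
      calc ‖1 + B‖ * ‖2 * ((1 + B) ^ r - 1 - r * B) - r * (r - 1) * B ^ 2‖ ≤ 1 * ‖B‖ ^ 3 :=
            mul_le_mul h1 ih (norm_nonneg _) zero_le_one
        _ = ‖B‖ ^ 3 := one_mul _
    · rw [norm_mul, norm_pow]
      exact mul_le_of_le_one_left (pow_nonneg (norm_nonneg _) _)
        (IsUltrametricDist.norm_intCast_le_one F _)

/-- The polynomial `X ^ r ((r + 1) - r X)` near `X = 1`. -/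
theorem norm_expand {F : Type*} [NormedField F] [IsUltrametricDist F] (B : F) (hB : ‖B‖ ≤ 1)
    (r : ℕ) :
    ‖2 * ((1 + B) ^ r * ((r + 1) - r * (1 + B)) - 1) + r * (r + 1) * B ^ 2‖ ≤ ‖B‖ ^ 3 := by
  have e : 2 * ((1 + B) ^ r * (((r : F) + 1) - r * (1 + B)) - 1) + r * (r + 1) * B ^ 2 =
      (2 * ((1 + B) ^ r - 1 - r * B) - r * (r - 1) * B ^ 2) * (1 + ((-(r : ℤ) : ℤ) : F) * B) +
        ((-((r : ℤ) ^ 2 * ((r : ℤ) - 1)) : ℤ) : F) * B ^ 3 := by
    push_cast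
    ring
  rw [e]
  refine (IsUltrametricDist.norm_add_le_max _ _).trans (max_le ?_ ?_)
  · rw [norm_mul]
    have h1 : ‖1 + ((-(r : ℤ) : ℤ) : F) * B‖ ≤ 1 := by
      refine (IsUltrametricDist.norm_add_le_max _ _).trans (max_le ?_ ?_)
      · rw [norm_one]
      · rw [norm_mul]
        calc ‖((-(r : ℤ) : ℤ) : F)‖ * ‖B‖ ≤ 1 * 1 :=
              mul_le_mul (IsUltrametricDist.norm_intCast_le_one F _) hB (norm_nonneg _) zero_le_one
          _ = 1 := one_mul _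
    calc ‖2 * ((1 + B) ^ r - 1 - r * B) - r * (r - 1) * B ^ 2‖ * ‖1 + ((-(r : ℤ) : ℤ) : F) * B‖
        ≤ ‖B‖ ^ 3 * 1 :=
          mul_le_mul (norm_expand_aux B hB r) h1 (norm_nonneg _) (pow_nonneg (norm_nonneg _) _)
      _ = ‖B‖ ^ 3 := mul_one _
  · rw [norm_mul, norm_pow]
    exact mul_le_of_le_one_left (pow_nonneg (norm_nonneg _) _)
      (IsUltrametricDist.norm_intCast_le_one F _)

section norms

variable {k L : Type*} [NontriviallyNormedField k] [IsUltrametricDist k] [CompleteSpace k]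
  [CharZero k] [Field L] [Algebra k L] [FiniteDimensional k L]

/-- The norm of `1 + e` when `e ^ 2` is close to `D π ^ (p - 1)`, `D` not a square. -/
theorem norm_one_add_crit (p : ℕ) (hp : p.Prime) (hodd : Odd p) (π : k) (hπ0 : 0 < ‖π‖)
    (hπ1 : ‖π‖ < 1) (hA : ‖(p : k)‖ = ‖π‖ ^ (p - 1))
    (hval : ∀ a : k, a ≠ 0 → ∃ j : ℤ, ‖a‖ = ‖π‖ ^ j)
    (D : k) (hD1 : ‖D‖ ≤ 1) (hD : ∀ t : k, ¬ ‖t ^ 2 - D‖ < 1) (e : L)
    (he : spectralNorm k L e ^ 2 ≤ ‖(p : k)‖)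
    (hV : spectralNorm k L (e ^ 2 - algebraMap k L (D * π ^ (p - 1))) < ‖(p : k)‖) :
    ‖Algebra.norm k (1 + e) - 1‖ ^ 2 ≤ ‖π‖ ^ (p + 1) := by
  let i1 : NormedField L := spectralNorm.normedField k L
  let i2 : NormedAlgebra k L := spectralNorm.normedAlgebra k L
  have i3 : IsUltrametricDist L :=
    IsUltrametricDist.isUltrametricDist_of_isNonarchimedean_norm isNonarchimedean_spectralNorm
  have hmap : ∀ a : k, ‖algebraMap k L a‖ = ‖a‖ := fun a => norm_algebraMap' _ _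
  obtain ⟨q, hq⟩ := id hodd
  have h3p : 3 ≤ p := by
    have h2 := hp.two_le
    omega
  have hA1 : ‖(p : k)‖ < 1 := by
    rw [hA]
    exact pow_lt_one₀ hπ0.le hπ1 (by omega)
  have hA0 : 0 < ‖(p : k)‖ := by
    rw [hA]
    exact pow_pos hπ0 _
  change ‖e‖ ^ 2 ≤ ‖(p : k)‖ at he
  change ‖e ^ 2 - algebraMap k L (D * π ^ (p - 1))‖ < ‖(p : k)‖ at hV
  have he1 : ‖e‖ < 1 := (sq_lt_one_iff₀ (norm_nonneg _)).1 (he.trans_lt hA1)
  set P : L := algebraMap k L (π ^ q) with hP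
  have hPn : ‖P‖ ^ 2 = ‖(p : k)‖ := by
    rw [hmap, norm_pow, hA, hq, ← pow_mul]
    congr 1
    omega
  have hP0 : P ≠ 0 := by
    rintro h0
    rw [h0, norm_zero] at hPn
    rw [← hPn] at hA0
    simp at hA0
  have hP2 : algebraMap k L (D * π ^ (p - 1)) = algebraMap k L D * P ^ 2 := by
    have e7 : p - 1 = q * 2 := by omega
    rw [map_mul, hP, e7, pow_mul, map_pow]
  set V : L := e / P with hVd
  have heV : e = π ^ q • V := by
    rw [Algebra.smul_def, hVd, mul_div_cancel₀ _ hP0]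
  have hV2 : ‖V ^ 2 - algebraMap k L D‖ < 1 := by
    have e4 : V ^ 2 - algebraMap k L D = (e ^ 2 - algebraMap k L (D * π ^ (p - 1))) / P ^ 2 := by
      rw [hP2, hVd]
      field_simp
    rw [e4, norm_div, norm_pow, hPn, div_lt_one hA0]
    exact hV
  have hT := norm_trace_lt_one (k := k) V D hD1 hD hV2
  have hT2 : ‖Algebra.trace k L V‖ ≤ ‖π‖ := by
    rcases eq_or_ne (Algebra.trace k L V) 0 with h0 | h0
    · rw [h0, norm_zero]
      exact hπ0.le
    · obtain ⟨j, hj⟩ := hval _ h0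
      rw [hj] at hT ⊢
      have h1 : ‖π‖ ^ j < ‖π‖ ^ (0 : ℤ) := by simpa using hT
      have h2 := (zpow_lt_zpow_iff_right_of_lt_one₀ hπ0 hπ1).1 h1
      have h3 : ‖π‖ ^ j ≤ ‖π‖ ^ (1 : ℤ) :=
        (zpow_le_zpow_iff_right_of_lt_one₀ hπ0 hπ1).2 (by omega)
      simpa using h3
  have hT3 : ‖Algebra.trace k L e‖ ≤ ‖π‖ ^ (q + 1) := by
    rw [heV, map_smul, smul_eq_mul, norm_mul, norm_pow, pow_succ]
    exact mul_le_mul_of_nonneg_left hT2 (pow_pos hπ0 _).le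
  have hsec := norm_algebra_norm_one_add_sub_trace (k := k) e he1.le
  have hsec2 : ‖Algebra.norm k (1 + e) - 1 - Algebra.trace k L e‖ ≤ ‖π‖ ^ (q + 1) := by
    refine hsec.trans ?_
    change ‖e‖ ^ 2 ≤ ‖π‖ ^ (q + 1)
    refine he.trans ?_
    rw [hA]
    exact pow_le_pow_of_le_one hπ0.le hπ1.le (by omega)
  have hfin : ‖Algebra.norm k (1 + e) - 1‖ ≤ ‖π‖ ^ (q + 1) := by
    have e9 : Algebra.norm k (1 + e) - 1 =
      (Algebra.norm k (1 + e) - 1 - Algebra.trace k L e) + Algebra.trace k L e := by ring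
    rw [e9]
    exact (IsUltrametricDist.norm_add_le_max _ _).trans (max_le hsec2 hT3)
  calc ‖Algebra.norm k (1 + e) - 1‖ ^ 2 ≤ (‖π‖ ^ (q + 1)) ^ 2 :=
        pow_le_pow_left₀ (norm_nonneg _) hfin 2
    _ = ‖π‖ ^ (p + 1) := by
        rw [← pow_mul, hq]
        congr 1
        omega

/-- `‖s‖ ^ p ≠ ‖p‖` for elements of extensions of degree less than `p`. -/
theorem spectralNorm_pow_ne (p : ℕ) (hp : p.Prime) (π : k) (hπ0 : 0 < ‖π‖)
    (hπ1 : ‖π‖ < 1) (hA : ‖(p : k)‖ = ‖π‖ ^ (p - 1))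
    (hval : ∀ a : k, a ≠ 0 → ∃ j : ℤ, ‖a‖ = ‖π‖ ^ j) (hL : Module.finrank k L < p) (s : L) :
    spectralNorm k L s ^ p ≠ ‖(p : k)‖ := by
  let i1 : NormedField L := spectralNorm.normedField k L
  have h2p := hp.two_le
  have hA0 : 0 < ‖(p : k)‖ := by
    rw [hA]
    exact pow_pos hπ0 _
  intro hcon
  change ‖s‖ ^ p = ‖(p : k)‖ at hcon
  have hs0 : s ≠ 0 := by
    intro h0
    rw [h0, norm_zero, zero_pow hp.ne_zero] at hcon
    exact absurd hcon hA0.ne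
  have hN0 : Algebra.norm k s ≠ 0 := Algebra.norm_ne_zero_iff.2 hs0
  obtain ⟨j, hj⟩ := hval _ hN0
  have h1 : ‖Algebra.norm k s‖ = ‖s‖ ^ Module.finrank k L := norm_algebra_norm s
  have h2 : ‖π‖ ^ (j * p) = ‖π‖ ^ (((p - 1 : ℕ) : ℤ) * (Module.finrank k L : ℤ)) := by
    rw [zpow_mul, ← hj, h1, zpow_mul, zpow_natCast, zpow_natCast, zpow_natCast, ← hA, ← hcon]
    ring
  have h3 : j * p = ((p - 1 : ℕ) : ℤ) * (Module.finrank k L : ℤ) :=
    zpow_right_injective₀ hπ0 hπ1.ne h2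
  have h4 : (p : ℤ) ∣ ((p - 1 : ℕ) : ℤ) * (Module.finrank k L : ℤ) := ⟨j, by rw [← h3]; ring⟩
  have h5 : p ∣ (p - 1) * Module.finrank k L := by exact_mod_cast h4
  have h6 : 0 < Module.finrank k L := Module.finrank_pos
  rcases hp.dvd_mul.1 h5 with h7 | h7
  · exact absurd (Nat.le_of_dvd (by omega) h7) (by omega)
  · exact absurd (Nat.le_of_dvd h6 h7) (by omega)

/-- Non-square case, points close to the critical point `U = 1`. -/
theorem ns_small (p r : ℕ) (hp : p.Prime) (hr1 : 1 ≤ r) (hr2 : r + 2 ≤ p) (π : k)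
    (hπ0 : 0 < ‖π‖) (hπ1 : ‖π‖ < 1) (hA : ‖(p : k)‖ = ‖π‖ ^ (p - 1))
    (hπp : ‖(p : k) + π ^ (p - 1)‖ < ‖(p : k)‖)
    (hval : ∀ a : k, a ≠ 0 → ∃ j : ℤ, ‖a‖ = ‖π‖ ^ j) (κ : k) (hκ : ‖κ‖ ≤ 1)
    (hNS : ∀ t : k, ¬ ‖r * (r + 1) * t ^ 2 + 2 * κ‖ < 1) (hL : Module.finrank k L < p)
    (U Y : L) (hU : spectralNorm k L (U - 1) ^ 2 ≤ ‖(p : k)‖)
    (hUY : U ^ r * ((r + 1) - r * U) * (1 + p * algebraMap k L κ) = Y ^ p) :
    ‖Algebra.norm k U - 1‖ ^ 2 ≤ ‖π‖ ^ (p + 1) := by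
  have hodd : Odd p := hp.odd_of_ne_two (by omega)
  let i1 : NormedField L := spectralNorm.normedField k L
  let i2 : NormedAlgebra k L := spectralNorm.normedAlgebra k L
  have i3 : IsUltrametricDist L :=
    IsUltrametricDist.isUltrametricDist_of_isNonarchimedean_norm isNonarchimedean_spectralNorm
  have hmap : ∀ a : k, ‖algebraMap k L a‖ = ‖a‖ := fun a => norm_algebraMap' _ _
  have hpn : ‖(p : L)‖ = ‖(p : k)‖ := by
    rw [← hmap, map_natCast]
  have hA1 : ‖(p : k)‖ < 1 := by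
    rw [hA]
    exact pow_lt_one₀ hπ0.le hπ1 (by omega)
  have hA0 : 0 < ‖(p : k)‖ := by
    rw [hA]
    exact pow_pos hπ0 _
  have h2n : ‖(2 : k)‖ = 1 := nrm_two hodd hA1
  have h2L : ‖(2 : L)‖ = 1 := nrm_two hodd (hpn.trans_lt hA1)
  have hnat : ∀ m : ℕ, 0 < m → m < p → ‖(m : k)‖ = 1 := by
    intro m hm0 hmp
    have hcop : IsCoprime (m : ℤ) (p : ℤ) :=
      Nat.isCoprime_iff_coprime.2 (((Nat.Prime.coprime_iff_not_dvd hp).2
        (Nat.not_dvd_of_pos_of_lt hm0 hmp)).symm)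
    obtain ⟨a, b, hab⟩ := hcop
    apply le_antisymm (IsUltrametricDist.norm_natCast_le_one k m)
    by_contra hcon
    push Not at hcon
    have h1 : (a : k) * (m : k) + (b : k) * (p : k) = 1 := by
      exact_mod_cast congrArg (Int.cast : ℤ → k) hab
    have h2 : ‖(a : k) * (m : k) + (b : k) * (p : k)‖ < 1 := by
      refine (IsUltrametricDist.norm_add_le_max _ _).trans_lt (max_lt ?_ ?_)
      · rw [norm_mul]
        exact (mul_le_of_le_one_left (norm_nonneg _)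
          (IsUltrametricDist.norm_intCast_le_one k a)).trans_lt hcon
      · rw [norm_mul]
        exact (mul_le_of_le_one_left (norm_nonneg _)
          (IsUltrametricDist.norm_intCast_le_one k b)).trans_lt hA1
    rw [h1, norm_one] at h2
    exact lt_irrefl _ h2
  have hr : ‖(r : k)‖ = 1 := hnat r (by omega) (by omega)
  have hr' : ‖((r : k) + 1)‖ = 1 := by exact_mod_cast hnat (r + 1) (by omega) (by omega)
  have hrr : ‖(r : k) * (r + 1)‖ = 1 := by rw [norm_mul, hr, hr', one_mul]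
  have hrr0 : (r : k) * (r + 1) ≠ 0 := by
    rw [← norm_pos_iff, hrr]
    exact one_pos
  have hr0 : (r : k) ≠ 0 := left_ne_zero_of_mul hrr0
  have hr10 : (r : k) + 1 ≠ 0 := right_ne_zero_of_mul hrr0
  have hrrL : ‖(r : L) * (r + 1)‖ = 1 := by
    have : algebraMap k L ((r : k) * (r + 1)) = (r : L) * (r + 1) := by
      rw [map_mul, map_add, map_one, map_natCast]
    rw [← this, hmap, hrr]
  set B : L := U - 1 with hB
  change ‖B‖ ^ 2 ≤ ‖(p : k)‖ at hU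
  have hUB : U = 1 + B := by
    rw [hB]
    ring
  have hB1 : ‖B‖ < 1 := (sq_lt_one_iff₀ (norm_nonneg _)).1 (hU.trans_lt hA1)
  set K : L := algebraMap k L κ with hK
  have hKn : ‖K‖ ≤ 1 := by rw [hmap]; exact hκ
  rw [hUB] at hUY
  have hexp := norm_expand B hB1.le r
  set H : L := (1 + B) ^ r * ((r + 1) - r * (1 + B)) with hH
  -- `2 (Y ^ p - 1)`
  have e1 : 2 * (Y ^ p - 1) = (2 * (H - 1) + r * (r + 1) * B ^ 2) * (1 + p * K) +
      (2 * p * K - r * (r + 1) * B ^ 2 - r * (r + 1) * B ^ 2 * (p * K)) := by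
    rw [← hUY]
    ring
  have hpK : ‖(p : L) * K‖ ≤ ‖(p : k)‖ := by
    rw [norm_mul, hpn]
    exact mul_le_of_le_one_right (norm_nonneg _) hKn
  have h1pK : ‖1 + (p : L) * K‖ ≤ 1 := by
    refine (IsUltrametricDist.norm_add_le_max _ _).trans (max_le ?_ (hpK.trans hA1.le))
    rw [norm_one]
  have hB3 : ‖B‖ ^ 3 < ‖(p : k)‖ := by
    calc ‖B‖ ^ 3 = ‖B‖ ^ 2 * ‖B‖ := by ring
      _ ≤ ‖(p : k)‖ * ‖B‖ := mul_le_mul_of_nonneg_right hU (norm_nonneg _)
      _ < ‖(p : k)‖ := mul_lt_of_lt_one_right hA0 hB1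
  have hfirst : ‖(2 * (H - 1) + r * (r + 1) * B ^ 2) * (1 + p * K)‖ < ‖(p : k)‖ := by
    rw [norm_mul]
    calc ‖2 * (H - 1) + r * (r + 1) * B ^ 2‖ * ‖1 + (p : L) * K‖ ≤ ‖B‖ ^ 3 * 1 :=
          mul_le_mul hexp h1pK (norm_nonneg _) (pow_nonneg (norm_nonneg _) _)
      _ = ‖B‖ ^ 3 := mul_one _
      _ < ‖(p : k)‖ := hB3
  have hrB : ‖(r : L) * (r + 1) * B ^ 2‖ ≤ ‖(p : k)‖ := by
    rw [norm_mul, hrrL, one_mul, norm_pow]
    exact hU
  have hthird : ‖(r : L) * (r + 1) * B ^ 2 * (p * K)‖ < ‖(p : k)‖ := by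
    rw [norm_mul]
    calc ‖(r : L) * (r + 1) * B ^ 2‖ * ‖(p : L) * K‖ ≤ ‖(p : k)‖ * ‖(p : k)‖ :=
          mul_le_mul hrB hpK (norm_nonneg _) (norm_nonneg _)
      _ < ‖(p : k)‖ := mul_lt_of_lt_one_right hA0 hA1
  have hY1 : ‖Y ^ p - 1‖ ≤ ‖(p : k)‖ := by
    have h1 : ‖2 * (Y ^ p - 1)‖ ≤ ‖(p : k)‖ := by
      rw [e1]
      refine (IsUltrametricDist.norm_add_le_max _ _).trans (max_le hfirst.le ?_)
      rw [sub_eq_add_neg]
      refine (IsUltrametricDist.norm_add_le_max _ _).trans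
        (max_le ?_ (by rw [norm_neg]; exact hthird.le))
      rw [sub_eq_add_neg]
      refine (IsUltrametricDist.norm_add_le_max _ _).trans
        (max_le ?_ (by rw [norm_neg]; exact hrB))
      rw [mul_assoc, norm_mul, h2L, one_mul]
      exact hpK
    rw [norm_mul, h2L, one_mul] at h1
    exact h1
  -- `Y = 1 + s`
  have hYn : ‖Y‖ = 1 := by
    have h1 : ‖Y ^ p‖ = 1 := by
      have e : Y ^ p = 1 + (Y ^ p - 1) := by ring
      rw [e]
      exact nrm_one_add (hY1.trans_lt hA1)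
    rw [norm_pow] at h1
    exact (pow_eq_one_iff_of_nonneg (norm_nonneg _) hp.ne_zero).1 h1
  have hs1 : ‖(Y - 1) ^ p - (Y ^ p - 1)‖ ≤ ‖(p : k)‖ := by
    have h1 := norm_add_pow_sub_le hp Y (-1 : L) (by simp)
    rw [hYn, max_self, one_pow, one_mul, mul_one, hpn, hodd.neg_one_pow] at h1
    have e : (Y - 1) ^ p - (Y ^ p - 1) = (Y + -1) ^ p - Y ^ p - -1 := by
      rw [← sub_eq_add_neg]
      ring
    rw [e]
    exact h1
  have hsp : ‖Y - 1‖ ^ p ≤ ‖(p : k)‖ := by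
    rw [← norm_pow]
    have e : (Y - 1) ^ p = ((Y - 1) ^ p - (Y ^ p - 1)) + (Y ^ p - 1) := by ring
    rw [e]
    exact (IsUltrametricDist.norm_add_le_max _ _).trans (max_le hs1 hY1)
  have hsp' : ‖Y - 1‖ ^ p < ‖(p : k)‖ :=
    lt_of_le_of_ne hsp (spectralNorm_pow_ne p hp π hπ0 hπ1 hA hval hL (Y - 1))
  have hslt : ‖Y - 1‖ < 1 := by
    by_contra hcon
    push Not at hcon
    exact absurd (hsp'.trans hA1) (not_lt.2 (one_le_pow₀ hcon))
  have hYlt : ‖Y ^ p - 1‖ < ‖(p : k)‖ := by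
    have h1 := norm_add_pow_sub_le hp (Y - 1) (1 : L) norm_one
    rw [max_eq_left hslt.le, one_pow, one_pow, mul_one, hpn, sub_add_cancel] at h1
    have e : Y ^ p - 1 = (Y ^ p - (Y - 1) ^ p - 1) + (Y - 1) ^ p := by ring
    rw [e]
    refine (IsUltrametricDist.norm_add_le_max _ _).trans_lt (max_lt ?_ ?_)
    · exact h1.trans_lt (mul_lt_of_lt_one_right hA0 hslt)
    · rw [norm_pow]
      exact hsp'
  -- `r (r + 1) B ^ 2 = 2 p κ`
  have hB2 : ‖(r : L) * (r + 1) * B ^ 2 - 2 * p * K‖ < ‖(p : k)‖ := by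
    have e : (r : L) * (r + 1) * B ^ 2 - 2 * p * K =
        (2 * (H - 1) + r * (r + 1) * B ^ 2) * (1 + p * K) +
          (-(2 * (Y ^ p - 1)) + -(r * (r + 1) * B ^ 2 * (p * K))) := by
      rw [e1]
      ring
    rw [e]
    refine (IsUltrametricDist.norm_add_le_max _ _).trans_lt (max_lt hfirst ?_)
    refine (IsUltrametricDist.norm_add_le_max _ _).trans_lt (max_lt ?_ ?_)
    · rw [norm_neg, norm_mul, h2L, one_mul]
      exact hYlt
    · rw [norm_neg]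
      exact hthird
  set D : k := -(2 * κ / (r * (r + 1))) with hD
  have hD1 : ‖D‖ ≤ 1 := by
    rw [hD, norm_neg, norm_div, hrr, div_one, norm_mul, h2n, one_mul]
    exact hκ
  have hDns : ∀ t : k, ¬ ‖t ^ 2 - D‖ < 1 := by
    intro t ht
    apply hNS t
    have e : (r : k) * (r + 1) * t ^ 2 + 2 * κ = r * (r + 1) * (t ^ 2 - D) := by
      rw [hD]
      field_simp
      ring
    rw [e, norm_mul, hrr, one_mul]
    exact ht
  have hfin : ‖B ^ 2 - algebraMap k L (D * π ^ (p - 1))‖ < ‖(p : k)‖ := by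
    have e2 : algebraMap k L (D * π ^ (p - 1)) * (r * (r + 1)) =
        -(2 * K * algebraMap k L (π ^ (p - 1))) := by
      have e3 : (r : L) * (r + 1) = algebraMap k L ((r : k) * (r + 1)) := by
        rw [map_mul, map_add, map_one, map_natCast]
      rw [e3, ← map_mul]
      have e4 : D * π ^ (p - 1) * (r * (r + 1)) = -(2 * κ * π ^ (p - 1)) := by
        rw [hD]
        field_simp
      rw [e4, map_neg, map_mul, map_mul, map_ofNat]
    have e5 : (r : L) * (r + 1) * (B ^ 2 - algebraMap k L (D * π ^ (p - 1))) =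
        (r * (r + 1) * B ^ 2 - 2 * p * K) + 2 * K * algebraMap k L (p + π ^ (p - 1)) := by
      rw [mul_sub, mul_comm ((r : L) * (r + 1)) (algebraMap k L (D * π ^ (p - 1))), e2, map_add,
        map_natCast]
      ring
    have h1 : ‖(r : L) * (r + 1) * (B ^ 2 - algebraMap k L (D * π ^ (p - 1)))‖ < ‖(p : k)‖ := by
      rw [e5]
      refine (IsUltrametricDist.norm_add_le_max _ _).trans_lt (max_lt hB2 ?_)
      rw [norm_mul, norm_mul, h2L, one_mul, hmap (p + π ^ (p - 1))]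
      exact (mul_le_of_le_one_left (norm_nonneg _) hKn).trans_lt hπp
    rw [norm_mul, hrrL, one_mul] at h1
    exact h1
  rw [hUB]
  exact norm_one_add_crit (k := k) p hp hodd π hπ0 hπ1 hA hval D hD1 hDns B hU hfin

end norms

end Pool.Agent.MP009fd8F
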