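import Pool.Agent.Lib.MP_009fd8_agF.Omega

/-!
MP_009fd8_ag, general r: solutions of `U ^ r ((r + 1) - r U) (1 + p κ) = Y ^ p` over an
algebraically closed field of residue characteristic `p`.
-/

set_option autoImplicit false

namespace Pool.Agent.MP009fd8F

open Polynomial

section omega

variable {Ω : Type*} [NormedField Ω] [IsUltrametricDist Ω] [IsAlgClosed Ω]

/-- The root near `X₀`. -/
theorem exists_near_root_ns {p r : ℕ} (hp : p.Prime) (hodd : Odd p) (hr1 : 1 ≤ r)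
    (hr2 : r + 2 ≤ p) (hplt : ‖(p : Ω)‖ < 1) {ζ₀ : Ω} (hζ₀ : IsPrimitiveRoot ζ₀ p)
    {U Y X₀ κ : Ω} (hκ : ‖κ‖ ≤ 1) (hU : U ≠ 0)
    (h : U ^ r * ((r + 1 : Ω) - r * U) * (1 + p * κ) = Y ^ p) (hX : X₀ ^ p = U) (h1 : X₀ ≠ 1) :
    ∃ ζ T : Ω, ζ ^ p = 1 ∧ (X₀ + T) ^ r * ((r + 1 : Ω) - r * (X₀ + T)) = ζ * Y ∧
      (‖T‖ * (‖X₀‖ ^ (r - 1) * ‖X₀ - 1‖)) ^ p ≤
        ‖X₀‖ ^ (p * r) * (‖(p : Ω)‖ * (max 1 ‖X₀‖) ^ p) := by
  have hX0 : X₀ ≠ 0 := by
    rintro rfl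
    rw [zero_pow hp.ne_zero] at hX
    exact hU hX.symm
  have hnr : ‖(r : Ω)‖ = 1 := norm_natCast_eq_one (coprime_of_lt hp hr1 (by omega)) hplt
  have hnr1 : ‖((r : Ω) + 1)‖ = 1 := by
    have := norm_natCast_eq_one (L := Ω) (coprime_of_lt hp (r := r + 1) (by omega) (by omega)) hplt
    rwa [Nat.cast_add, Nat.cast_one] at this
  obtain ⟨ζ, hζ, hle⟩ := exists_root_of_unity hp.pos hζ₀ (X₀ ^ r * ((r + 1 : Ω) - r * X₀)) Y
  set P : Polynomial Ω := (X + C X₀) ^ r * (C (r + 1 : Ω) - C (r : Ω) * (X + C X₀)) - C (ζ * Y)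
    with hPdef
  have hPe : ∀ T : Ω, P.eval T = (T + X₀) ^ r * ((r + 1 : Ω) - r * (T + X₀)) - ζ * Y := by
    intro T
    rw [hPdef]
    simp only [eval_sub, eval_mul, eval_pow, eval_add, eval_X, eval_C]
  have hPd : P.derivative.eval 0 = (r : Ω) * (r + 1) * (X₀ ^ (r - 1) * (1 - X₀)) := by
    rw [hPdef]
    simp only [derivative_sub, derivative_mul, derivative_pow, derivative_add, derivative_X,
      derivative_C, eval_sub, eval_mul, eval_pow, eval_add, eval_X, eval_C, eval_one, eval_zero]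
    obtain ⟨q, rfl⟩ : ∃ q, r = q + 1 := ⟨r - 1, by omega⟩
    rw [Nat.add_sub_cancel]
    push_cast
    ring
  have hPd0 : P.derivative.eval 0 ≠ 0 := by
    rw [hPd]
    refine mul_ne_zero (mul_ne_zero ?_ ?_) (mul_ne_zero (pow_ne_zero _ hX0) ?_)
    · rw [← norm_ne_zero_iff, hnr]; exact one_ne_zero
    · rw [← norm_ne_zero_iff, hnr1]; exact one_ne_zero
    · rw [sub_ne_zero]; exact h1.symm
  obtain ⟨T, hT, hTle⟩ := exists_small_root P hPd0
  refine ⟨ζ, T, hζ, ?_, ?_⟩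
  · rw [hPe] at hT
    rw [add_comm X₀ T]
    linear_combination hT
  · rw [hPd, hPe, norm_mul, norm_mul, hnr, hnr1, one_mul, one_mul, norm_mul, norm_pow, zero_add,
      norm_sub_rev (1 : Ω)] at hTle
    refine (pow_le_pow_left₀ (by positivity) hTle p).trans (hle.trans ?_)
    set M := max 1 ‖X₀‖ with hM
    have hM1 : 1 ≤ M := le_max_left _ _
    have hXM : ‖X₀‖ ≤ M := le_max_right _ _
    have hMp : (1 : ℝ) ≤ M ^ p := one_le_pow₀ hM1
    have e : (X₀ ^ r * ((r + 1 : Ω) - r * X₀)) ^ p - Y ^ p =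
        X₀ ^ (p * r) * (-(((r + 1 : Ω) - r * X₀ ^ p) - ((r + 1 : Ω) - r * X₀) ^ p) +
          -((p : Ω) * (κ * ((r + 1 : Ω) - r * X₀ ^ p)))) := by
      rw [← h, ← hX, mul_pow, ← pow_mul, ← pow_mul, mul_comm r p]
      ring
    rw [e, norm_mul, norm_pow]
    apply mul_le_mul_of_nonneg_left _ (pow_nonneg (norm_nonneg _) _)
    refine (nadd _ _).trans (max_le ?_ ?_)
    · rw [norm_neg]
      exact norm_D_le hp hodd r X₀
    · rw [norm_neg, norm_mul]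
      apply mul_le_mul_of_nonneg_left _ (norm_nonneg _)
      rw [norm_mul]
      have h2 : ‖(r + 1 : Ω) - r * X₀ ^ p‖ ≤ M ^ p := by
        refine (nsub _ _).trans (max_le ?_ ?_)
        · rw [hnr1]
          exact hMp
        · rw [norm_mul, hnr, one_mul, norm_pow]
          exact pow_le_pow_left₀ (norm_nonneg _) hXM p
      calc ‖κ‖ * ‖(r + 1 : Ω) - r * X₀ ^ p‖ ≤ 1 * M ^ p :=
            mul_le_mul hκ h2 (norm_nonneg _) zero_le_one
        _ = M ^ p := one_mul _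

/-- The local step over an algebraically closed field, with a factor `1 + p κ`. -/
theorem omega_step_ns {p r : ℕ} (hp : p.Prime) (hodd : Odd p) (hr1 : 1 ≤ r) (hr2 : r + 2 ≤ p)
    (hplt : ‖(p : Ω)‖ < 1) (hpos : 0 < ‖(p : Ω)‖) {ζ₀ : Ω} (hζ₀ : IsPrimitiveRoot ζ₀ p)
    {U Y κ : Ω} (hκ : ‖κ‖ ≤ 1) (hU : U ≠ 0)
    (h : U ^ r * ((r + 1 : Ω) - r * U) * (1 + p * κ) = Y ^ p) :
    ‖U - 1‖ ^ 2 ≤ ‖(p : Ω)‖ ∨
    ∃ ζ ρ δ : Ω, ζ ^ p = 1 ∧ ρ ≠ 0 ∧ ρ ^ r * ((r + 1 : Ω) - r * ρ) = ζ * Y ∧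
      U * (1 + δ) = ρ ^ p ∧ ‖δ‖ ^ 2 < ‖(p : Ω)‖ := by
  have hp3 : 3 ≤ p := by omega
  obtain ⟨X₀, hX⟩ : ∃ X₀ : Ω, X₀ ^ p = U := IsAlgClosed.exists_pow_nat_eq U hp.pos
  have hX0 : X₀ ≠ 0 := by
    rintro rfl
    rw [zero_pow hp.ne_zero] at hX
    exact hU hX.symm
  have hXpos : 0 < ‖X₀‖ := norm_pos_iff.2 hX0
  set A : ℝ := ‖(p : Ω)‖ with hA
  have hA2 : A ^ 2 < A := by
    rw [sq]
    exact mul_lt_of_lt_one_right hpos hplt
  -- the final step: a root `X₀ (1 + s)` with `s` small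
  have hfin : ∀ ζ T : Ω, ζ ^ p = 1 → (X₀ + T) ^ r * ((r + 1 : Ω) - r * (X₀ + T)) = ζ * Y →
      ((‖T‖ / ‖X₀‖) ^ p) ^ 2 < A →
      ∃ ζ ρ δ : Ω, ζ ^ p = 1 ∧ ρ ≠ 0 ∧ ρ ^ r * ((r + 1 : Ω) - r * ρ) = ζ * Y ∧
        U * (1 + δ) = ρ ^ p ∧ ‖δ‖ ^ 2 < A := by
    intro ζ T hζ hT hTl
    set s : Ω := T / X₀ with hs
    have hTs : T = X₀ * s := by rw [hs]; field_simp
    have hsT : ‖s‖ = ‖T‖ / ‖X₀‖ := by rw [hs, norm_div]
    rw [← hsT] at hTl
    have hs1 : ‖s‖ < 1 := by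
      by_contra hcon
      push Not at hcon
      have h3 : 1 ≤ (‖s‖ ^ p) ^ 2 := one_le_pow₀ (one_le_pow₀ hcon)
      linarith
    have h1s : 1 + s ≠ 0 := by
      intro h0
      have h9 : s = -1 := by linear_combination h0
      rw [h9, norm_neg, norm_one] at hs1
      exact lt_irrefl _ hs1
    have hρ : X₀ + T = X₀ * (1 + s) := by rw [hTs]; ring
    refine ⟨ζ, X₀ + T, (1 + s) ^ p - 1, hζ, ?_, hT, ?_, ?_⟩
    · rw [hρ]; exact mul_ne_zero hX0 h1s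
    · rw [hρ, mul_pow, hX]; ring
    · have h3 := norm_one_add_pow_sub_one hp hs1.le
      refine (pow_le_pow_left₀ (norm_nonneg _) h3 2).trans_lt ?_
      rcases max_cases (‖s‖ ^ p) (‖(p : Ω)‖ * ‖s‖) with ⟨h5, _⟩ | ⟨h5, _⟩
      · rw [h5]; exact hTl
      · rw [h5]
        refine (pow_le_pow_left₀ (mul_nonneg (norm_nonneg _) (norm_nonneg _))
          (mul_le_of_le_one_right (norm_nonneg _) hs1.le) 2).trans_lt hA2
  rcases le_or_gt 1 ‖X₀ - 1‖ with h1 | h1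
  · right
    have hX1 : X₀ ≠ 1 := by
      rintro rfl
      rw [sub_self, norm_zero] at h1
      exact absurd h1 (by norm_num)
    obtain ⟨ζ, T, hζ, hT, h2⟩ := exists_near_root_ns hp hodd hr1 hr2 hplt hζ₀ hκ hU h hX hX1
    refine hfin ζ T hζ hT ?_
    have hkey : ‖T‖ ^ p ≤ A * ‖X₀‖ ^ p := by
      rcases le_or_gt ‖X₀‖ 1 with h3 | h3
      · rw [max_eq_left h3, one_pow, mul_one] at h2
        have h4 : (‖T‖ * ‖X₀‖ ^ (r - 1)) ^ p ≤ ‖X₀‖ ^ (p * r) * A := by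
          refine le_trans (pow_le_pow_left₀ (by positivity) ?_ p) h2
          exact mul_le_mul_of_nonneg_left (le_mul_of_one_le_right (by positivity) h1)
            (norm_nonneg _)
        rw [mul_pow, ← pow_mul] at h4
        have h5 : ‖X₀‖ ^ (p * r) = ‖X₀‖ ^ ((r - 1) * p) * ‖X₀‖ ^ p := by
          rw [← pow_add]
          congr 1
          obtain ⟨q, rfl⟩ : ∃ q, r = q + 1 := ⟨r - 1, by omega⟩
          rw [Nat.add_sub_cancel]; ring
        have h6 : 0 < ‖X₀‖ ^ ((r - 1) * p) := pow_pos hXpos _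
        have h7 : ‖X₀‖ ^ ((r - 1) * p) * ‖T‖ ^ p ≤ ‖X₀‖ ^ ((r - 1) * p) * (A * ‖X₀‖ ^ p) := by
          calc ‖X₀‖ ^ ((r - 1) * p) * ‖T‖ ^ p = ‖T‖ ^ p * ‖X₀‖ ^ ((r - 1) * p) := mul_comm _ _
            _ ≤ _ := h4
            _ = _ := by rw [h5]; ring
        exact le_of_mul_le_mul_left h7 h6
      · rw [max_eq_right h3.le] at h2
        have h8 : ‖X₀ - 1‖ = ‖X₀‖ := by
          have : ‖X₀ + (-1)‖ = max ‖X₀‖ ‖(-1 : Ω)‖ :=
            IsUltrametricDist.norm_add_eq_max_of_norm_ne_norm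
              (by rw [norm_neg, norm_one]; exact h3.ne')
          rw [sub_eq_add_neg, this, norm_neg, norm_one, max_eq_left h3.le]
        rw [h8, ← pow_succ, Nat.sub_add_cancel hr1, mul_pow, ← pow_mul] at h2
        have h6 : 0 < ‖X₀‖ ^ (p * r) := pow_pos hXpos _
        refine le_of_mul_le_mul_left ?_ h6
        calc ‖X₀‖ ^ (p * r) * ‖T‖ ^ p = ‖T‖ ^ p * ‖X₀‖ ^ (r * p) := by rw [mul_comm, mul_comm p r]
          _ ≤ _ := h2
    have h9 : (‖T‖ / ‖X₀‖) ^ p ≤ A := by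
      rw [div_pow, div_le_iff₀ (pow_pos hXpos _)]
      exact hkey
    exact (pow_le_pow_left₀ (by positivity) h9 2).trans_lt hA2
  · set t : ℝ := ‖X₀ - 1‖ with ht
    have ht0 : 0 ≤ t := norm_nonneg _
    have hnX : ‖X₀‖ = 1 := by
      have e : X₀ = 1 + (X₀ - 1) := by ring
      rw [e, IsUltrametricDist.norm_add_eq_max_of_norm_ne_norm
        (by rw [norm_one]; exact h1.ne'), norm_one, max_eq_left h1.le]
    rcases le_or_gt ((t ^ p) ^ 2) A with h2 | h2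
    · left
      have e : U - 1 = (1 + (X₀ - 1)) ^ p - 1 := by rw [add_sub_cancel, hX]
      have h3 := norm_one_add_pow_sub_one hp (s := X₀ - 1) h1.le
      rw [← e, ← ht] at h3
      refine (pow_le_pow_left₀ (norm_nonneg _) h3 2).trans ?_
      rcases max_cases (t ^ p) (‖(p : Ω)‖ * t) with ⟨h5, _⟩ | ⟨h5, _⟩
      · rw [h5]; exact h2
      · rw [h5]
        exact ((pow_le_pow_left₀ (mul_nonneg (norm_nonneg _) ht0)
          (mul_le_of_le_one_right (norm_nonneg _) h1.le) 2).trans_lt hA2).le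
    · right
      have htpos : 0 < t := by
        rcases ht0.lt_or_eq with h0 | h0
        · exact h0
        · rw [← h0, zero_pow hp.ne_zero, zero_pow two_ne_zero] at h2
          exact absurd h2 (not_lt.2 hpos.le)
      have hX1 : X₀ ≠ 1 := by
        rintro rfl
        rw [sub_self, norm_zero] at ht
        exact absurd htpos (by rw [ht]; exact lt_irrefl _)
      obtain ⟨ζ, T, hζ, hT, hTle⟩ := exists_near_root_ns hp hodd hr1 hr2 hplt hζ₀ hκ hU h hX hX1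
      refine hfin ζ T hζ hT ?_
      rw [hnX, max_self, one_pow, one_pow, one_pow, one_mul, one_mul, mul_one, mul_pow] at hTle
      rw [hnX, div_one]
      have h4 : (‖T‖ ^ p) ^ 2 * (t ^ p) ^ 2 ≤ A ^ 2 := by
        rw [← mul_pow]
        exact pow_le_pow_left₀ (by positivity) hTle 2
      by_contra hcon
      push Not at hcon
      have h5 : A * A < (‖T‖ ^ p) ^ 2 * (t ^ p) ^ 2 := by
        calc A * A < A * (t ^ p) ^ 2 := mul_lt_mul_of_pos_left h2 hpos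
          _ ≤ (‖T‖ ^ p) ^ 2 * (t ^ p) ^ 2 := mul_le_mul_of_nonneg_right hcon (by positivity)
      rw [← sq] at h5
      exact absurd h4 (not_le.2 h5)

end omega

end Pool.Agent.MP009fd8F
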