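import Pool.Agent.Lib.MP_009fd8_agF.Loc
import Pool.Agent.Lib.MP_009fd8_agF.OmegaNS
import Pool.Agent.Lib.MP_009fd8_agF.NSmall

/-!
MP_009fd8_ag, general r: the local step above `p`, in norm form, non-square case.
-/

set_option autoImplicit false

namespace Pool.Agent.MP009fd8F

open Pool.Agent.MP009fd8J (Near Near.mul Near.inv norm_algebraNorm
  norm_algebraNorm_one_add_sub_one spectralNorm_algHom)
open Polynomial

theorem local_step_ns {k : Type*} [NontriviallyNormedField k] [IsUltrametricDist k]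
    [CompleteSpace k] [CharZero k] {L : Type*} [Field L] [Algebra k L] [FiniteDimensional k L]
    {p r : ℕ} (hp : p.Prime) (hr1 : 1 ≤ r) (hr2 : r + 2 ≤ p)
    (π : k) (hπ0 : 0 < ‖π‖) (hπ1 : ‖π‖ < 1) (hA : ‖(p : k)‖ = ‖π‖ ^ (p - 1))
    (hπp : ‖(p : k) + π ^ (p - 1)‖ < ‖(p : k)‖)
    (hval : ∀ a : k, a ≠ 0 → ∃ j : ℤ, ‖a‖ = ‖π‖ ^ j)
    {β : ℝ} (hβ0 : 0 ≤ β) (hβ : β ^ 2 = ‖π‖ ^ (p + 1))
    {ζ₀ : k} (hζ₀ : IsPrimitiveRoot ζ₀ p) (κ : k) (hκ : ‖κ‖ ≤ 1)
    (hNS : ∀ t : k, ¬ ‖r * (r + 1) * t ^ 2 + 2 * κ‖ < 1) (hL : Module.finrank k L < p)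
    {U Y : L} (hU : U ≠ 0)
    (h : U ^ r * ((r + 1 : L) - r * U) * (1 + p * algebraMap k L κ) = Y ^ p) :
    ∃ d : ℕ, 1 ≤ d ∧ d < p ∧ Near p β ((Algebra.norm k U) ^ d) := by
  have hodd : Odd p := hp.odd_of_ne_two (by omega)
  have hβ1 : β < 1 := by
    have h1 : ‖π‖ ^ (p + 1) < 1 := pow_lt_one₀ hπ0.le hπ1 (by omega)
    rw [← hβ] at h1
    by_contra hcon
    push Not at hcon
    have h2 : 1 ≤ β ^ 2 := one_le_pow₀ hcon
    linarith
  have hconv : ∀ x : ℝ, 0 ≤ x → x ^ 2 ≤ ‖π‖ ^ (p + 1) → x ≤ β := by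
    intro x hx h1
    rw [← hβ] at h1
    exact (pow_le_pow_iff_left₀ hx hβ0 (by norm_num)).1 h1
  have hA1 : ‖(p : k)‖ < 1 := by
    rw [hA]
    exact pow_lt_one₀ hπ0.le hπ1 (by omega)
  have hA0 : 0 < ‖(p : k)‖ := by
    rw [hA]
    exact pow_pos hπ0 _
  -- discreteness
  have hdisc : ∀ z : k, ‖z‖ ^ 2 < ‖(p : k)‖ → ‖z‖ ≤ β := by
    intro z hz
    apply hconv _ (norm_nonneg _)
    rcases eq_or_ne z 0 with rfl | hz0
    · rw [norm_zero, zero_pow two_ne_zero]
      exact (pow_pos hπ0 _).le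
    · obtain ⟨j, hj⟩ := hval z hz0
      rw [hj, ← zpow_natCast, ← zpow_mul, ← zpow_natCast ‖π‖ (p + 1)]
      rw [hj, hA, ← zpow_natCast, ← zpow_mul, ← zpow_natCast ‖π‖ (p - 1)] at hz
      have h1 : ((p - 1 : ℕ) : ℤ) < j * ((2 : ℕ) : ℤ) :=
        (zpow_lt_zpow_iff_right_of_lt_one₀ hπ0 hπ1).1 hz
      apply (zpow_le_zpow_iff_right_of_lt_one₀ hπ0 hπ1).2
      obtain ⟨q, hq⟩ := hodd
      push_cast at h1 ⊢
      omega
  have : CharZero L := charZero_of_injective_algebraMap (algebraMap k L).injective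
  let Ω := AlgebraicClosure L
  haveI halgΩ : Algebra.IsAlgebraic k Ω := Algebra.IsAlgebraic.trans k L Ω
  let i1 : NormedField Ω := spectralNorm.normedField k Ω
  let i2 : NormedAlgebra k Ω := spectralNorm.normedAlgebra k Ω
  haveI i3 : IsUltrametricDist Ω :=
    IsUltrametricDist.isUltrametricDist_of_isNonarchimedean_norm isNonarchimedean_spectralNorm
  have hnorm : ∀ t : Ω, ‖t‖ = spectralNorm k Ω t := fun t => rfl
  have hpΩ : ‖(p : Ω)‖ = ‖(p : k)‖ := by
    rw [← map_natCast (algebraMap k Ω) p]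
    exact norm_algebraMap' Ω (p : k)
  have hζΩ : IsPrimitiveRoot (algebraMap k Ω ζ₀) p :=
    hζ₀.map_of_injective (algebraMap k Ω).injective
  set U' : Ω := algebraMap L Ω U with hU'
  set Y' : Ω := algebraMap L Ω Y with hY'
  have hU'0 : U' ≠ 0 := by rw [hU']; exact (map_ne_zero (algebraMap L Ω)).2 hU
  have hκΩ : ‖algebraMap k Ω κ‖ ≤ 1 := by
    rw [show ‖algebraMap k Ω κ‖ = ‖κ‖ from norm_algebraMap' Ω κ]
    exact hκ
  have h' : U' ^ r * ((r + 1 : Ω) - r * U') * (1 + p * algebraMap k Ω κ) = Y' ^ p := by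
    have e1 : algebraMap k Ω κ = algebraMap L Ω (algebraMap k L κ) :=
      IsScalarTower.algebraMap_apply k L Ω κ
    have := congrArg (algebraMap L Ω) h
    rw [e1]
    simpa using this
  rcases omega_step_ns hp hodd hr1 hr2 (hpΩ.trans_lt hA1) (hA0.trans_eq hpΩ.symm) hζΩ hκΩ hU'0 h'
    with h1 | ⟨ζ, ρ, δ, h1, h2, h3, h4, h5⟩
  · refine ⟨1, le_rfl, hp.one_lt, ?_⟩
    rw [pow_one]
    rw [hpΩ] at h1
    have h2 : ‖U' - 1‖ = spectralNorm k L (U - 1) := by
      rw [hnorm, ← spectralNorm_algHom (IsScalarTower.toAlgHom k L Ω) (U - 1)]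
      congr 1
      rw [map_sub, map_one]
      rfl
    rw [h2] at h1
    have h4 := ns_small p r hp hr1 hr2 π hπ0 hπ1 hA hπp hval κ hκ hNS hL U Y h1 h
    exact ⟨1, Algebra.norm k U - 1, one_ne_zero, hconv _ (norm_nonneg _) h4, by ring⟩
  · rw [hpΩ] at h5
    have hδ1 : ‖δ‖ < 1 := (sq_lt_one_iff₀ (norm_nonneg _)).1 (h5.trans hA1)
    -- the field generated by `ρ`
    haveI : NeZero p := ⟨hp.ne_zero⟩
    obtain ⟨i, _, hi⟩ := hζΩ.eq_pow_of_pow_eq_one h1
    have hρint : IsIntegral L ρ := (Algebra.IsAlgebraic.isAlgebraic (R := L) ρ).isIntegral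
    set M := IntermediateField.adjoin L {ρ} with hM
    haveI hfdM : FiniteDimensional L M := IntermediateField.adjoin.finiteDimensional hρint
    haveI hfdkM : FiniteDimensional k M := FiniteDimensional.trans k L M
    haveI : IsScalarTower k M Ω := IsScalarTower.of_algebraMap_eq fun x => by
      rw [IsScalarTower.algebraMap_apply k L Ω, IsScalarTower.algebraMap_apply k L M,
        ← IsScalarTower.algebraMap_apply L M Ω]
    -- the degree
    set Q : Polynomial L := X ^ r * (C (r + 1 : L) - C (r : L) * X) -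
      C ((algebraMap k L ζ₀) ^ i * Y) with hQ
    have hQdeg : Q.natDegree ≤ r + 1 := by
      rw [hQ]
      compute_degree
    have hQcoeff : Q.coeff (r + 1) = -(r : L) := by
      rw [hQ, coeff_sub, coeff_C_ne_zero (by omega), sub_zero, mul_comm, add_comm r 1,
        coeff_mul_X_pow, coeff_sub, coeff_C_mul, coeff_X_one, mul_one,
        coeff_C_ne_zero one_ne_zero, zero_sub]
    have hQ0 : Q ≠ 0 := by
      intro h0
      rw [h0, coeff_zero] at hQcoeff
      have h6 : (r : L) = 0 := by linear_combination hQcoeff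
      rw [Nat.cast_eq_zero] at h6
      omega
    have hQρ : aeval ρ Q = 0 := by
      have e1 : algebraMap L Ω (algebraMap k L ζ₀ ^ i * Y) = ζ * Y' := by
        rw [map_mul, map_pow, ← IsScalarTower.algebraMap_apply k L Ω, hi]
      rw [hQ]
      simp only [map_sub, map_mul, map_pow, aeval_X, aeval_C]
      rw [← map_pow, ← map_mul, e1, ← h3]
      simp
    have hdeg : (minpoly L ρ).natDegree ≤ r + 1 :=
      (Polynomial.natDegree_le_of_dvd (minpoly.dvd L ρ hQρ) hQ0).trans hQdeg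
    have hfr : Module.finrank L M = (minpoly L ρ).natDegree :=
      IntermediateField.adjoin.finrank hρint
    refine ⟨Module.finrank L M, Module.finrank_pos, by rw [hfr]; omega, ?_⟩
    -- the elements
    set ρM : M := IntermediateField.AdjoinSimple.gen L ρ with hρM
    have hρM' : algebraMap M Ω ρM = ρ := IntermediateField.AdjoinSimple.algebraMap_gen L ρ
    set UM : M := algebraMap L M U with hUM
    have hUM' : algebraMap M Ω UM = U' := by
      rw [hUM, ← IsScalarTower.algebraMap_apply L M Ω]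
    have hUM0 : UM ≠ 0 := by rw [hUM]; exact (map_ne_zero (algebraMap L M)).2 hU
    have hρM0 : ρM ≠ 0 := by
      intro h0
      rw [h0, map_zero] at hρM'
      exact h2 hρM'.symm
    set δM : M := ρM ^ p / UM - 1 with hδM
    have hδM' : algebraMap M Ω δM = δ := by
      rw [hδM, map_sub, map_div₀, map_pow, hρM', hUM', map_one, ← h4]
      field_simp
      ring
    have heq : UM * (1 + δM) = ρM ^ p := by
      rw [hδM, add_sub_cancel]
      field_simp
    have hδn : spectralNorm k M δM = ‖δ‖ := by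
      rw [hnorm, ← hδM', ← spectralNorm_algHom (IsScalarTower.toAlgHom k M Ω) δM]
      rfl
    have h7 := norm_algebraNorm_one_add_sub_one (k := k) δM (by rw [hδn]; exact hδ1.le)
    rw [hδn] at h7
    have h10 : ‖Algebra.norm k (1 + δM) - 1‖ ≤ β :=
      hdisc _ ((pow_le_pow_left₀ (norm_nonneg _) h7 2).trans_lt h5)
    have h8 := congrArg (Algebra.norm k) heq
    rw [map_mul, map_pow] at h8
    have h9 : Algebra.norm k UM = Algebra.norm k U ^ Module.finrank L M := by
      rw [hUM, ← Algebra.norm_norm (S := L), Algebra.norm_algebraMap, map_pow]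
    rw [h9] at h8
    refine near_of_mul_eq hβ1 (c := Algebra.norm k ρM) (z := Algebra.norm k (1 + δM) - 1)
      (Algebra.norm_ne_zero_iff.2 hρM0) h10 ?_
    rw [add_sub_cancel]
    exact h8

end Pool.Agent.MP009fd8F
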