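import Pool.Agent.Lib.MP_009fd8_agF.Def
import Pool.Agent.Lib.MP_009fd8_agF.LocNS

/-!
MP_009fd8_ag, general r: the image at the places above `p`, from the local step.
-/

set_option autoImplicit false

namespace Pool.Agent.MP009fd8F

open Pool.Agent.MP009fd8J (Near Near.mul Near.inv)

universe u

/-- Integers prime to `p` are near to `p`-th powers. -/
theorem near_natCast {k : Type*} [NormedField k] [IsUltrametricDist k] {p m : ℕ} (hp : p.Prime)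
    {β : ℝ} (hplt : ‖(p : k)‖ < 1) (hpβ : ‖(p : k)‖ ≤ β) (hm : Nat.Coprime m p) :
    Near p β (m : k) := by
  have h1 : ‖(m : k)‖ = 1 := norm_natCast_eq_one hm hplt
  have h0 : (m : k) ≠ 0 := by
    rw [← norm_ne_zero_iff, h1]
    exact one_ne_zero
  have h2 : (m : k) ^ p ≠ 0 := pow_ne_zero _ h0
  refine ⟨m, -(((m : k) ^ p - m) / (m : k) ^ p), h0, ?_, ?_⟩
  · rw [norm_neg, norm_div, norm_pow, h1, one_pow, div_one]
    exact (norm_pow_sub_self_le hp m).trans hpβ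
  · field_simp
    ring

/-- The image at a place above `p`, from the local step. -/
theorem image_of_local {k : Type u} [NormedField k] [IsUltrametricDist k] [CharZero k]
    {p r : ℕ} (hp : p.Prime) (hr1 : 1 ≤ r) (hr2 : r + 2 ≤ p) {β : ℝ} (hβ1 : β < 1)
    (hpβ : ‖(p : k)‖ ≤ β) (κ : k) (hκ : ‖κ‖ ≤ 1)
    (hloc : ∀ (L : Type u) (_ : Field L) (_ : Algebra k L), FiniteDimensional k L →
      Module.finrank k L < p → ∀ U Y : L, U ≠ 0 →
        U ^ r * ((r + 1 : L) - r * U) * (1 + p * algebraMap k L κ) = Y ^ p →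
        ∃ d : ℕ, 1 ≤ d ∧ d < p ∧ Near p β ((Algebra.norm k U) ^ d))
    {n g : k} (hn : n ≠ 0) (hg : g ≠ 0)
    (hc : n ^ (r + 1) * r ^ r = (r + 1) ^ (r + 1) * (g ^ p * (1 + p * κ)))
    {a : k} (h : InImage p r n a) : Near p β a := by
  have hodd : Odd p := hp.odd_of_ne_two (by omega)
  have hβ0 : 0 ≤ β := (norm_nonneg _).trans hpβ
  have hplt : ‖(p : k)‖ < 1 := hpβ.trans_lt hβ1
  have hcr : Nat.Coprime r p := coprime_of_lt hp hr1 (by omega)
  have hcr1 : Nat.Coprime (r + 1) p := coprime_of_lt hp (by omega) (by omega)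
  have hNr : Near p β (r : k) := near_natCast hp hplt hpβ hcr
  have hNr1 : Near p β ((r : k) + 1) := by
    have := near_natCast (k := k) hp hplt hpβ hcr1
    rwa [Nat.cast_add, Nat.cast_one] at this
  have hr0 : (r : k) ≠ 0 := by
    rw [Nat.cast_ne_zero]
    omega
  have hr10 : (r : k) + 1 ≠ 0 := by
    have : ((r + 1 : ℕ) : k) ≠ 0 := Nat.cast_ne_zero.2 (by omega)
    rwa [Nat.cast_add, Nat.cast_one] at this
  have hNm1 : Near p β (-1 : k) :=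
    ⟨-1, 0, by simp, by rw [norm_zero]; exact hβ0, by rw [hodd.neg_one_pow]; ring⟩
  have hNκ : Near p β (1 + (p : k) * κ) := by
    refine ⟨1, p * κ, one_ne_zero, ?_, by ring⟩
    rw [norm_mul]
    exact (mul_le_of_le_one_right (norm_nonneg _) hκ).trans hpβ
  -- `n` is near
  have hNn : Near p β n := by
    refine near_of_pow hp hβ0 hβ1 hn hcr1 ?_
    have e : n ^ (r + 1) = ((r : k) + 1) ^ (r + 1) * (g ^ p * (1 + p * κ)) * ((r : k) ^ r)⁻¹ := by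
      rw [← hc]
      field_simp
    rw [e]
    exact Near.mul hβ1 (Near.mul hβ1 (Near.pow hβ0 hβ1 hNr1 _)
      (Near.mul hβ1 (near_pow_p hβ0 hg) hNκ)) (Near.inv hβ1 (Near.pow hβ0 hβ1 hNr _))
  refine InImage.induction (P := Near p β) (fun c hc => near_pow_p hβ0 hc) (fun _ => hNn) ?_
    (fun a b _ _ ha hb => Near.mul hβ1 ha hb) (fun a _ ha => Near.inv hβ1 ha) h
  rintro b hb ⟨L, i1, i2, hfd, hlt, x, y, hx, hxn, hxy, rfl⟩
  obtain ⟨c, hcdef⟩ : ∃ c : k, c = -(r * n / (r + 1)) := ⟨_, rfl⟩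
  have hc0 : c ≠ 0 := by
    rw [hcdef]
    exact neg_ne_zero.2 (div_ne_zero (mul_ne_zero hr0 hn) hr10)
  have hNc : Near p β c := by
    have e : c = (-1) * ((r : k) * n * ((r : k) + 1)⁻¹) := by
      rw [hcdef]
      field_simp
    rw [e]
    exact Near.mul hβ1 hNm1 (Near.mul hβ1 (Near.mul hβ1 hNr hNn) (Near.inv hβ1 hNr1))
  obtain ⟨C, hCdef⟩ : ∃ C : L, C = algebraMap k L c := ⟨_, rfl⟩
  have hC0 : C ≠ 0 := by
    rw [hCdef]
    exact (map_ne_zero _).2 hc0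
  obtain ⟨U, hUdef⟩ : ∃ U : L, U = x / C := ⟨_, rfl⟩
  have hU0 : U ≠ 0 := by
    rw [hUdef]
    exact div_ne_zero hx hC0
  have hxU : x = C * U := by
    rw [hUdef]
    field_simp
  obtain ⟨G, hGdef⟩ : ∃ G : L, G = algebraMap k L g := ⟨_, rfl⟩
  have hG0 : G ≠ 0 := by
    rw [hGdef]
    exact (map_ne_zero _).2 hg
  obtain ⟨N, hNdef⟩ : ∃ N : L, N = algebraMap k L n := ⟨_, rfl⟩
  rw [← hNdef] at hxn hxy
  have hrL : (r : L) ≠ 0 := by
    rw [← map_natCast (algebraMap k L) r]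
    exact (map_ne_zero _).2 hr0
  have hrL1 : (r : L) + 1 ≠ 0 := by
    have e : (r : L) + 1 = algebraMap k L ((r : k) + 1) := by
      rw [map_add, map_natCast, map_one]
    rw [e]
    exact (map_ne_zero _).2 hr10
  have hC : C * (r + 1) = -(r * N) := by
    have e : algebraMap k L (c * ((r : k) + 1)) = algebraMap k L (-(r * n)) := by
      congr 1
      rw [hcdef]
      field_simp
    rw [map_mul, map_add, map_natCast, map_one, map_neg, map_mul, map_natCast, ← hCdef,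
      ← hNdef] at e
    exact e
  have hcL : N ^ (r + 1) * (r : L) ^ r =
      ((r : L) + 1) ^ (r + 1) * (G ^ p * (1 + p * algebraMap k L κ)) := by
    have := congrArg (algebraMap k L) hc
    rw [hNdef, hGdef]
    simpa using this
  have hUY : U ^ r * ((r + 1 : L) - r * U) * (1 + p * algebraMap k L κ) =
      ((-1) ^ r * y / G) ^ p := by
    have e1 : ((-1 : L) ^ r) ^ p = (-1) ^ r := by
      rw [← pow_mul, mul_comm, pow_mul, hodd.neg_one_pow]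
    rw [div_pow, mul_pow, e1, ← hxy, eq_div_iff (pow_ne_zero _ hG0)]
    have e2 : x + N = -(C * ((r + 1 : L) - r * U)) / r := by
      rw [eq_div_iff hrL, hxU]
      linear_combination hC
    have e3 : ((r : L) + 1) ^ (r + 1) * (U ^ r * ((r + 1 : L) - r * U) *
        (1 + p * algebraMap k L κ) * G ^ p) =
        ((r : L) + 1) ^ (r + 1) * ((-1) ^ r * (x ^ r * (x + N))) := by
      have e4 : ((r : L) + 1) ^ (r + 1) * (U ^ r * ((r + 1 : L) - r * U) *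
        (1 + p * algebraMap k L κ) * G ^ p) = U ^ r * ((r + 1 : L) - r * U) *
          (N ^ (r + 1) * (r : L) ^ r) := by
        rw [hcL]
        ring
      have e5 : ((r : L) + 1) ^ (r + 1) * C ^ (r + 1) =
          (-1) ^ (r + 1) * (r ^ (r + 1) * N ^ (r + 1)) := by
        rw [← mul_pow, mul_comm ((r : L) + 1) C, hC, neg_pow, mul_pow]
      rw [e4, e2, hxU, mul_pow]
      have e6 : ((r : L) + 1) ^ (r + 1) * ((-1) ^ r * (C ^ r * U ^ r *
          (-(C * ((r + 1 : L) - r * U)) / r))) =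
          (((r : L) + 1) ^ (r + 1) * C ^ (r + 1)) * ((-1) ^ (r + 1) * (U ^ r *
            ((r + 1 : L) - r * U)) / r) := by
        ring
      rw [e6, e5]
      have e7 : ((-1 : L) ^ (r + 1)) * (-1) ^ (r + 1) = 1 := by
        rw [← mul_pow]
        simp
      have e8 : (-1 : L) ^ (r + 1) * ((r : L) ^ (r + 1) * N ^ (r + 1)) *
          ((-1) ^ (r + 1) * (U ^ r * ((r + 1 : L) - r * U)) / r) =
          ((-1 : L) ^ (r + 1) * (-1) ^ (r + 1)) * (((r : L) ^ (r + 1) / r) * N ^ (r + 1) *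
            (U ^ r * ((r + 1 : L) - r * U))) := by
        ring
      rw [e8, e7, one_mul, pow_succ (r : L) r, mul_div_cancel_right₀ _ hrL]
      ring
    exact mul_left_cancel₀ (pow_ne_zero _ hrL1) e3
  obtain ⟨d, hd1, hd2, hd⟩ := hloc L i1 i2 hfd hlt U _ hU0 hUY
  have hNU : Near p β (Algebra.norm k U) :=
    near_of_pow hp hβ0 hβ1 (Algebra.norm_ne_zero_iff.2 hU0) (coprime_of_lt hp hd1 hd2) hd
  rw [hxU, map_mul, hCdef, Algebra.norm_algebraMap]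
  exact Near.mul hβ1 (Near.pow hβ0 hβ1 hNc _) hNU

/-- The image at a place above `p`, non-square case. -/
theorem image_at_p_ns {k : Type u} [NontriviallyNormedField k] [IsUltrametricDist k]
    [CompleteSpace k] [CharZero k] {p r : ℕ} (hp : p.Prime) (hr1 : 1 ≤ r) (hr2 : r + 2 ≤ p)
    (π : k) (hπ0 : 0 < ‖π‖) (hπ1 : ‖π‖ < 1) (hA : ‖(p : k)‖ = ‖π‖ ^ (p - 1))
    (hπp : ‖(p : k) + π ^ (p - 1)‖ < ‖(p : k)‖)
    (hval : ∀ a : k, a ≠ 0 → ∃ j : ℤ, ‖a‖ = ‖π‖ ^ j)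
    {β : ℝ} (hβ0 : 0 ≤ β) (hβ : β ^ 2 = ‖π‖ ^ (p + 1))
    {ζ₀ : k} (hζ₀ : IsPrimitiveRoot ζ₀ p) (κ : k) (hκ : ‖κ‖ ≤ 1)
    (hNS : ∀ t : k, ¬ ‖r * (r + 1) * t ^ 2 + 2 * κ‖ < 1)
    {n g : k} (hn : n ≠ 0) (hg : g ≠ 0)
    (hc : n ^ (r + 1) * r ^ r = (r + 1) ^ (r + 1) * (g ^ p * (1 + p * κ)))
    {a : k} (h : InImage p r n a) : Near p β a := by
  have hβ1 : β < 1 := by
    have h1 : ‖π‖ ^ (p + 1) < 1 := pow_lt_one₀ hπ0.le hπ1 (by omega)
    rw [← hβ] at h1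
    by_contra hcon
    push Not at hcon
    have h2 : 1 ≤ β ^ 2 := one_le_pow₀ hcon
    linarith
  have hpβ : ‖(p : k)‖ ≤ β := by
    have h1 : ‖(p : k)‖ ^ 2 ≤ β ^ 2 := by
      rw [hβ, hA, ← pow_mul]
      exact pow_le_pow_of_le_one hπ0.le hπ1.le (by omega)
    exact (pow_le_pow_iff_left₀ (norm_nonneg _) hβ0 (by norm_num)).1 h1
  refine image_of_local hp hr1 hr2 hβ1 hpβ κ hκ ?_ hn hg hc h
  intro L _ _ _ hL U Y hU hUY
  exact local_step_ns hp hr1 hr2 π hπ0 hπ1 hA hπp hval hβ0 hβ hζ₀ κ hκ hNS hL hU hUY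

/-- The image at a place above `p`, non-square case, without `Near`. -/
theorem image_at_p_nsq {k : Type u} [NontriviallyNormedField k] [IsUltrametricDist k]
    [CompleteSpace k] [CharZero k] (p r : ℕ) (hp : p.Prime) (hr1 : 1 ≤ r) (hr2 : r + 2 ≤ p)
    (π : k) (hπ0 : 0 < ‖π‖) (hπ1 : ‖π‖ < 1) (hA : ‖(p : k)‖ = ‖π‖ ^ (p - 1))
    (hπp : ‖(p : k) + π ^ (p - 1)‖ < ‖(p : k)‖)
    (hval : ∀ a : k, a ≠ 0 → ∃ j : ℤ, ‖a‖ = ‖π‖ ^ j)
    {ζ₀ : k} (hζ₀ : IsPrimitiveRoot ζ₀ p) (κ : k) (hκ : ‖κ‖ ≤ 1)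
    (hNS : ∀ t : k, ¬ ‖r * (r + 1) * t ^ 2 + 2 * κ‖ < 1)
    (n g : k) (hn : n ≠ 0) (hg : g ≠ 0)
    (hc : n ^ (r + 1) * r ^ r = (r + 1) ^ (r + 1) * (g ^ p * (1 + p * κ)))
    {a : k} (h : InImage p r n a) :
    ∃ c z : k, c ≠ 0 ∧ ‖z‖ ^ 2 ≤ ‖π‖ ^ (p + 1) ∧ a = c ^ p * (1 + z) := by
  have hπp0 : 0 < ‖π‖ ^ (p + 1) := pow_pos hπ0 _
  obtain ⟨c, z, hc0, hz, e⟩ := image_at_p_ns hp hr1 hr2 π hπ0 hπ1 hA hπp hval
    (Real.sqrt_nonneg _) (Real.sq_sqrt hπp0.le) hζ₀ κ hκ hNS hn hg hc h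
  refine ⟨c, z, hc0, ?_, e⟩
  rw [← Real.sq_sqrt hπp0.le]
  exact pow_le_pow_left₀ (norm_nonneg _) hz 2

end Pool.Agent.MP009fd8F
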