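import Pool.Agent.Lib.MP_009fd8_agF.Est

/-!
MP_009fd8_ag: `p ≡ -π ^ (p - 1)` modulo `p π` for `π = 1 - ζ`.
-/

namespace Pool.Agent.MP009fd8F

open Finset

theorem S_one_zero {L : Type*} [NormedField L] {p : ℕ} (hp : p.Prime) : S p (1 : L) 0 = 1 := by
  have hp2 := hp.two_le
  unfold S
  rw [Finset.sum_eq_single (p - 1)]
  · rw [one_pow, one_mul, show p - (p - 1) - 1 = 0 by omega, pow_zero, one_mul]
    have h1 : p.choose (p - 1) = p := by
      obtain ⟨q, rfl⟩ : ∃ q, p = q + 1 := ⟨p - 1, by omega⟩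
      rw [Nat.add_sub_cancel, Nat.choose_succ_self_right]
    rw [h1, Nat.div_self hp.pos, Nat.cast_one]
  · intro k hk hne
    rw [Finset.mem_Ioo] at hk
    rw [zero_pow (by omega), mul_zero, zero_mul]
  · intro h
    exact absurd (Finset.mem_Ioo.2 ⟨by omega, by omega⟩) h

theorem norm_p_add_pi_pow_le {L : Type*} [NormedField L] [IsUltrametricDist L] {p : ℕ}
    (hp : p.Prime) (hodd : Odd p) {ζ : L} (hζ : ζ ^ p = 1) (hζ1 : ζ ≠ 1) (hπ : ‖1 - ζ‖ ≤ 1) :
    ‖(p : L) + (1 - ζ) ^ (p - 1)‖ ≤ ‖(p : L)‖ * ‖1 - ζ‖ := by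
  set π : L := 1 - ζ with hπd
  have hπ0 : π ≠ 0 := by rw [hπd, sub_ne_zero]; exact hζ1.symm
  have h1 := add_pow_eq hp (1 : L) (-π)
  have h2 : (1 : L) + -π = ζ := by rw [hπd]; ring
  rw [h2, hζ, one_pow, hodd.neg_pow] at h1
  have h3 : π ^ (p - 1) = -((p : L) * S p 1 (-π)) := by
    have h4 : π * π ^ (p - 1) = π * (-((p : L) * S p 1 (-π))) := by
      rw [← pow_succ', Nat.sub_add_cancel hp.one_lt.le]
      linear_combination h1
    exact mul_left_cancel₀ hπ0 h4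
  have e : (p : L) + π ^ (p - 1) = (p : L) * (S p 1 0 - S p 1 (-π)) := by
    rw [h3, S_one_zero hp]
    ring
  rw [e, norm_mul]
  refine mul_le_mul_of_nonneg_left ?_ (norm_nonneg _)
  exact norm_S_one_sub_le (by rw [norm_zero]; exact norm_nonneg _) (by rw [norm_neg]) hπ

end Pool.Agent.MP009fd8F
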