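import Pool.Agent.Lib.MP_009fd8_agF.Cond
import Pool.Agent.Lib.MP_009fd8_agF.AtP
import Pool.Agent.Lib.MP_009fd8_agF.AtN
import Pool.Agent.Lib.MP_009fd8_agF.Away
import Pool.Agent.Lib.MP_009fd8_agF.Scale
import Pool.Agent.Lib.MP_009fd8_agF.ImageP
import Pool.Agent.Lib.MP_009fd8_agF.Pi
import Pool.Agent.Lib.MP_009fd8_agJ.Val

/-!
MP_009fd8_ag, Fermat quotients: the Selmer group is contained in `G_n`.
-/

namespace Pool.Agent.MP009fd8F

open IsDedekindDomain NumberField
open Pool.Agent.MP009fd8J (valuation_p valued_algebraMap norm_le_iff_valued norm_eq_iff_valued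
  norm_lt_iff_valued)

universe u

theorem not_pow_of_not_pow {p : ℕ} (hp : p.Prime) {x : WithZero (Multiplicative ℤ)} (hx : x ≠ 0)
    (h : ¬ ∃ w, x = w ^ p) (j : ℕ) (hj0 : 0 < j) (hjp : j < p) (w : WithZero (Multiplicative ℤ)) :
    x ^ j ≠ w ^ p := by
  intro he
  have hw : w ≠ 0 := by
    rintro rfl
    rw [zero_pow hp.ne_zero] at he
    exact (pow_ne_zero _ hx) he
  obtain ⟨m, hm⟩ : ∃ k : ℤ, x = WithZero.exp k := ⟨WithZero.log x, (WithZero.exp_log hx).symm⟩
  obtain ⟨l, hl⟩ : ∃ k : ℤ, w = WithZero.exp k := ⟨WithZero.log w, (WithZero.exp_log hw).symm⟩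
  rw [hm, hl, ← WithZero.exp_nsmul, ← WithZero.exp_nsmul, WithZero.exp_inj] at he
  simp only [nsmul_eq_mul] at he
  have h1 : (p : ℤ) ∣ (j : ℤ) * m := ⟨l, he⟩
  have hpz : Prime (p : ℤ) := Nat.prime_iff_prime_int.1 hp
  rcases hpz.dvd_or_dvd h1 with h2 | h2
  · have h3 : p ∣ j := by exact_mod_cast h2
    exact absurd (Nat.le_of_dvd hj0 h3) (not_le.2 hjp)
  · obtain ⟨t, ht⟩ := h2
    apply h
    refine ⟨WithZero.exp t, ?_⟩
    rw [hm, ht, ← WithZero.exp_nsmul, nsmul_eq_mul]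

section places

variable {K : Type u} [Field K] [NumberField K] (v : HeightOneSpectrum (𝓞 K))

theorem norm_lt_one_iff (x : v.adicCompletion K) : ‖x‖ < 1 ↔ Valued.v x < 1 := by
  rw [← norm_one (α := v.adicCompletion K), norm_lt_iff_valued, map_one]

theorem norm_le_one_iff (x : v.adicCompletion K) : ‖x‖ ≤ 1 ↔ Valued.v x ≤ 1 := by
  rw [← norm_one (α := v.adicCompletion K), norm_le_iff_valued, map_one]

theorem norm_natCast_lt_one_iff (p : ℕ) :
    ‖(p : v.adicCompletion K)‖ < 1 ↔ v.valuation K (p : K) < 1 := by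
  rw [norm_lt_one_iff, ← map_natCast (algebraMap K (v.adicCompletion K)) p, valued_algebraMap]

/-- Data at a place above `p`. -/
theorem above_p {p : ℕ} (hp : p.Prime) {ζ : K} (hζ : IsPrimitiveRoot ζ p)
    (hv : v.valuation K (p : K) < 1) :
    0 < ‖algebraMap K (v.adicCompletion K) (1 - ζ)‖ ∧
    ‖algebraMap K (v.adicCompletion K) (1 - ζ)‖ < 1 ∧
    ‖(p : v.adicCompletion K)‖ = ‖algebraMap K (v.adicCompletion K) (1 - ζ)‖ ^ (p - 1) := by
  have h1ζ : (1 : K) - ζ ≠ 0 := by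
    rw [sub_ne_zero]
    exact (hζ.ne_one hp.one_lt).symm
  set π : v.adicCompletion K := algebraMap K (v.adicCompletion K) (1 - ζ) with hπ
  have hπ0 : π ≠ 0 := by
    rw [hπ, Ne, map_eq_zero]; exact h1ζ
  have hα0 : 0 < ‖π‖ := norm_pos_iff.2 hπ0
  have hα : ‖(p : v.adicCompletion K)‖ = ‖π‖ ^ (p - 1) := by
    rw [← norm_pow, norm_eq_iff_valued, ← map_natCast (algebraMap K (v.adicCompletion K)) p,
      valued_algebraMap, map_pow, hπ, valued_algebraMap]
    exact valuation_p _ hp hζ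
  have hplt : ‖(p : v.adicCompletion K)‖ < 1 := (norm_natCast_lt_one_iff v p).2 hv
  refine ⟨hα0, ?_, hα⟩
  by_contra hcon
  push Not at hcon
  rw [hα] at hplt
  exact absurd (one_le_pow₀ hcon) (not_le.2 hplt)

theorem norm_eq_zpow {π : v.adicCompletion K} (hπ : Valued.v π = WithZero.exp (-1 : ℤ))
    (a : v.adicCompletion K) (ha : a ≠ 0) : ∃ j : ℤ, ‖a‖ = ‖π‖ ^ j := by
  have hva : Valued.v a ≠ 0 := (Valuation.ne_zero_iff _).2 ha
  obtain ⟨m, hm⟩ : ∃ k : ℤ, Valued.v a = WithZero.exp k :=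
    ⟨WithZero.log (Valued.v a), (WithZero.exp_log hva).symm⟩
  refine ⟨-m, ?_⟩
  rw [← norm_zpow, norm_eq_iff_valued, map_zpow₀, hπ, hm, ← WithZero.exp_zsmul]
  simp

end places

/-- Under the condition above `p` the valuation of `n` is divisible by `p`. -/
theorem GoodAt.exists_pow {p r : ℕ} (hp : p.Prime) (hr1 : 1 ≤ r) (hr2 : r + 2 ≤ p)
    {K : Type u} [Field K] [NumberField K] {ζ : K} (hζ : IsPrimitiveRoot ζ p)
    {n : K} (hn0 : n ≠ 0) {v : HeightOneSpectrum (𝓞 K)} (hv : v.valuation K (p : K) < 1)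
    (h : GoodAt p r (1 - ζ) n v) : ∃ w, v.valuation K n = w ^ p := by
  obtain ⟨g, κ, hg0, hg, hκ⟩ := h
  obtain ⟨hα0, hα1, hα⟩ := above_p v hp hζ hv
  have hplt : ‖(p : v.adicCompletion K)‖ < 1 := (norm_natCast_lt_one_iff v p).2 hv
  have hn1 : algebraMap K (v.adicCompletion K) n ≠ 0 := by rwa [Ne, map_eq_zero]
  have hκ1 : ‖κ‖ ≤ 1 := by
    rw [norm_le_one_iff]
    rcases hκ with h1 | ⟨h1, _⟩
    · refine h1.trans ?_
      rw [← valued_algebraMap, ← norm_le_one_iff]
      exact hα1.le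
    · exact h1
  have hpκ : ‖1 + p * κ‖ = 1 := by
    refine Pool.Agent.MP009fd8J.norm_one_add_eq_one ?_
    rw [norm_mul]
    exact (mul_le_of_le_one_right (norm_nonneg _) hκ1).trans_lt hplt
  have hnr : ‖(r : v.adicCompletion K)‖ = 1 :=
    norm_natCast_eq_one (coprime_of_lt hp hr1 (by omega)) hplt
  have hnr1 : ‖((r : v.adicCompletion K) + 1)‖ = 1 := by
    have := norm_natCast_eq_one (L := v.adicCompletion K)
      (coprime_of_lt hp (r := r + 1) (by omega) (by omega)) hplt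
    rwa [Nat.cast_add, Nat.cast_one] at this
  have h2 : ‖algebraMap K (v.adicCompletion K) n‖ ^ (r + 1) = ‖g‖ ^ p := by
    have := congrArg norm hg
    rwa [norm_mul, norm_pow, norm_pow, hnr, one_pow, mul_one, norm_mul, norm_pow, hnr1, one_pow,
      one_mul, norm_mul, hpκ, mul_one, norm_pow] at this
  obtain ⟨c, _, hc⟩ := exists_norm_pow_of_pow_coprime
    (coprime_of_lt hp (r := r + 1) (by omega) (by omega)) hp.ne_zero hn1 h2
  rw [← norm_pow, norm_eq_iff_valued, valued_algebraMap, map_pow] at hc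
  exact ⟨_, hc⟩

/-- Every element of the Selmer group of `1 - ζ` on `J_(r,n)` lies in `G_n`. -/
theorem selmer_strict {p r : ℕ} (hp : p.Prime) (hr1 : 1 ≤ r) (hr2 : r + 2 ≤ p)
    {K : Type u} [Field K] [NumberField K]
    {ζ : K} (hζ : IsPrimitiveRoot ζ p) (n : K) (hn0 : n ≠ 0)
    (hnp : ∀ v : HeightOneSpectrum (𝓞 K), v.valuation K (p : K) < 1 → GoodAt p r (1 - ζ) n v)
    {a : K} (h : Selmer p r K n a) : StrictSelmer p K (1 - ζ) n a := by
  have hodd : Odd p := hp.odd_of_ne_two (by omega)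
  refine ⟨?_, ?_, ?_⟩
  · rintro v ⟨w, hw⟩
    have hn1 : algebraMap K (v.adicCompletion K) n ≠ 0 := by rwa [Ne, map_eq_zero]
    obtain ⟨c, hcw⟩ := v.valuedAdicCompletion_surjective K w
    have hc0 : c ≠ 0 := by
      rintro rfl
      rw [map_zero] at hcw
      rw [← hcw, zero_pow hp.ne_zero, map_eq_zero] at hw
      exact hn0 hw
    -- scale
    have h1 : InImage p r (algebraMap K (v.adicCompletion K) n * (c⁻¹) ^ p)
        (algebraMap K (v.adicCompletion K) a) := (h v).mul_pow hn1 (inv_ne_zero hc0)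
    have h2 : ‖algebraMap K (v.adicCompletion K) n * (c⁻¹) ^ p‖ = 1 := by
      rw [← norm_one (α := v.adicCompletion K), norm_eq_iff_valued, map_mul, valued_algebraMap, hw,
        map_pow, map_inv₀, hcw, map_one, inv_pow, mul_inv_cancel₀]
      rw [← hcw]
      exact pow_ne_zero _ ((Valuation.ne_zero_iff _).2 hc0)
    obtain ⟨b, _, hb⟩ := image_away p r hp hr1 hr2 _ h2 h1
    rw [← norm_pow, norm_eq_iff_valued, valued_algebraMap, map_pow] at hb
    exact ⟨_, hb⟩
  · intro v hv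
    have hvp : ¬ v.valuation K (p : K) < 1 := fun hlt =>
      hv ((hnp v hlt).exists_pow hp hr1 hr2 hζ hn0 hlt)
    have hp1 : ‖((p : ℕ) : v.adicCompletion K)‖ = 1 := by
      rw [← norm_one (α := v.adicCompletion K), norm_eq_iff_valued, map_one,
        ← map_natCast (algebraMap K (v.adicCompletion K)) p, valued_algebraMap]
      refine le_antisymm ?_ (not_lt.1 hvp)
      have := v.valuation_le_one (K := K) ((p : ℕ) : 𝓞 K)
      simpa using this
    have hn1 : algebraMap K (v.adicCompletion K) n ≠ 0 := by rwa [Ne, map_eq_zero]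
    exact image_at_n p r hp hr1 hr2 hp1 _ hn1 (by
      intro d j hj0 hjp he
      rw [← norm_pow, ← norm_pow, norm_eq_iff_valued, map_pow, map_pow, valued_algebraMap] at he
      have hx : v.valuation K n ≠ 0 := (Valuation.ne_zero_iff _).2 hn0
      exact not_pow_of_not_pow hp hx hv j hj0 hjp (Valued.v d) he) (h v)
  · intro v hv
    obtain ⟨g, κ, hg0, hg, hκ⟩ := hnp v hv
    obtain ⟨hα0, hα1, hα⟩ := above_p v hp hζ hv
    set π : v.adicCompletion K := algebraMap K (v.adicCompletion K) (1 - ζ) with hπ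
    have hvπ : Valued.v π = v.valuation K (1 - ζ) := by
      rw [hπ, valued_algebraMap]
    have hζ' : IsPrimitiveRoot (algebraMap K (v.adicCompletion K) ζ) p :=
      hζ.map_of_injective (algebraMap K (v.adicCompletion K)).injective
    have hn1 : algebraMap K (v.adicCompletion K) n ≠ 0 := by rwa [Ne, map_eq_zero]
    rcases hκ with hκ | ⟨hκ1, hvp, hNS⟩
    · have hκ' : ‖κ‖ ≤ ‖π‖ := by
        rw [norm_le_iff_valued, hvπ]
        exact hκ
      obtain ⟨c, z, hc, hz, e⟩ := image_at_p_sq p r hp hr1 hr2 ‖π‖ hα0 hα1 hα hζ' _ g κ hn1 hg0 hκ'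
        hg (h v)
      refine ⟨c, z, hc, ?_, e⟩
      rw [← norm_pow, ← norm_pow, norm_le_iff_valued, map_pow, map_pow, hvπ] at hz
      exact hz
    · have hπe : π = 1 - algebraMap K (v.adicCompletion K) ζ := by
        rw [hπ, map_sub, map_one]
      have hπp : ‖(p : v.adicCompletion K) + π ^ (p - 1)‖ < ‖(p : v.adicCompletion K)‖ := by
        have hpos : 0 < ‖(p : v.adicCompletion K)‖ := by
          rw [hα]; exact pow_pos hα0 _
        rw [hπe]
        refine (norm_p_add_pi_pow_le hp hodd hζ'.pow_eq_one (hζ'.ne_one hp.one_lt)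
          (by rw [← hπe]; exact hα1.le)).trans_lt ?_
        rw [← hπe]
        exact mul_lt_of_lt_one_right hpos hα1
      obtain ⟨c, z, hc, hz, e⟩ := image_at_p_nsq p r hp hr1 hr2 π hα0 hα1 hα hπp
        (norm_eq_zpow v (hvπ.trans hvp)) hζ' κ ((norm_le_one_iff v κ).2 hκ1)
        (fun t ht => hNS t ((norm_lt_one_iff v _).1 ht)) _ g hn1 hg0 hg (h v)
      refine ⟨c, z, hc, ?_, e⟩
      have hz' : ‖z‖ ^ 2 ≤ ‖π‖ ^ p :=
        hz.trans (pow_le_pow_of_le_one hα0.le hα1.le (Nat.le_succ p))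
      rw [← norm_pow, ← norm_pow, norm_le_iff_valued, map_pow, map_pow, hvπ] at hz'
      exact hz'

end Pool.Agent.MP009fd8F
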