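import Pool.Agent.Lib.MP_009fd8_agF.CondL
import Pool.Agent.Lib.MP_009fd8_agF.Main
import Pool.Agent.Lib.MP_009fd8_agF.ImageL

/-!
MP_009fd8_ag, Fermat quotients: the Selmer group is contained in `G_n`, all critical values that are
`p`-th powers modulo `p`.
-/

namespace Pool.Agent.MP009fd8F.Crit

open IsDedekindDomain NumberField
open Pool.Agent.MP009fd8J (valuation_p valued_algebraMap norm_le_iff_valued norm_eq_iff_valued
  norm_lt_iff_valued)
open Pool.Agent.MP009fd8F (norm_lt_one_iff norm_le_one_iff norm_natCast_lt_one_iff above_p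
  norm_eq_zpow norm_natCast_eq_one coprime_of_lt exists_norm_pow_of_pow_coprime
  not_pow_of_not_pow image_away image_at_n norm_p_add_pi_pow_le image_at_p_sq
  image_at_p_nsq)

universe u

/-- Under the condition above `p` the valuation of `n` is divisible by `p`. -/
theorem CritAt.exists_pow {p r : ℕ} (hp : p.Prime) (hr1 : 1 ≤ r) (hr2 : r + 2 ≤ p)
    {K : Type u} [Field K] [NumberField K] {ζ : K} (hζ : IsPrimitiveRoot ζ p)
    {n : K} (hn0 : n ≠ 0) {τ : 𝓞 K} {v : HeightOneSpectrum (𝓞 K)}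
    (hv : v.valuation K (p : K) < 1)
    (h : CritAt p r (1 - ζ) n τ v) : ∃ w, v.valuation K n = w ^ p := by
  obtain ⟨g, κ, hg0, hg, hκ⟩ := h
  obtain ⟨hα0, hα1, hα⟩ := above_p v hp hζ hv
  have hplt : ‖(p : v.adicCompletion K)‖ < 1 := (norm_natCast_lt_one_iff v p).2 hv
  have hn1 : algebraMap K (v.adicCompletion K) n ≠ 0 := by rwa [Ne, map_eq_zero]
  have hκ1 : ‖κ‖ ≤ 1 := by
    rw [norm_le_one_iff]
    rcases hκ with h1 | ⟨h1, _⟩
    · refine h1.trans ?_
      rw [← valued_algebraMap, ← norm_le_one_iff]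
      exact hα1.le
    · exact h1
  have hpκ : ‖1 + p * κ‖ = 1 := by
    refine Pool.Agent.MP009fd8J.norm_one_add_eq_one ?_
    rw [norm_mul]
    exact (mul_le_of_le_one_right (norm_nonneg _) hκ1).trans_lt hplt
  have hnr : ‖(r : v.adicCompletion K)‖ = 1 :=
    norm_natCast_eq_one (coprime_of_lt hp hr1 (by omega)) hplt
  have hnr1 : ‖((r : v.adicCompletion K) + 1)‖ = 1 := by
    have := norm_natCast_eq_one (L := v.adicCompletion K)
      (coprime_of_lt hp (r := r + 1) (by omega) (by omega)) hplt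
    rwa [Nat.cast_add, Nat.cast_one] at this
  have h2 : ‖algebraMap K (v.adicCompletion K) n‖ ^ (r + 1) = ‖g‖ ^ p := by
    have := congrArg norm hg
    rwa [norm_mul, norm_pow, norm_pow, hnr, one_pow, mul_one, norm_mul, norm_pow, hnr1, one_pow,
      one_mul, norm_mul, hpκ, mul_one, norm_pow] at this
  obtain ⟨c, _, hc⟩ := exists_norm_pow_of_pow_coprime
    (coprime_of_lt hp (r := r + 1) (by omega) (by omega)) hp.ne_zero hn1 h2
  rw [← norm_pow, norm_eq_iff_valued, valued_algebraMap, map_pow] at hc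
  exact ⟨_, hc⟩

/-- From norms to valuations. -/
theorem near_of_norm {p : ℕ} {K : Type u} [Field K] [NumberField K] {π : K} {τ : 𝓞 K}
    {v : HeightOneSpectrum (𝓞 K)} {a : K} (c z : v.adicCompletion K) (m : ℤ) (hc : c ≠ 0)
    (hz : ‖z - algebraMap K (v.adicCompletion K) (m * (τ : K) * π ^ ((p - 1) / 2))‖ ^ 2 ≤
      ‖algebraMap K (v.adicCompletion K) π‖ ^ p)
    (e : algebraMap K (v.adicCompletion K) a = c ^ p * (1 + z)) : Near p π τ v a := by
  refine ⟨c, z, m, hc, ?_, e⟩
  rw [← norm_pow, ← norm_pow, norm_le_iff_valued, map_pow, map_pow, valued_algebraMap] at hz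
  exact hz

/-- Every element of the Selmer group of `1 - ζ` on `J_(r,n)` lies in `G_n`. -/
theorem selmer_strict {p r : ℕ} (hp : p.Prime) (hr1 : 1 ≤ r) (hr2 : r + 2 ≤ p)
    {K : Type u} [Field K] [NumberField K]
    {ζ : K} (hζ : IsPrimitiveRoot ζ p) (n : K) (hn0 : n ≠ 0)
    (τ : HeightOneSpectrum (𝓞 K) → 𝓞 K)
    (hnp : ∀ v : HeightOneSpectrum (𝓞 K), v.valuation K (p : K) < 1 →
      CritAt p r (1 - ζ) n (τ v) v)
    {a : K} (h : Selmer p r K n a) : StrictSelmer p K (1 - ζ) n τ a := by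
  have hodd : Odd p := hp.odd_of_ne_two (by omega)
  refine ⟨?_, ?_, ?_⟩
  · rintro v ⟨w, hw⟩
    have hn1 : algebraMap K (v.adicCompletion K) n ≠ 0 := by rwa [Ne, map_eq_zero]
    obtain ⟨c, hcw⟩ := v.valuedAdicCompletion_surjective K w
    have hc0 : c ≠ 0 := by
      rintro rfl
      rw [map_zero] at hcw
      rw [← hcw, zero_pow hp.ne_zero, map_eq_zero] at hw
      exact hn0 hw
    -- scale
    have h1 : InImage p r (algebraMap K (v.adicCompletion K) n * (c⁻¹) ^ p)
        (algebraMap K (v.adicCompletion K) a) := (h v).mul_pow hn1 (inv_ne_zero hc0)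
    have h2 : ‖algebraMap K (v.adicCompletion K) n * (c⁻¹) ^ p‖ = 1 := by
      rw [← norm_one (α := v.adicCompletion K), norm_eq_iff_valued, map_mul, valued_algebraMap, hw,
        map_pow, map_inv₀, hcw, map_one, inv_pow, mul_inv_cancel₀]
      rw [← hcw]
      exact pow_ne_zero _ ((Valuation.ne_zero_iff _).2 hc0)
    obtain ⟨b, _, hb⟩ := image_away p r hp hr1 hr2 _ h2 h1
    rw [← norm_pow, norm_eq_iff_valued, valued_algebraMap, map_pow] at hb
    exact ⟨_, hb⟩
  · intro v hv
    have hvp : ¬ v.valuation K (p : K) < 1 := fun hlt =>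
      hv ((hnp v hlt).exists_pow hp hr1 hr2 hζ hn0 hlt)
    have hp1 : ‖((p : ℕ) : v.adicCompletion K)‖ = 1 := by
      rw [← norm_one (α := v.adicCompletion K), norm_eq_iff_valued, map_one,
        ← map_natCast (algebraMap K (v.adicCompletion K)) p, valued_algebraMap]
      refine le_antisymm ?_ (not_lt.1 hvp)
      have := v.valuation_le_one (K := K) ((p : ℕ) : 𝓞 K)
      simpa using this
    have hn1 : algebraMap K (v.adicCompletion K) n ≠ 0 := by rwa [Ne, map_eq_zero]
    exact image_at_n p r hp hr1 hr2 hp1 _ hn1 (by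
      intro d j hj0 hjp he
      rw [← norm_pow, ← norm_pow, norm_eq_iff_valued, map_pow, map_pow, valued_algebraMap] at he
      have hx : v.valuation K n ≠ 0 := (Valuation.ne_zero_iff _).2 hn0
      exact not_pow_of_not_pow hp hx hv j hj0 hjp (Valued.v d) he) (h v)
  · intro v hv
    obtain ⟨g, κ, hg0, hg, hκ⟩ := hnp v hv
    obtain ⟨hα0, hα1, hα⟩ := above_p v hp hζ hv
    set π : v.adicCompletion K := algebraMap K (v.adicCompletion K) (1 - ζ) with hπ
    have hvπ : Valued.v π = v.valuation K (1 - ζ) := by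
      rw [hπ, valued_algebraMap]
    have hζ' : IsPrimitiveRoot (algebraMap K (v.adicCompletion K) ζ) p :=
      hζ.map_of_injective (algebraMap K (v.adicCompletion K)).injective
    have hn1 : algebraMap K (v.adicCompletion K) n ≠ 0 := by rwa [Ne, map_eq_zero]
    have hm0 : algebraMap K (v.adicCompletion K)
        (((0 : ℤ) : K) * (τ v : K) * (1 - ζ) ^ ((p - 1) / 2)) = 0 := by
      rw [Int.cast_zero, zero_mul, zero_mul, map_zero]
    rcases hκ with hκ | ⟨hκ1, hvp, hNS⟩
    · have hκ' : ‖κ‖ ≤ ‖π‖ := by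
        rw [norm_le_iff_valued, hvπ]
        exact hκ
      obtain ⟨c, z, hc, hz, e⟩ := image_at_p_sq p r hp hr1 hr2 ‖π‖ hα0 hα1 hα hζ' _ g κ hn1 hg0 hκ'
        hg (h v)
      refine near_of_norm c z 0 hc ?_ e
      rw [hm0, sub_zero]
      exact hz
    · have hπe : π = 1 - algebraMap K (v.adicCompletion K) ζ := by
        rw [hπ, map_sub, map_one]
      have hπp : ‖(p : v.adicCompletion K) + π ^ (p - 1)‖ < ‖(p : v.adicCompletion K)‖ := by
        have hpos : 0 < ‖(p : v.adicCompletion K)‖ := by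
          rw [hα]; exact pow_pos hα0 _
        rw [hπe]
        refine (norm_p_add_pi_pow_le hp hodd hζ'.pow_eq_one (hζ'.ne_one hp.one_lt)
          (by rw [← hπe]; exact hα1.le)).trans_lt ?_
        rw [← hπe]
        exact mul_lt_of_lt_one_right hpos hα1
      have hpow : ‖π‖ ^ (p + 1) ≤ ‖π‖ ^ p := pow_le_pow_of_le_one hα0.le hα1.le (Nat.le_succ p)
      rcases hNS with hNS | hτ
      · obtain ⟨c, z, hc, hz, e⟩ := image_at_p_nsq p r hp hr1 hr2 π hα0 hα1 hα hπp
          (norm_eq_zpow v (hvπ.trans hvp)) hζ' κ ((norm_le_one_iff v κ).2 hκ1)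
          (fun t ht => hNS t ((norm_lt_one_iff v _).1 ht)) _ g hn1 hg0 hg (h v)
        refine near_of_norm c z 0 hc ?_ e
        rw [hm0, sub_zero]
        exact hz.trans hpow
      · obtain ⟨c, z, m, hc, hz, e⟩ := image_at_p_line p r hp hr1 hr2 π hα0 hα1 hα hπp
          (norm_eq_zpow v (hvπ.trans hvp)) hζ' κ
          (algebraMap K (v.adicCompletion K) (τ v : K)) ((norm_le_one_iff v κ).2 hκ1)
          ((norm_lt_one_iff v _).2 hτ) _ g hn1 hg0 hg (h v)
        refine near_of_norm c z m hc ?_ e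
        rw [map_mul, map_mul, map_intCast, map_pow]
        exact hz.trans hpow

end Pool.Agent.MP009fd8F.Crit
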