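import Pool.Agent.Lib.MP_009fd8_agF.Est
import Pool.Agent.Lib.MP_009fd8_agF.Cop

/-!
MP_009fd8_ag, general r: solutions of `U ^ r ((r + 1) - r U) = Y ^ p` over an algebraically closed
field of residue characteristic `p`.
-/

namespace Pool.Agent.MP009fd8F

open Polynomial

section omega

variable {Ω : Type*} [NormedField Ω] [IsUltrametricDist Ω] [IsAlgClosed Ω]

/-- The root near `X₀`. -/
theorem exists_near_root {p r : ℕ} (hp : p.Prime) (hr1 : 1 ≤ r) (hr2 : r + 2 ≤ p)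
    (hplt : ‖(p : Ω)‖ < 1) {ζ₀ : Ω} (hζ₀ : IsPrimitiveRoot ζ₀ p) {U Y X₀ κ : Ω}
    (hU : U ≠ 0) (h : U ^ r * ((r + 1 : Ω) - r * U) * (1 + p * κ) = Y ^ p) (hX : X₀ ^ p = U)
    (h1 : X₀ ≠ 1) :
    ∃ ζ T : Ω, ζ ^ p = 1 ∧ (X₀ + T) ^ r * ((r + 1 : Ω) - r * (X₀ + T)) = ζ * Y ∧
      (‖T‖ * (‖X₀‖ ^ (r - 1) * ‖X₀ - 1‖)) ^ p ≤
        ‖X₀‖ ^ (p * r) * max ‖((r + 1 : Ω) - r * X₀ ^ p) - ((r + 1 : Ω) - r * X₀) ^ p‖
          (‖(p : Ω)‖ * ‖κ‖ * (max 1 ‖X₀‖) ^ p) := by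
  have hX0 : X₀ ≠ 0 := by
    rintro rfl
    rw [zero_pow hp.ne_zero] at hX
    exact hU hX.symm
  have hnr : ‖(r : Ω)‖ = 1 := norm_natCast_eq_one (coprime_of_lt hp hr1 (by omega)) hplt
  have hnr1 : ‖((r : Ω) + 1)‖ = 1 := by
    have := norm_natCast_eq_one (L := Ω) (coprime_of_lt hp (r := r + 1) (by omega) (by omega)) hplt
    rwa [Nat.cast_add, Nat.cast_one] at this
  obtain ⟨ζ, hζ, hle⟩ := exists_root_of_unity hp.pos hζ₀ (X₀ ^ r * ((r + 1 : Ω) - r * X₀)) Y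
  set P : Polynomial Ω := (X + C X₀) ^ r * (C (r + 1 : Ω) - C (r : Ω) * (X + C X₀)) - C (ζ * Y)
    with hPdef
  have hPe : ∀ T : Ω, P.eval T = (T + X₀) ^ r * ((r + 1 : Ω) - r * (T + X₀)) - ζ * Y := by
    intro T
    rw [hPdef]
    simp only [eval_sub, eval_mul, eval_pow, eval_add, eval_X, eval_C]
  have hPd : P.derivative.eval 0 = (r : Ω) * (r + 1) * (X₀ ^ (r - 1) * (1 - X₀)) := by
    rw [hPdef]
    simp only [derivative_sub, derivative_mul, derivative_pow, derivative_add, derivative_X,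
      derivative_C, eval_sub, eval_mul, eval_pow, eval_add, eval_X, eval_C, eval_one, eval_zero]
    obtain ⟨q, rfl⟩ : ∃ q, r = q + 1 := ⟨r - 1, by omega⟩
    rw [Nat.add_sub_cancel]
    push_cast
    ring
  have hPd0 : P.derivative.eval 0 ≠ 0 := by
    rw [hPd]
    refine mul_ne_zero (mul_ne_zero ?_ ?_) (mul_ne_zero (pow_ne_zero _ hX0) ?_)
    · rw [← norm_ne_zero_iff, hnr]; exact one_ne_zero
    · rw [← norm_ne_zero_iff, hnr1]; exact one_ne_zero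
    · rw [sub_ne_zero]; exact h1.symm
  obtain ⟨T, hT, hTle⟩ := exists_small_root P hPd0
  refine ⟨ζ, T, hζ, ?_, ?_⟩
  · rw [hPe] at hT
    rw [add_comm X₀ T]
    linear_combination hT
  · rw [hPd, hPe, norm_mul, norm_mul, hnr, hnr1, one_mul, one_mul, norm_mul, norm_pow, zero_add,
      norm_sub_rev (1 : Ω)] at hTle
    refine (pow_le_pow_left₀ (by positivity) hTle p).trans (hle.trans ?_)
    have hn1 : ‖(r + 1 : Ω) - r * X₀ ^ p‖ ≤ (max 1 ‖X₀‖) ^ p := by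
      refine (nsub _ _).trans (max_le ?_ ?_)
      · rw [hnr1]
        exact one_le_pow₀ (le_max_left _ _)
      · rw [norm_mul, hnr, one_mul, norm_pow]
        exact pow_le_pow_left₀ (norm_nonneg _) (le_max_right _ _) p
    have e : (X₀ ^ r * ((r + 1 : Ω) - r * X₀)) ^ p - Y ^ p =
        X₀ ^ (p * r) * (-((((r + 1 : Ω) - r * X₀ ^ p) - ((r + 1 : Ω) - r * X₀) ^ p)) -
          p * κ * ((r + 1 : Ω) - r * X₀ ^ p)) := by
      rw [← h, ← hX, mul_pow, ← pow_mul, ← pow_mul, mul_comm r p]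
      ring
    rw [e, norm_mul, norm_pow]
    refine mul_le_mul_of_nonneg_left ?_ (pow_nonneg (norm_nonneg _) _)
    refine (nsub _ _).trans (max_le_max (by rw [norm_neg]) ?_)
    rw [norm_mul, norm_mul]
    exact mul_le_mul_of_nonneg_left hn1 (by positivity)

/-- Far from `1`. -/
theorem omega_far {p r : ℕ} (hp : p.Prime) (hodd : Odd p) (hr1 : 1 ≤ r) (hr2 : r + 2 ≤ p)
    (hplt : ‖(p : Ω)‖ < 1) {ζ₀ : Ω} (hζ₀ : IsPrimitiveRoot ζ₀ p) {U Y X₀ κ : Ω}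
    (hκ : ‖κ‖ ≤ 1)
    (hU : U ≠ 0) (h : U ^ r * ((r + 1 : Ω) - r * U) * (1 + p * κ) = Y ^ p) (hX : X₀ ^ p = U)
    (h1 : 1 ≤ ‖X₀ - 1‖) :
    ∃ ζ ρ δ : Ω, ζ ^ p = 1 ∧ ρ ≠ 0 ∧ ρ ^ r * ((r + 1 : Ω) - r * ρ) = ζ * Y ∧
      U * (1 + δ) = ρ ^ p ∧ ‖δ‖ ≤ ‖(p : Ω)‖ := by
  have hX0 : X₀ ≠ 0 := by
    rintro rfl
    rw [zero_pow hp.ne_zero] at hX
    exact hU hX.symm
  have hXpos : 0 < ‖X₀‖ := norm_pos_iff.2 hX0
  have hX1 : X₀ ≠ 1 := by
    rintro rfl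
    rw [sub_self, norm_zero] at h1
    exact absurd h1 (by norm_num)
  obtain ⟨ζ, T, hζ, hT, hTle⟩ := exists_near_root hp hr1 hr2 hplt hζ₀ hU h hX hX1
  have hkey : ‖T‖ ^ p ≤ ‖(p : Ω)‖ * ‖X₀‖ ^ p := by
    have hD := norm_D_le hp hodd r X₀
    have h2 : (‖T‖ * (‖X₀‖ ^ (r - 1) * ‖X₀ - 1‖)) ^ p ≤
        ‖X₀‖ ^ (p * r) * (‖(p : Ω)‖ * (max 1 ‖X₀‖) ^ p) := by
      refine hTle.trans (mul_le_mul_of_nonneg_left (max_le hD ?_) (pow_nonneg (norm_nonneg _) _))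
      refine mul_le_mul_of_nonneg_right ?_ (by positivity)
      exact mul_le_of_le_one_right (norm_nonneg _) hκ
    rcases le_or_gt ‖X₀‖ 1 with h3 | h3
    · rw [max_eq_left h3, one_pow, mul_one] at h2
      have h4 : (‖T‖ * ‖X₀‖ ^ (r - 1)) ^ p ≤ ‖X₀‖ ^ (p * r) * ‖(p : Ω)‖ := by
        refine le_trans (pow_le_pow_left₀ (by positivity) ?_ p) h2
        exact mul_le_mul_of_nonneg_left (le_mul_of_one_le_right (by positivity) h1)
          (norm_nonneg _)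
      rw [mul_pow, ← pow_mul] at h4
      have h5 : ‖X₀‖ ^ (p * r) = ‖X₀‖ ^ ((r - 1) * p) * ‖X₀‖ ^ p := by
        rw [← pow_add]
        congr 1
        obtain ⟨q, rfl⟩ : ∃ q, r = q + 1 := ⟨r - 1, by omega⟩
        rw [Nat.add_sub_cancel]; ring
      have h6 : 0 < ‖X₀‖ ^ ((r - 1) * p) := pow_pos hXpos _
      have h7 : ‖X₀‖ ^ ((r - 1) * p) * ‖T‖ ^ p ≤ ‖X₀‖ ^ ((r - 1) * p) * (‖(p : Ω)‖ * ‖X₀‖ ^ p) := by
        calc ‖X₀‖ ^ ((r - 1) * p) * ‖T‖ ^ p = ‖T‖ ^ p * ‖X₀‖ ^ ((r - 1) * p) := mul_comm _ _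
          _ ≤ _ := h4
          _ = _ := by rw [h5]; ring
      exact le_of_mul_le_mul_left h7 h6
    · rw [max_eq_right h3.le] at h2
      have h8 : ‖X₀ - 1‖ = ‖X₀‖ := by
        have : ‖X₀ + (-1)‖ = max ‖X₀‖ ‖(-1 : Ω)‖ :=
          IsUltrametricDist.norm_add_eq_max_of_norm_ne_norm
            (by rw [norm_neg, norm_one]; exact h3.ne')
        rw [sub_eq_add_neg, this, norm_neg, norm_one, max_eq_left h3.le]
      rw [h8, ← pow_succ, Nat.sub_add_cancel hr1, mul_pow, ← pow_mul] at h2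
      have h6 : 0 < ‖X₀‖ ^ (p * r) := pow_pos hXpos _
      refine le_of_mul_le_mul_left ?_ h6
      calc ‖X₀‖ ^ (p * r) * ‖T‖ ^ p = ‖T‖ ^ p * ‖X₀‖ ^ (r * p) := by rw [mul_comm, mul_comm p r]
        _ ≤ _ := h2
  set s : Ω := T / X₀ with hs
  have hTs : T = X₀ * s := by rw [hs]; field_simp
  have hsp : ‖s‖ ^ p ≤ ‖(p : Ω)‖ := by
    rw [hs, norm_div, div_pow, div_le_iff₀ (pow_pos hXpos _)]
    exact hkey
  have hs1 : ‖s‖ < 1 := by
    by_contra hcon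
    push Not at hcon
    have := one_le_pow₀ (n := p) hcon
    linarith
  have h1s : 1 + s ≠ 0 := by
    intro h0
    have h9 : s = -1 := by linear_combination h0
    rw [h9, norm_neg, norm_one] at hs1
    exact lt_irrefl _ hs1
  have hρ : X₀ + T = X₀ * (1 + s) := by rw [hTs]; ring
  refine ⟨ζ, X₀ + T, (1 + s) ^ p - 1, hζ, ?_, hT, ?_, ?_⟩
  · rw [hρ]; exact mul_ne_zero hX0 h1s
  · rw [hρ, mul_pow, hX]; ring
  · refine (norm_one_add_pow_sub_one hp hs1.le).trans (max_le hsp ?_)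
    exact mul_le_of_le_one_right (norm_nonneg _) hs1.le

/-- Close to `1`. -/
theorem omega_near {p r : ℕ} (hp : p.Prime) (hodd : Odd p) (hr1 : 1 ≤ r) (hr2 : r + 2 ≤ p)
    (hplt : ‖(p : Ω)‖ < 1) {ζ₀ : Ω} (hζ₀ : IsPrimitiveRoot ζ₀ p) {U Y X₀ κ : Ω}
    (hU : U ≠ 0) (h : U ^ r * ((r + 1 : Ω) - r * U) * (1 + p * κ) = Y ^ p) (hX : X₀ ^ p = U)
    (h0 : X₀ ≠ 1) (h1 : ‖X₀ - 1‖ < 1) (hκ : ‖κ‖ ≤ ‖X₀ - 1‖ ^ 2) :
    ∃ ζ T : Ω, ζ ^ p = 1 ∧ (X₀ + T) ^ r * ((r + 1 : Ω) - r * (X₀ + T)) = ζ * Y ∧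
      ‖T‖ ^ p * ‖X₀ - 1‖ ^ (p - 2) ≤ ‖(p : Ω)‖ := by
  have hnX : ‖X₀‖ = 1 := by
    have e : X₀ = 1 + (X₀ - 1) := by ring
    rw [e, IsUltrametricDist.norm_add_eq_max_of_norm_ne_norm
      (by rw [norm_one]; exact h1.ne'), norm_one, max_eq_left h1.le]
  obtain ⟨ζ, T, hζ, hT, hTle⟩ := exists_near_root hp hr1 hr2 hplt hζ₀ hU h hX h0
  refine ⟨ζ, T, hζ, hT, ?_⟩
  have hD := norm_D_le_sq hp hodd r X₀ h1.le
  rw [hnX, one_pow, one_pow, one_mul, one_mul, mul_pow, max_self, one_pow, mul_one] at hTle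
  have h2 := hTle.trans (max_le hD (mul_le_mul_of_nonneg_left hκ (norm_nonneg _)))
  have hpos : 0 < ‖X₀ - 1‖ ^ 2 := pow_pos (norm_pos_iff.2 (sub_ne_zero.2 h0)) _
  refine le_of_mul_le_mul_right ?_ hpos
  calc ‖T‖ ^ p * ‖X₀ - 1‖ ^ (p - 2) * ‖X₀ - 1‖ ^ 2 = ‖T‖ ^ p * ‖X₀ - 1‖ ^ p := by
        rw [mul_assoc, ← pow_add, Nat.sub_add_cancel hp.two_le]
    _ ≤ _ := h2

/-- The local step over an algebraically closed field. -/
theorem omega_step {p r : ℕ} (hp : p.Prime) (hodd : Odd p) (hr1 : 1 ≤ r) (hr2 : r + 2 ≤ p)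
    {α : ℝ} (hα0 : 0 < α) (hα1 : α < 1) (hα : ‖(p : Ω)‖ = α ^ (p - 1))
    {ζ₀ : Ω} (hζ₀ : IsPrimitiveRoot ζ₀ p) {U Y κ : Ω} (hκ : ‖κ‖ ≤ α)
    (hU : U ≠ 0) (h : U ^ r * ((r + 1 : Ω) - r * U) * (1 + p * κ) = Y ^ p) :
    ‖U - 1‖ ^ 2 ≤ α ^ p ∨
    ∃ ζ ρ δ : Ω, ζ ^ p = 1 ∧ ρ ≠ 0 ∧ ρ ^ r * ((r + 1 : Ω) - r * ρ) = ζ * Y ∧
      U * (1 + δ) = ρ ^ p ∧ ‖δ‖ ^ 2 ≤ α ^ p := by
  have hp3 : 3 ≤ p := by omega
  have hplt : ‖(p : Ω)‖ < 1 := by
    rw [hα]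
    exact pow_lt_one₀ hα0.le hα1 (by omega)
  have hα2 : (α ^ (p - 1)) ^ 2 ≤ α ^ p := by
    rw [← pow_mul]
    exact pow_le_pow_of_le_one hα0.le hα1.le (by omega)
  have hαp : 0 < α ^ p := pow_pos hα0 _
  obtain ⟨X₀, hX⟩ : ∃ X₀ : Ω, X₀ ^ p = U := IsAlgClosed.exists_pow_nat_eq U hp.pos
  have hX0 : X₀ ≠ 0 := by
    rintro rfl
    rw [zero_pow hp.ne_zero] at hX
    exact hU hX.symm
  rcases le_or_gt 1 ‖X₀ - 1‖ with h1 | h1
  · right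
    obtain ⟨ζ, ρ, δ, h2, h3, h4, h5, h6⟩ := omega_far hp hodd hr1 hr2 hplt hζ₀
      (hκ.trans hα1.le) hU h hX h1
    exact ⟨ζ, ρ, δ, h2, h3, h4, h5, (pow_le_pow_left₀ (norm_nonneg _) (h6.trans hα.le) 2).trans hα2⟩
  · set t : ℝ := ‖X₀ - 1‖ with ht
    have ht0 : 0 ≤ t := norm_nonneg _
    rcases le_or_gt (t ^ 2) α with h2 | h2
    · left
      have e : U - 1 = (1 + (X₀ - 1)) ^ p - 1 := by rw [add_sub_cancel, hX]
      have h3 := norm_one_add_pow_sub_one hp (s := X₀ - 1) h1.le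
      rw [← e, ← ht] at h3
      have h4 : (max (t ^ p) (‖(p : Ω)‖ * t)) ^ 2 ≤ α ^ p := by
        rcases max_cases (t ^ p) (‖(p : Ω)‖ * t) with ⟨h5, _⟩ | ⟨h5, _⟩
        · rw [h5, ← pow_mul, mul_comm p 2, pow_mul]
          exact pow_le_pow_left₀ (pow_nonneg ht0 _) h2 p
        · rw [h5, hα]
          refine (pow_le_pow_left₀ (mul_nonneg (pow_nonneg hα0.le _) ht0)
            (mul_le_of_le_one_right (pow_nonneg hα0.le _) h1.le) 2).trans hα2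
      exact (pow_le_pow_left₀ (norm_nonneg _) h3 2).trans h4
    · right
      have hX1 : X₀ ≠ 1 := by
        rintro rfl
        rw [sub_self, norm_zero] at ht
        rw [ht] at h2
        norm_num at h2
        linarith
      obtain ⟨ζ, T, hζ, hT, hTle⟩ := omega_near hp hodd hr1 hr2 hplt hζ₀ hU h hX hX1 h1
        (hκ.trans h2.le)
      rw [← ht, hα] at hTle
      have hnX : ‖X₀‖ = 1 := by
        have e : X₀ = 1 + (X₀ - 1) := by ring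
        rw [e, IsUltrametricDist.norm_add_eq_max_of_norm_ne_norm
          (by rw [norm_one]; exact h1.ne'), norm_one, max_eq_left h1.le]
      -- the square of `‖T‖ ^ p`
      have hTp : (‖T‖ ^ p) ^ 2 ≤ α ^ p := by
        have h3 : (‖T‖ ^ p * t ^ (p - 2)) ^ 2 ≤ (α ^ (p - 1)) ^ 2 :=
          pow_le_pow_left₀ (by positivity) hTle 2
        rw [mul_pow] at h3
        have h4 : α ^ (p - 2) ≤ (t ^ (p - 2)) ^ 2 := by
          rw [← pow_mul, mul_comm (p - 2) 2, pow_mul]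
          exact pow_le_pow_left₀ hα0.le h2.le _
        have h5 : (‖T‖ ^ p) ^ 2 * α ^ (p - 2) ≤ α ^ p * α ^ (p - 2) := by
          calc (‖T‖ ^ p) ^ 2 * α ^ (p - 2) ≤ (‖T‖ ^ p) ^ 2 * (t ^ (p - 2)) ^ 2 :=
                mul_le_mul_of_nonneg_left h4 (by positivity)
            _ ≤ (α ^ (p - 1)) ^ 2 := h3
            _ = α ^ p * α ^ (p - 2) := by
                rw [← pow_mul, ← pow_add]
                congr 1
                omega
        exact le_of_mul_le_mul_right h5 (pow_pos hα0 _)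
      have hT1 : ‖T‖ < 1 := by
        by_contra hcon
        push Not at hcon
        have h3 : 1 ≤ (‖T‖ ^ p) ^ 2 := one_le_pow₀ (one_le_pow₀ hcon)
        have h4 : α ^ p < 1 := pow_lt_one₀ hα0.le hα1 hp.ne_zero
        linarith
      set s : Ω := T / X₀ with hs
      have hTs : T = X₀ * s := by rw [hs]; field_simp
      have hsT : ‖s‖ = ‖T‖ := by rw [hs, norm_div, hnX, div_one]
      have h1s : 1 + s ≠ 0 := by
        intro h0
        have h9 : s = -1 := by linear_combination h0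
        rw [← hsT, h9, norm_neg, norm_one] at hT1
        exact lt_irrefl _ hT1
      have hρ : X₀ + T = X₀ * (1 + s) := by rw [hTs]; ring
      refine ⟨ζ, X₀ + T, (1 + s) ^ p - 1, hζ, ?_, hT, ?_, ?_⟩
      · rw [hρ]; exact mul_ne_zero hX0 h1s
      · rw [hρ, mul_pow, hX]; ring
      · have h3 := norm_one_add_pow_sub_one hp (s := s) (by rw [hsT]; exact hT1.le)
        rw [hsT] at h3
        refine (pow_le_pow_left₀ (norm_nonneg _) h3 2).trans ?_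
        rcases max_cases (‖T‖ ^ p) (‖(p : Ω)‖ * ‖T‖) with ⟨h5, _⟩ | ⟨h5, _⟩
        · rw [h5]; exact hTp
        · rw [h5, hα]
          refine (pow_le_pow_left₀ (mul_nonneg (pow_nonneg hα0.le _) (norm_nonneg _))
            (mul_le_of_le_one_right (pow_nonneg hα0.le _) hT1.le) 2).trans hα2

end omega

end Pool.Agent.MP009fd8F
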